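import Pool.Agent.H671R2.PolyAuto

/-!
# Spanning tree congestion on cographs: the algorithm
-/

namespace Pool.Agent.H225R2.STC

/-- One greedy step: match `z` with an unused admissible element of `N` of maximum weight. -/
def gstep {α : Type} [DecidableEq α] (N : List α) (ok : α → α → Bool) (wt : α → ℕ)
    (s : List (α × α)) (z : α) : List (α × α) :=
  match (N.filter fun y => (ok z y && !(s.any fun q => decide (q.2 = y))) &&
      N.all fun y' => !(ok z y' && !(s.any fun q => decide (q.2 = y'))) ||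
        decide (wt y' ≤ wt y)).head? with
  | some y => (z, y) :: s
  | none => s

/-- The greedy matching. -/
def greedy {α : Type} [DecidableEq α] (N L : List α) (ok : α → α → Bool) (wt : α → ℕ) :
    List (α × α) := L.foldl (gstep N ok wt) []

/-- The vertices of the graph with adjacency matrix `M`. -/
def vs (M : List (List Bool)) : List ℕ := List.range M.length

/-- The adjacency test. -/
def ad (M : List (List Bool)) (i j : ℕ) : Bool := (M.getD i []).getD j false

/-- The degree of `i`. -/
def dgL (M : List (List Bool)) (i : ℕ) : ℕ := ((vs M).filter fun j => ad M i j).length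

/-- `y` is a common neighbour of `ρ` and `z` other than `u` and `v`. -/
def comB (M : List (List Bool)) (ρ u v z y : ℕ) : Bool :=
  ad M ρ y && ad M z y && !(decide (y = u)) && !(decide (y = v))

/-- The number of common neighbours of `ρ` and `z` other than `u` and `v`. -/
def comN (M : List (List Bool)) (ρ u v z : ℕ) : ℕ := ((vs M).filter fun y => comB M ρ u v z y).length

/-- The admissible pairs of the matching. -/
def okB (M : List (List Bool)) (ρ u v k z y : ℕ) : Bool :=
  comB M ρ u v z y && decide (dgL M z + dgL M y ≤ k + 2)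

/-- The vertices to be matched, sorted by the number of common neighbours with `ρ`. -/
def zL (M : List (List Bool)) (ρ u v : ℕ) : List ℕ :=
  (List.range M.length).flatMap fun c => (vs M).filter fun z =>
    !(decide (z = ρ)) && !(ad M ρ z) && decide (comN M ρ u v z = c + 1)

/-- The matching. -/
def mL (M : List (List Bool)) (ρ u v k : ℕ) : List (ℕ × ℕ) :=
  greedy (vs M) (zL M ρ u v) (okB M ρ u v k) (dgL M)

/-- The parent of `x`. -/
def parB (M : List (List Bool)) (ρ u v : ℕ) (s : List (ℕ × ℕ)) (x : ℕ) : ℕ :=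
  if x = ρ then ρ else if ad M ρ x = true then ρ else if comN M ρ u v x = 0 then u else
    ((s.filter fun q => decide (q.1 = x)).head?.elim ρ fun q => q.2)

/-- The list of parents. -/
def pL (M : List (List Bool)) (ρ u v k : ℕ) : List ℕ :=
  (vs M).map fun x => parB M ρ u v (mL M ρ u v k) x

/-- The vertex `x` with its children. -/
def dnL (M : List (List Bool)) (ρ : ℕ) (p : List ℕ) (x : ℕ) : List ℕ :=
  (vs M).filter fun w => decide (w = x) || (!(decide (w = ρ)) && decide (p.getD w 0 = x))

/-- The number of edges leaving a set. -/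
def cutL (M : List (List Bool)) (X : List ℕ) : ℕ :=
  (X.map fun x => ((vs M).filter fun y => !(decide (y ∈ X)) && ad M x y).length).sum

/-- The test: `p` is a parent function of a spanning tree of congestion at most `k`. -/
def test (M : List (List Bool)) (ρ : ℕ) (p : List ℕ) (k : ℕ) : Bool :=
  (vs M).all fun x => decide (x = ρ) ||
    ((ad M x (p.getD x 0) && (decide (p.getD x 0 = ρ) || decide (p.getD (p.getD x 0) 0 = ρ))) &&
      decide (cutL M (dnL M ρ p x) ≤ k))

/-- The candidates `(k, ρ, u, v)`, in increasing order of `k`. -/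
def cands (M : List (List Bool)) : List (ℕ × ℕ × ℕ × ℕ) :=
  (List.range (M.length * M.length + 1)).flatMap fun k => (vs M).flatMap fun ρ =>
    (vs M).flatMap fun u => (vs M).map fun v => (k, ρ, u, v)

/-- The matrix of the tree. -/
def treeM (M : List (List Bool)) (ρ : ℕ) (p : List ℕ) : List (List Bool) :=
  (vs M).map fun i => (vs M).map fun j => !(decide (i = j)) &&
    ((!(decide (i = ρ)) && decide (p.getD i 0 = j)) || (!(decide (j = ρ)) && decide (p.getD j 0 = i)))

/-- The algorithm. -/
def alg (M : List (List Bool)) : List (List Bool) :=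
  ((cands M).filter fun c =>
      test M c.2.1 (pL M c.2.1 c.2.2.1 c.2.2.2 c.1) c.1).head?.elim []
    fun c => treeM M c.2.1 (pL M c.2.1 c.2.2.1 c.2.2.2 c.1)

open Pool.Agent.NPC

variable {α : Type} [TEnc α]

theorem poly_vs {M : α → List (List Bool)} (hM : Poly M) : Poly (fun a => vs (M a)) := by
  unfold vs
  exact Poly.range_length hM

attribute [local fun_prop] poly_vs

theorem poly_ad {M : α → List (List Bool)} {i j : α → ℕ} (hM : Poly M) (hi : Poly i) (hj : Poly j) :
    Poly (fun a => ad (M a) (i a) (j a)) := by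
  unfold ad
  fun_prop

attribute [local fun_prop] poly_ad

theorem poly_dgL {M : α → List (List Bool)} {i : α → ℕ} (hM : Poly M) (hi : Poly i) :
    Poly (fun a => dgL (M a) (i a)) := by
  unfold dgL
  fun_prop

attribute [local fun_prop] poly_dgL

theorem poly_comB {M : α → List (List Bool)} {ρ u v z y : α → ℕ} (hM : Poly M) (hρ : Poly ρ)
    (hu : Poly u) (hv : Poly v) (hz : Poly z) (hy : Poly y) :
    Poly (fun a => comB (M a) (ρ a) (u a) (v a) (z a) (y a)) := by
  unfold comB
  fun_prop

attribute [local fun_prop] poly_comB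

theorem poly_comN {M : α → List (List Bool)} {ρ u v z : α → ℕ} (hM : Poly M) (hρ : Poly ρ)
    (hu : Poly u) (hv : Poly v) (hz : Poly z) :
    Poly (fun a => comN (M a) (ρ a) (u a) (v a) (z a)) := by
  unfold comN
  fun_prop

attribute [local fun_prop] poly_comN

theorem poly_okB {M : α → List (List Bool)} {ρ u v k z y : α → ℕ} (hM : Poly M) (hρ : Poly ρ)
    (hu : Poly u) (hv : Poly v) (hk : Poly k) (hz : Poly z) (hy : Poly y) :
    Poly (fun a => okB (M a) (ρ a) (u a) (v a) (k a) (z a) (y a)) := by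
  unfold okB
  fun_prop

attribute [local fun_prop] poly_okB

theorem poly_zL {M : α → List (List Bool)} {ρ u v : α → ℕ} (hM : Poly M) (hρ : Poly ρ)
    (hu : Poly u) (hv : Poly v) :
    Poly (fun a => zL (M a) (ρ a) (u a) (v a)) := by
  unfold zL
  have h : Poly (fun a => List.range (M a).length) := Poly.range_length hM
  fun_prop

attribute [local fun_prop] poly_zL

/-- one step of the matching -/
def mstep (x : List (List Bool) × ℕ × ℕ × ℕ × ℕ) (s : List (ℕ × ℕ)) (z : ℕ) : List (ℕ × ℕ) :=
  gstep (vs x.1) (okB x.1 x.2.1 x.2.2.1 x.2.2.2.1 x.2.2.2.2) (dgL x.1) s z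

theorem poly_mstep : Poly (fun p : (List (List Bool) × ℕ × ℕ × ℕ × ℕ) × List (ℕ × ℕ) × ℕ =>
    mstep p.1 p.2.1 p.2.2) := by
  have h : Poly (fun p : (List (List Bool) × ℕ × ℕ × ℕ × ℕ) × List (ℕ × ℕ) × ℕ =>
      (((vs p.1.1).filter fun y => (okB p.1.1 p.1.2.1 p.1.2.2.1 p.1.2.2.2.1 p.1.2.2.2.2 p.2.2 y &&
        !(p.2.1.any fun q => decide (q.2 = y))) &&
      (vs p.1.1).all fun y' => !(okB p.1.1 p.1.2.1 p.1.2.2.1 p.1.2.2.2.1 p.1.2.2.2.2 p.2.2 y' &&
        !(p.2.1.any fun q => decide (q.2 = y'))) ||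
        decide (dgL p.1.1 y' ≤ dgL p.1.1 y)).head?.elim p.2.1 fun y => (p.2.2, y) :: p.2.1)) := by
    fun_prop
  refine h.congr fun p => ?_
  unfold mstep gstep
  cases ((vs p.1.1).filter fun y => (okB p.1.1 p.1.2.1 p.1.2.2.1 p.1.2.2.2.1 p.1.2.2.2.2 p.2.2 y &&
        !(p.2.1.any fun q => decide (q.2 = y))) &&
      (vs p.1.1).all fun y' => !(okB p.1.1 p.1.2.1 p.1.2.2.1 p.1.2.2.2.1 p.1.2.2.2.2 p.2.2 y' &&
        !(p.2.1.any fun q => decide (q.2 = y'))) ||
        decide (dgL p.1.1 y' ≤ dgL p.1.1 y)).head? <;> rfl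

theorem mstep_mem (x : List (List Bool) × ℕ × ℕ × ℕ × ℕ) (s : List (ℕ × ℕ)) (z : ℕ) :
    mstep x s z = s ∨ ∃ y ∈ vs x.1, mstep x s z = (z, y) :: s := by
  unfold mstep gstep
  split
  · next y h =>
    right
    have h1 := List.mem_of_mem_head? h
    exact ⟨y, (List.mem_filter.1 h1).1, rfl⟩
  · left; rfl

theorem foldl_mstep_bound (x : List (List Bool) × ℕ × ℕ × ℕ × ℕ) :
    ∀ (L : List ℕ) (s : List (ℕ × ℕ)), (∀ z ∈ L, z < x.1.length) →
      (∀ q ∈ s, q.1 < x.1.length ∧ q.2 < x.1.length) →
      (L.foldl (mstep x) s).length ≤ s.length + L.length ∧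
        ∀ q ∈ L.foldl (mstep x) s, q.1 < x.1.length ∧ q.2 < x.1.length
  | [], s, _, hs => ⟨by simp, by simpa using hs⟩
  | z :: L, s, hL, hs => by
    have h1 : (∀ q ∈ mstep x s z, q.1 < x.1.length ∧ q.2 < x.1.length) ∧
        (mstep x s z).length ≤ s.length + 1 := by
      rcases mstep_mem x s z with h | ⟨y, hy, h⟩
      · rw [h]
        exact ⟨hs, by omega⟩
      · rw [h]
        refine ⟨?_, by simp⟩
        intro q hq
        rcases List.mem_cons.1 hq with h | h
        · rw [h]
          exact ⟨hL z (by simp), List.mem_range.1 hy⟩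
        · exact hs q h
    obtain ⟨h2, h3⟩ := foldl_mstep_bound x L (mstep x s z)
      (fun z hz => hL z (List.mem_cons_of_mem _ hz)) h1.1
    rw [List.foldl_cons]
    refine ⟨?_, h3⟩
    simp only [List.length_cons]
    omega

theorem zL_lt {M : List (List Bool)} {ρ u v z : ℕ} (h : z ∈ zL M ρ u v) : z < M.length := by
  unfold zL at h
  rw [List.mem_flatMap] at h
  obtain ⟨c, -, h⟩ := h
  exact List.mem_range.1 (List.mem_filter.1 h).1

theorem poly_mL0 : Poly (fun x : List (List Bool) × ℕ × ℕ × ℕ × ℕ =>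
    mL x.1 x.2.1 x.2.2.1 x.2.2.2.1 x.2.2.2.2) := by
  have hl : Poly (fun x : List (List Bool) × ℕ × ℕ × ℕ × ℕ => zL x.1 x.2.1 x.2.2.1 x.2.2.2.1) := by
    fun_prop
  obtain ⟨r, hr⟩ := hl.sz_le
  refine (Poly.foldl (s := fun _ => ([] : List (ℕ × ℕ))) (F := mstep) hl (NPC.Poly.const _) poly_mstep
    (r * (Polynomial.C 8 * Polynomial.X + Polynomial.C 4) + Polynomial.C 1) ?_).congr
    fun x => rfl
  intro x k hk
  obtain ⟨h1, h2⟩ := foldl_mstep_bound x ((zL x.1 x.2.1 x.2.2.1 x.2.2.2.1).take k) []
    (fun z hz => zL_lt (List.mem_of_mem_take hz)) (by simp)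
  have hn : x.1.length ≤ sz x := by
    have h3 := length_lt_sz x.1
    obtain ⟨M, y⟩ := x
    simp only [sz_pair]
    simp only at h3
    omega
  have h3 := sz_le_length_mul _ (8 * x.1.length + 3) (fun q hq => by
    obtain ⟨h4, h5⟩ := h2 q hq
    have h6 := sz_nat_le q.1
    have h7 : q.1.size ≤ q.1 := Nat.size_le.2 Nat.lt_two_pow_self
    have h8 := sz_nat_le q.2
    have h9 : q.2.size ≤ q.2 := Nat.size_le.2 Nat.lt_two_pow_self
    have h10 : sz q = sz q.1 + sz q.2 + 1 := by
      obtain ⟨a, b⟩ := q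
      simp
    omega)
  refine h3.trans ?_
  have h11 := hr x
  have h12 := length_lt_sz (zL x.1 x.2.1 x.2.2.1 x.2.2.2.1)
  have h13 : (((zL x.1 x.2.1 x.2.2.1 x.2.2.2.1).take k).foldl (mstep x) []).length ≤
      r.eval (sz x) := by
    refine h1.trans ?_
    simp only [List.length_nil, List.length_take]
    omega
  simp only [Polynomial.eval_add, Polynomial.eval_mul, Polynomial.eval_C, Polynomial.eval_X]
  have h14 : 8 * x.1.length + 3 + 1 ≤ 8 * sz x + 4 := by omega
  exact Nat.add_le_add_right (Nat.mul_le_mul h13 h14) 1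

theorem poly_mL {M : α → List (List Bool)} {ρ u v k : α → ℕ} (hM : Poly M) (hρ : Poly ρ)
    (hu : Poly u) (hv : Poly v) (hk : Poly k) :
    Poly (fun a => mL (M a) (ρ a) (u a) (v a) (k a)) :=
  NPC.Poly.comp (f := fun a => (M a, ρ a, u a, v a, k a)) poly_mL0
    (NPC.Poly.pair hM (NPC.Poly.pair hρ (NPC.Poly.pair hu (NPC.Poly.pair hv hk))))

attribute [local fun_prop] poly_mL

theorem poly_pL {M : α → List (List Bool)} {ρ u v k : α → ℕ} (hM : Poly M) (hρ : Poly ρ)
    (hu : Poly u) (hv : Poly v) (hk : Poly k) :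
    Poly (fun a => pL (M a) (ρ a) (u a) (v a) (k a)) := by
  unfold pL parB
  fun_prop

attribute [local fun_prop] poly_pL

theorem poly_dnL {M : α → List (List Bool)} {ρ : α → ℕ} {p : α → List ℕ} {x : α → ℕ} (hM : Poly M)
    (hρ : Poly ρ) (hp : Poly p) (hx : Poly x) :
    Poly (fun a => dnL (M a) (ρ a) (p a) (x a)) := by
  unfold dnL
  fun_prop

theorem poly_cutL {M : α → List (List Bool)} {X : α → List ℕ} (hM : Poly M) (hX : Poly X) :
    Poly (fun a => cutL (M a) (X a)) := by
  unfold cutL
  fun_prop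

attribute [local fun_prop] poly_dnL poly_cutL

theorem poly_test {M : α → List (List Bool)} {ρ k : α → ℕ} {p : α → List ℕ} (hM : Poly M)
    (hρ : Poly ρ) (hp : Poly p) (hk : Poly k) :
    Poly (fun a => test (M a) (ρ a) (p a) (k a)) := by
  unfold test
  fun_prop

theorem poly_treeM {M : α → List (List Bool)} {ρ : α → ℕ} {p : α → List ℕ} (hM : Poly M)
    (hρ : Poly ρ) (hp : Poly p) :
    Poly (fun a => treeM (M a) (ρ a) (p a)) := by
  unfold treeM
  fun_prop

attribute [local fun_prop] poly_test poly_treeM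

theorem poly_cands {M : α → List (List Bool)} (hM : Poly M) : Poly (fun a => cands (M a)) := by
  unfold cands
  have h : Poly (fun a => List.range ((M a).length * (M a).length + 1)) :=
    Poly.range_uPoly (UPoly.add (UPoly.mul (UPoly.length hM) (UPoly.length hM)) (UPoly.const 1))
  fun_prop

attribute [local fun_prop] poly_cands

/-- The algorithm runs in polynomial time. -/
theorem poly_alg : Poly alg := by
  unfold alg
  fun_prop

end Pool.Agent.H225R2.STC
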