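import Pool.Agent.H225R2.STC.Defs

/-!
# Spanning tree congestion on cographs: the exceptional graphs
-/

namespace Pool.Agent.H225R2.STC

open Finset

set_option linter.unusedSectionVars false

variable {V : Type} [Fintype V] [DecidableEq V]

theorem dI_monoE (G : SimpleGraph V) (x : V) {Y Y' : Finset V} (h : ∀ y ∈ Y, G.Adj x y → y ∈ Y') :
    dI G x Y ≤ Y'.card := by
  classical
  unfold dI
  apply card_le_card
  intro y hy
  rw [mem_filter] at hy
  exact h y hy.1 hy.2

theorem le_dI (G : SimpleGraph V) (x : V) {Y Y' : Finset V} (h : ∀ y ∈ Y', y ∈ Y ∧ G.Adj x y) :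
    Y'.card ≤ dI G x Y := by
  classical
  unfold dI
  apply card_le_card
  intro y hy
  rw [mem_filter]
  exact h y hy

theorem exc_lower_two {G : SimpleGraph V} {a b : V} {D : Finset V} (ha : a ∈ D) (hb : b ∉ D)
    (hA : ∀ w, w ≠ a → w ≠ b → G.Adj a w ∧ G.Adj b w) : Fintype.card V ≤ cut G D + 2 := by
  classical
  have h1 : (Dᶜ.erase b).card ≤ dI G a Dᶜ := by
    apply le_dI
    intro y hy
    rw [mem_erase] at hy
    refine ⟨hy.2, (hA y ?_ hy.1).1⟩
    rintro rfl
    exact (mem_compl.1 hy.2) ha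
  have h2 : (D.erase a).card ≤ ∑ x ∈ D.erase a, dI G x Dᶜ := by
    rw [card_eq_sum_ones]
    apply sum_le_sum
    intro x hx
    rw [mem_erase] at hx
    have : ({b} : Finset V).card ≤ dI G x Dᶜ := by
      apply le_dI
      intro y hy
      rw [mem_singleton] at hy
      subst hy
      refine ⟨mem_compl.2 hb, (hA x hx.1 ?_).2.symm⟩
      rintro rfl
      exact hb hx.2
    simpa using this
  have h3 : cut G D = dI G a Dᶜ + ∑ x ∈ D.erase a, dI G x Dᶜ := by
    exact (add_sum_erase D (fun x => dI G x Dᶜ) ha).symm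
  have h4 : (D.erase a).card = D.card - 1 := card_erase_of_mem ha
  have h5 : (Dᶜ.erase b).card = Dᶜ.card - 1 := card_erase_of_mem (mem_compl.2 hb)
  have h6 : D.card + Dᶜ.card = Fintype.card V := card_add_card_compl D
  have h7 : 0 < D.card := card_pos.2 ⟨a, ha⟩
  have h8 : 0 < Dᶜ.card := card_pos.2 ⟨b, mem_compl.2 hb⟩
  omega

theorem exc_lower {G : SimpleGraph V} {u v r : V} {k : ℕ} {S : V → Finset V} (hE : Exc G u v)
    (hP : Parts G k r S) : Fintype.card V ≤ k + 2 := by
  classical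
  obtain ⟨huv, hnadj, hall, -⟩ := hE
  by_cases hru : r = u
  · have h := exc_lower_two (G := G) (a := v) (b := u) (D := S v)
      (hP.mem v (fun h => huv (hru ▸ h.symm))) (hru ▸ hP.root v)
      (fun w h1 h2 => ⟨(hall w h2 h1).2, (hall w h2 h1).1⟩)
    have := hP.cut_le v
    omega
  by_cases hrv : r = v
  · have h := exc_lower_two (G := G) (a := u) (b := v) (D := S u)
      (hP.mem u (fun h => huv (hrv ▸ h))) (hrv ▸ hP.root u) hall
    have := hP.cut_le u
    omega
  by_cases hS : v ∈ S u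
  · have hu : u ∈ S u := hP.mem u (Ne.symm hru)
    have h1 : (S u)ᶜ.card ≤ dI G u (S u)ᶜ := by
      apply le_dI
      intro y hy
      refine ⟨hy, (hall y ?_ ?_).1⟩
      · rintro rfl
        exact (mem_compl.1 hy) hu
      · rintro rfl
        exact (mem_compl.1 hy) hS
    have h2 : (S u)ᶜ.card ≤ dI G v (S u)ᶜ := by
      apply le_dI
      intro y hy
      refine ⟨hy, (hall y ?_ ?_).2⟩
      · rintro rfl
        exact (mem_compl.1 hy) hu
      · rintro rfl
        exact (mem_compl.1 hy) hS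
    have h3 : dI G u (S u)ᶜ + dI G v (S u)ᶜ ≤ cut G (S u) := by
      unfold cut
      rw [← add_sum_erase _ _ hu]
      have hv : v ∈ (S u).erase u := mem_erase.2 ⟨huv.symm, hS⟩
      rw [← add_sum_erase _ _ hv]
      omega
    have h4 : (S u).card + (S u)ᶜ.card = Fintype.card V := card_add_card_compl (S u)
    have h5 := hP.half u
    have h6 := hP.cut_le u
    omega
  · have h := exc_lower_two (G := G) (a := u) (b := v) (D := S u)
      (hP.mem u (Ne.symm hru)) hS hall
    have := hP.cut_le u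
    omega

/-- The chainE lemma. -/
theorem chainE {G : SimpleGraph V} (h4 : P4F G) {r y y' z z' : V} (h1 : G.Adj r y)
    (h2 : G.Adj r y') (hz : ¬ G.Adj z r) (hz' : ¬ G.Adj z' r) (h3 : G.Adj z y')
    (h5 : ¬ G.Adj z y) (h6 : G.Adj z' y) : G.Adj z' y' := by
  by_contra h
  by_cases hzz : G.Adj z z'
  · exact h4 r y' z z' h2 h3.symm hzz (fun h => hz h.symm) (fun h' => h h'.symm)
      (fun h => hz' h.symm)
  by_cases hyy : G.Adj y y'
  · exact h4 z y' y z' h3 hyy.symm h6.symm h5 (fun h' => h h'.symm) hzz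
  · exact h4 z' y r y' h6 h1.symm h2 hz' hyy h

/-- Minimal separated part of the disconnected graph. -/
theorem exists_min_part {G : SimpleGraph V} {H : Finset V} (hH : ¬ ConnOn G H) :
    ∃ P ⊆ H, P.Nonempty ∧ (∀ x ∈ P, ∀ y ∈ H \ P, ¬ G.Adj x y) ∧ P.card ≤ (H \ P).card ∧
      ∀ X ⊆ P, X.Nonempty → X ≠ P → ∃ x ∈ X, ∃ y ∈ P \ X, G.Adj x y := by
  classical
  let good : Finset V → Prop := fun X => X ⊆ H ∧ X.Nonempty ∧ X ≠ H ∧
    ∀ x ∈ X, ∀ y ∈ H \ X, ¬ G.Adj x y
  have hex : ∃ X, good X := by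
    unfold ConnOn at hH
    push Not at hH
    obtain ⟨X, h1, h2, h3, h4⟩ := hH
    exact ⟨X, h1, h2, h3, h4⟩
  obtain ⟨P, hP, hmin⟩ := exists_min_image (univ.filter good) (fun X => X.card)
    (by obtain ⟨X, hX⟩ := hex; exact ⟨X, mem_filter.2 ⟨mem_univ _, hX⟩⟩)
  rw [mem_filter] at hP
  obtain ⟨-, hPH, hPn, hPne, hPa⟩ := hP
  refine ⟨P, hPH, hPn, hPa, ?_, ?_⟩
  · apply hmin
    rw [mem_filter]
    refine ⟨mem_univ _, sdiff_subset, ?_, ?_, ?_⟩
    · rw [sdiff_nonempty]
      intro h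
      exact hPne (Subset.antisymm hPH h)
    · intro h
      obtain ⟨x, hx⟩ := hPn
      have : x ∈ H \ P := by rw [h]; exact hPH hx
      exact (mem_sdiff.1 this).2 hx
    · intro x hx y hy hxy
      have hyP : y ∈ P := by
        by_contra hyP
        rw [mem_sdiff] at hy
        exact hy.2 (mem_sdiff.2 ⟨hy.1, hyP⟩)
      exact hPa y hyP x hx hxy.symm
  · intro X hXP hXn hXne
    by_contra hcon
    push Not at hcon
    have hX : good X := by
      refine ⟨hXP.trans hPH, hXn, ?_, ?_⟩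
      · rintro rfl
        exact hXne (Subset.antisymm hXP hPH)
      · intro x hx y hy hxy
        rw [mem_sdiff] at hy
        by_cases hyP : y ∈ P
        · exact hcon x hx y (mem_sdiff.2 ⟨hyP, hy.2⟩) hxy
        · exact hPa x (hXP hx) y (mem_sdiff.2 ⟨hy.1, hyP⟩) hxy
    have h1 : P.card ≤ X.card := hmin X (mem_filter.2 ⟨mem_univ _, hX⟩)
    exact hXne (eq_of_subset_of_card_le hXP h1)

/-- Nonadjacent vertices of a connected cograph have a common neighbour. -/
theorem common_nbr {G : SimpleGraph V} (h4 : P4F G) {P : Finset V}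
    (hc : ∀ X ⊆ P, X.Nonempty → X ≠ P → ∃ x ∈ X, ∃ y ∈ P \ X, G.Adj x y) {x y : V} (hx : x ∈ P)
    (hy : y ∈ P) (hxy : x ≠ y) (hadj : ¬ G.Adj x y) : ∃ w ∈ P, G.Adj x w ∧ G.Adj w y := by
  classical
  let D : Finset V := P.filter fun y => y = x ∨ G.Adj x y ∨ ∃ w ∈ P, G.Adj x w ∧ G.Adj w y
  by_cases hD : D = P
  · have : y ∈ D := hD ▸ hy
    rw [mem_filter] at this
    rcases this.2 with h | h | h
    · exact absurd h.symm hxy
    · exact absurd h hadj
    · exact h
  · exfalso
    obtain ⟨d, hd, z, hz, hdz⟩ := hc D (filter_subset _ _) ⟨x, mem_filter.2 ⟨hx, Or.inl rfl⟩⟩ hD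
    rw [mem_sdiff] at hz
    have hzD : ¬ (z = x ∨ G.Adj x z ∨ ∃ w ∈ P, G.Adj x w ∧ G.Adj w z) := by
      intro h
      exact hz.2 (mem_filter.2 ⟨hz.1, h⟩)
    push Not at hzD
    rw [mem_filter] at hd
    rcases hd.2 with h | h | ⟨w, hw, hxw, hwd⟩
    · subst h
      exact hzD.2.1 hdz
    · exact hzD.2.2 d hd.1 h hdz
    · by_cases hxd : G.Adj x d
      · exact hzD.2.2 d hd.1 hxd hdz
      · exact h4 x w d z hxw hwd hdz hxd (fun h => hzD.2.2 w hw hxw h) hzD.2.1

theorem exists_inj_of_card_le {A B : Finset V} (h : A.card ≤ B.card) :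
    ∃ φ : V → V, (∀ z ∈ A, φ z ∈ B) ∧ ∀ z ∈ A, ∀ z' ∈ A, φ z = φ z' → z = z' := by
  classical
  have h' : Fintype.card A ≤ Fintype.card B := by simpa using h
  obtain ⟨f⟩ := Function.Embedding.nonempty_of_card_le h'
  refine ⟨fun z => if h : z ∈ A then (f ⟨z, h⟩ : V) else z, ?_, ?_⟩
  · intro z hz
    simp only [hz, dif_pos]
    exact (f ⟨z, hz⟩).2
  · intro z hz z' hz' heq
    simp only [hz, hz', dif_pos] at heq
    have := f.injective (Subtype.ext heq)
    exact congrArg Subtype.val this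

/-- A root of the part with a perfect matching of its non-neighbours. -/
theorem exists_root {G : SimpleGraph V} (h4 : P4F G) {P : Finset V} (hPn : P.Nonempty)
    (hc : ∀ X ⊆ P, X.Nonempty → X ≠ P → ∃ x ∈ X, ∃ y ∈ P \ X, G.Adj x y) :
    ∃ ρ ∈ P, ∃ φ : V → V,
      (∀ z ∈ P, z ≠ ρ → ¬ G.Adj ρ z → φ z ∈ P ∧ G.Adj ρ (φ z) ∧ G.Adj z (φ z)) ∧
      (∀ z ∈ P, ∀ z' ∈ P, z ≠ ρ → ¬ G.Adj ρ z → z' ≠ ρ → ¬ G.Adj ρ z' → φ z = φ z' → z = z') := by
  classical
  obtain ⟨r, hr⟩ := hPn
  let Z : Finset V := P.filter fun z => z ≠ r ∧ ¬ G.Adj r z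
  by_cases hZ : Z = ∅
  · refine ⟨r, hr, id, ?_, ?_⟩
    · intro z hz hzr hadj
      exfalso
      have : z ∈ Z := mem_filter.2 ⟨hz, hzr, hadj⟩
      rw [hZ] at this
      exact absurd this (notMem_empty z)
    · intro z hz z' hz' _ _ _ _ h
      exact h
  let N : V → Finset V := fun z => P.filter fun y => G.Adj r y ∧ G.Adj z y
  obtain ⟨z₀, hz₀, hmin⟩ := exists_min_image Z (fun z => (N z).card)
    (nonempty_iff_ne_empty.2 hZ)
  have hz₀' := (mem_filter.1 hz₀).2
  have hz₀P := (mem_filter.1 hz₀).1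
  let B : Finset V := P.filter fun y => G.Adj r y ∧ ∀ z ∈ Z, G.Adj z y
  have hBn : B.Nonempty := by
    obtain ⟨y, hy, hry, hyz⟩ := common_nbr h4 hc hr hz₀P (Ne.symm hz₀'.1) hz₀'.2
    refine ⟨y, mem_filter.2 ⟨hy, hry, ?_⟩⟩
    intro z hz
    by_contra hzy
    have hz' := (mem_filter.1 hz).2
    have hss : N z ⊂ N z₀ := by
      rw [ssubset_iff_of_subset]
      · refine ⟨y, mem_filter.2 ⟨hy, hry, hyz.symm⟩, ?_⟩
        intro h
        exact hzy (mem_filter.1 h).2.2
      · intro y' hy'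
        obtain ⟨h1, h2, h3⟩ := mem_filter.1 hy'
        refine mem_filter.2 ⟨h1, h2, ?_⟩
        exact chainE h4 hry h2 (fun h => hz'.2 h.symm) (fun h => hz₀'.2 h.symm) h3 hzy hyz.symm
    have h1 := card_lt_card hss
    have h2 := hmin z hz
    omega
  have hBc : ∀ b ∈ B, ∀ x ∈ P, x ∉ B → G.Adj b x := by
    intro b hb x hx hxB
    obtain ⟨hbP, hrb, hbZ⟩ := mem_filter.1 hb
    by_cases hxr : x = r
    · subst hxr
      exact hrb.symm
    by_cases hrx : G.Adj r x
    · by_contra hbx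
      have : ∃ z ∈ Z, ¬ G.Adj z x := by
        by_contra hcon
        push Not at hcon
        exact hxB (mem_filter.2 ⟨hx, hrx, hcon⟩)
      obtain ⟨z, hz, hzx⟩ := this
      have hz' := (mem_filter.1 hz).2
      exact h4 z b r x (hbZ z hz) hrb.symm hrx (fun h => hz'.2 h.symm) hbx hzx
    · exact (hbZ x (mem_filter.2 ⟨hx, hxr, hrx⟩)).symm
  rcases le_or_gt Z.card B.card with hle | hlt
  · obtain ⟨φ, hφ1, hφ2⟩ := exists_inj_of_card_le hle
    refine ⟨r, hr, φ, ?_, ?_⟩
    · intro z hz hzr hadj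
      have hzZ : z ∈ Z := mem_filter.2 ⟨hz, hzr, hadj⟩
      obtain ⟨h1, h2, h3⟩ := mem_filter.1 (hφ1 z hzZ)
      exact ⟨h1, h2, h3 z hzZ⟩
    · intro z hz z' hz' h1 h2 h3 h4 h
      exact hφ2 z (mem_filter.2 ⟨hz, h1, h2⟩) z' (mem_filter.2 ⟨hz', h3, h4⟩) h
  · obtain ⟨ρ, hρ⟩ := hBn
    obtain ⟨φ, hφ1, hφ2⟩ := exists_inj_of_card_le hlt.le
    have hnb : ∀ z ∈ P, ¬ G.Adj ρ z → z ∈ B := by
      intro z hz hadj
      by_contra hzB
      exact hadj (hBc ρ hρ z hz hzB)
    refine ⟨ρ, (mem_filter.1 hρ).1, φ, ?_, ?_⟩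
    · intro z hz hzr hadj
      have hzB := hnb z hz hadj
      have h1 := hφ1 z hzB
      obtain ⟨h2, h3, h5⟩ := mem_filter.1 h1
      have h6 : φ z ∉ B := by
        intro h
        exact h5 (mem_filter.1 h).2.1
      exact ⟨h2, hBc ρ hρ _ h2 h6, hBc z hzB _ h2 h6⟩
    · intro z hz z' hz' h1 h2 h3 h5 h
      exact hφ2 z (hnb z hz h2) z' (hnb z' hz' h5) h

theorem exc_tree {G : SimpleGraph V} (h4 : P4F G) {u v : V} (hE : Exc G u v) :
    ∃ ρ φ, ∀ k, Fintype.card V ≤ k + 2 → GSpider G k ρ u v φ := by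
  classical
  obtain ⟨huv, hnadj, hall, hH⟩ := hE
  obtain ⟨P, hPH, hPn, hPa, hPc, hc⟩ := exists_min_part hH
  obtain ⟨ρ, hρ, φ, hφ1, hφ2⟩ := exists_root h4 hPn hc
  set Q : Finset V := (univ \ {u, v}) \ P with hQ
  have hmemH : ∀ x, x ∈ (univ \ {u, v} : Finset V) ↔ x ≠ u ∧ x ≠ v := by
    intro x
    simp
  have hPuv : ∀ x ∈ P, x ≠ u ∧ x ≠ v := fun x hx => (hmemH x).1 (hPH hx)
  have hQm : ∀ x, x ∈ Q ↔ x ≠ u ∧ x ≠ v ∧ x ∉ P := by
    intro x
    rw [hQ, mem_sdiff, hmemH]
    tauto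
  have hQn : Q.Nonempty := by
    rw [← card_pos]
    have := card_pos.2 hPn
    omega
  have hcard : P.card + Q.card + 2 = Fintype.card V := by
    have h1 : Q.card = (univ \ {u, v} : Finset V).card - P.card := card_sdiff_of_subset hPH
    have h2 : (univ \ {u, v} : Finset V).card = Fintype.card V - 2 := by
      rw [card_sdiff_of_subset (subset_univ _), card_pair huv, card_univ]
    have h3 : P.card ≤ (univ \ {u, v} : Finset V).card := card_le_card hPH
    have h5 : 2 ≤ Fintype.card V := by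
      rw [← card_univ, ← card_pair huv]
      exact card_le_card (subset_univ _)
    omega
  have hρu : G.Adj ρ u := ((hall ρ (hPuv ρ hρ).1 (hPuv ρ hρ).2).1).symm
  have hρv : G.Adj ρ v := ((hall ρ (hPuv ρ hρ).1 (hPuv ρ hρ).2).2).symm
  -- classification of non-neighbours of the root
  have hclass : ∀ z, ¬ G.Adj ρ z → z ∈ P ∨ z ∈ Q := by
    intro z hz
    by_cases hzP : z ∈ P
    · exact Or.inl hzP
    · refine Or.inr ((hQm z).2 ⟨?_, ?_, hzP⟩)
      · rintro rfl
        exact hz hρu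
      · rintro rfl
        exact hz hρv
  have hnear : ∀ z, ¬ G.Adj ρ z → Near G ρ u v z → z ∈ P := by
    intro z hz hn
    obtain ⟨y, h1, h2, h3, h5⟩ := hn
    rcases hclass z hz with h | h
    · exact h
    · exfalso
      have hyP : y ∈ P := by
        by_contra hyP
        exact hPa ρ hρ y ((hQm y).2 ⟨h3, h5, hyP⟩) h1
      exact hPa y hyP z h h2.symm
  have hdeg : ∀ x, dg G x ≤ Fintype.card V - 2 := by
    intro x
    have key : ∀ x y, x ≠ y → ¬ G.Adj x y → dg G x ≤ Fintype.card V - 2 := by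
      intro x y hxy hadj
      have h1 : dg G x ≤ (univ \ {x, y} : Finset V).card := by
        apply dI_monoE
        intro w _ hw
        rw [mem_sdiff, mem_insert, mem_singleton]
        refine ⟨mem_univ _, ?_⟩
        rintro (rfl | rfl)
        · exact G.loopless.irrefl _ hw
        · exact hadj hw
      rwa [card_sdiff_of_subset (subset_univ _), card_pair hxy, card_univ] at h1
    by_cases hxu : x = u
    · subst hxu
      exact key x v huv hnadj
    by_cases hxv : x = v
    · subst hxv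
      exact key x u huv.symm (fun h => hnadj h.symm)
    by_cases hxP : x ∈ P
    · obtain ⟨y, hy⟩ := hQn
      refine key x y ?_ (hPa x hxP y hy)
      rintro rfl
      exact ((hQm x).1 hy).2.2 hxP
    · obtain ⟨y, hy⟩ := hPn
      refine key x y ?_ (fun h => hPa y hy x ((hQm x).2 ⟨hxu, hxv, hxP⟩) h.symm)
      rintro rfl
      exact hxP hy
  have hdegP : ∀ x ∈ P, dg G x ≤ P.card + 1 := by
    intro x hx
    have h1 : dg G x ≤ ((P.erase x) ∪ {u, v} : Finset V).card := by
      apply dI_monoE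
      intro w _ hw
      rw [mem_union, mem_insert, mem_singleton, mem_erase]
      by_contra hcon
      push Not at hcon
      obtain ⟨h1, h2, h3⟩ := hcon
      have hwx : w ≠ x := by
        rintro rfl
        exact G.loopless.irrefl _ hw
      exact hPa x hx w ((hQm w).2 ⟨h2, h3, h1 hwx⟩) hw
    have h2 : ((P.erase x) ∪ {u, v} : Finset V).card ≤ (P.erase x).card + ({u, v} : Finset V).card :=
      card_union_le _ _
    rw [card_erase_of_mem hx, card_pair huv] at h2
    have h3 := card_pos.2 hPn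
    omega
  refine ⟨ρ, φ, ?_⟩
  intro k hk
  refine ⟨?_, ?_, ?_, ?_, ?_, ?_⟩
  · intro x _
    have := hdeg x
    omega
  · intro z hz hadj hn
    have hzP := hnear z hadj hn
    obtain ⟨h1, h2, h3⟩ := hφ1 z hzP hz hadj
    exact ⟨h2, h3, (hPuv _ h1).1, (hPuv _ h1).2⟩
  · intro z hz hadj hn
    have hzP := hnear z hadj hn
    obtain ⟨h1, -, -⟩ := hφ1 z hzP hz hadj
    have h2 := hdegP z hzP
    have h3 := hdegP _ h1
    omega
  · intro z z' hz hadj hn hz' hadj' hn' h
    exact hφ2 z (hnear z hadj hn) z' (hnear z' hadj' hn') hz hadj hz' hadj' h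
  · intro z hz hadj hn
    refine ⟨hρu, ?_⟩
    have hzuv : z ≠ u ∧ z ≠ v := by
      constructor
      · rintro rfl
        exact hadj hρu
      · rintro rfl
        exact hadj hρv
    exact (hall z hzuv.1 hzuv.2).1.symm
  · intro D _ hD
    have hDm : D = insert u Q := by
      ext x
      rw [hD, mem_insert]
      constructor
      · rintro (h | ⟨h1, h2, h3⟩)
        · exact Or.inl h
        · right
          rcases hclass x h2 with h | h
          · exfalso
            apply h3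
            obtain ⟨w, hw, h5, h6⟩ := common_nbr h4 hc hρ h (Ne.symm h1) h2
            exact ⟨w, h5, h6.symm, (hPuv w hw).1, (hPuv w hw).2⟩
          · exact h
      · rintro (h | h)
        · exact Or.inl h
        · right
          have hxP := ((hQm x).1 h).2.2
          refine ⟨?_, ?_, ?_⟩
          · rintro rfl
            exact hxP hρ
          · exact hPa ρ hρ x h
          · intro hn
            exact hxP (hnear x (hPa ρ hρ x h) hn)
    have huQ : u ∉ Q := fun h => ((hQm u).1 h).1 rfl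
    have hcompl : ∀ y, y ∈ (insert u Q)ᶜ → y = v ∨ y ∈ P := by
      intro y hy
      rw [mem_compl, mem_insert] at hy
      push Not at hy
      by_contra hcon
      push Not at hcon
      exact hy.2 ((hQm y).2 ⟨hy.1, hcon.1, hcon.2⟩)
    rw [hDm]
    unfold cut
    rw [sum_insert huQ]
    have h1 : dI G u (insert u Q)ᶜ ≤ P.card := by
      apply dI_monoE
      intro y hy hadj
      rcases hcompl y hy with rfl | h
      · exact absurd hadj hnadj
      · exact h
    have h2 : ∑ x ∈ Q, dI G x (insert u Q)ᶜ ≤ Q.card := by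
      rw [card_eq_sum_ones]
      apply sum_le_sum
      intro x hx
      have : dI G x (insert u Q)ᶜ ≤ ({v} : Finset V).card := by
        apply dI_monoE
        intro y hy hadj
        rcases hcompl y hy with rfl | h
        · exact mem_singleton_self _
        · exact absurd hadj.symm (hPa y h x hx)
      simpa using this
    omega

end Pool.Agent.H225R2.STC
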