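import Pool.Agent.H225R2.STC.Defs

/-!
# Spanning tree congestion on cographs: trees of parent functions
-/

namespace Pool.Agent.H225R2.STC

open Finset

set_option linter.unusedSectionVars false

variable {V : Type} [Fintype V] [DecidableEq V]

theorem parGraph_le {G : SimpleGraph V} {ρ : V} {p : V → V} (h : IsPar G ρ p) :
    parGraph ρ p ≤ G := by
  intro x y hxy
  rcases hxy.2 with ⟨h1, h2⟩ | ⟨h1, h2⟩
  · exact h2 ▸ h.adj x h1
  · exact (h2 ▸ h.adj y h1).symm

theorem parGraph_adj {G : SimpleGraph V} {ρ : V} {p : V → V} (h : IsPar G ρ p) {x : V}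
    (hx : x ≠ ρ) : (parGraph ρ p).Adj x (p x) :=
  ⟨(h.adj x hx).ne, Or.inl ⟨hx, rfl⟩⟩

theorem parGraph_edge {ρ : V} {p : V → V} {e : Sym2 V} (he : e ∈ (parGraph ρ p).edgeSet) :
    ∃ x, x ≠ ρ ∧ e = s(x, p x) := by
  induction e with
  | _ a b =>
    rw [SimpleGraph.mem_edgeSet] at he
    rcases he.2 with ⟨h1, h2⟩ | ⟨h1, h2⟩
    · exact ⟨a, h1, by rw [h2]⟩
    · exact ⟨b, h1, by rw [h2, Sym2.eq_swap]⟩

theorem parGraph_isTree {G : SimpleGraph V} {ρ : V} {p : V → V} (h : IsPar G ρ p) :
    (parGraph ρ p).IsTree := by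
  classical
  have hconn : (parGraph ρ p).Connected := by
    rw [SimpleGraph.connected_iff_exists_forall_reachable]
    refine ⟨ρ, ?_⟩
    intro x
    apply SimpleGraph.Reachable.symm
    by_cases hx : x = ρ
    · rw [hx]
    have h1 := (parGraph_adj h hx).reachable
    by_cases hpx : p x = ρ
    · rw [hpx] at h1
      exact h1
    have h2 := (parGraph_adj h hpx).reachable
    rcases h.depth x hx with h3 | h3
    · exact absurd h3 hpx
    · rw [h3] at h2
      exact h1.trans h2
  rw [SimpleGraph.isTree_iff_connected_and_card]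
  refine ⟨hconn, ?_⟩
  have h1 := hconn.card_vert_le_card_edgeSet_add_one
  have h2 : Nat.card (parGraph ρ p).edgeSet ≤ (univ.erase ρ).card := by
    rw [Nat.card_coe_set_eq]
    have : (parGraph ρ p).edgeSet ⊆ ↑((univ.erase ρ).image fun x => s(x, p x)) := by
      intro e he
      obtain ⟨x, hx, rfl⟩ := parGraph_edge he
      rw [mem_coe, mem_image]
      exact ⟨x, mem_erase.2 ⟨hx, mem_univ _⟩, rfl⟩
    refine (Set.ncard_le_ncard this (Finset.finite_toSet _)).trans ?_
    rw [Set.ncard_coe_finset]
    exact card_image_le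
  have h3 : (univ.erase ρ).card = Fintype.card V - 1 := by
    rw [card_erase_of_mem (mem_univ _), card_univ]
  have h4 : 0 < Fintype.card V := Fintype.card_pos_iff.2 ⟨ρ⟩
  have h5 : Nat.card V = Fintype.card V := Nat.card_eq_fintype_card
  omega

theorem cut_eq_card (G : SimpleGraph V) (D : Finset V) :
    cut G D = (by classical exact ((D ×ˢ Dᶜ).filter fun q => G.Adj q.1 q.2).card) := by
  classical
  unfold cut dI
  rw [card_filter, sum_product]
  apply sum_congr rfl
  intro x _
  rw [card_filter]

theorem cng_parGraph_le {G : SimpleGraph V} {ρ : V} {p : V → V} (h : IsPar G ρ p) (k : ℕ)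
    (hk : ∀ x, x ≠ ρ → cut G (dn ρ p x) ≤ k) :
    ∀ e ∈ (parGraph ρ p).edgeSet, cng G (parGraph ρ p) e ≤ k := by
  classical
  intro e he
  obtain ⟨x, hx, rfl⟩ := parGraph_edge he
  refine le_trans ?_ (hk x hx)
  have hmem : ∀ y, y ∈ dn ρ p x ↔ y = x ∨ (y ≠ ρ ∧ p y = x) := by
    intro y
    simp [dn]
  set T := (parGraph ρ p).deleteEdges {s(x, p x)} with hT
  have hadj : ∀ y, y ≠ ρ → s(y, p y) ≠ s(x, p x) → T.Adj y (p y) := by
    intro y hy hne
    rw [hT, SimpleGraph.deleteEdges_adj]
    exact ⟨parGraph_adj h hy, hne⟩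
  have hin : ∀ y ∈ dn ρ p x, T.Reachable y x := by
    intro y hy
    rw [hmem] at hy
    rcases hy with rfl | ⟨h1, h2⟩
    · exact SimpleGraph.Reachable.refl _
    · have := hadj y h1 (by
        intro heq
        rw [h2, Sym2.eq_iff] at heq
        rcases heq with ⟨h3, -⟩ | ⟨h3, -⟩
        · have := (h.adj y h1).ne
          exact this (h2.symm ▸ h3)
        · rcases h.depth x hx with h4 | h4
          · exact h1 (h3.trans h4)
          · rw [← h3, h2] at h4
            exact hx h4)
      rw [h2] at this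
      exact this.reachable
  have hout : ∀ y, y ∉ dn ρ p x → T.Reachable y ρ := by
    intro y hy
    rw [hmem] at hy
    push Not at hy
    obtain ⟨hyx, hy2⟩ := hy
    by_cases hyρ : y = ρ
    · rw [hyρ]
    have hpy := hy2 hyρ
    have h1 := (hadj y hyρ (by
      intro heq
      rw [Sym2.eq_iff] at heq
      rcases heq with ⟨h3, -⟩ | ⟨-, h3⟩
      · exact hyx h3
      · exact hpy h3)).reachable
    by_cases hpyρ : p y = ρ
    · rw [hpyρ] at h1
      exact h1
    rcases h.depth y hyρ with h3 | h3
    · exact absurd h3 hpyρ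
    · have h2 := (hadj (p y) hpyρ (by
        intro heq
        rw [h3, Sym2.eq_iff] at heq
        rcases heq with ⟨h5, -⟩ | ⟨-, h5⟩
        · exact hpy h5
        · exact hx h5.symm)).reachable
      rw [h3] at h2
      exact h1.trans h2
  rw [cut_eq_card]
  unfold cng
  have hsub : {f ∈ G.edgeSet | ∃ y z, f = s(y, z) ∧ ¬ T.Reachable y z} ⊆
      ↑(((dn ρ p x ×ˢ (dn ρ p x)ᶜ).filter fun q => G.Adj q.1 q.2).image fun q => s(q.1, q.2)) := by
    rintro f ⟨hf, y, z, rfl, hyz⟩
    rw [SimpleGraph.mem_edgeSet] at hf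
    rw [mem_coe, mem_image]
    by_cases hy : y ∈ dn ρ p x <;> by_cases hz : z ∈ dn ρ p x
    · exact absurd ((hin y hy).trans (hin z hz).symm) hyz
    · exact ⟨(y, z), mem_filter.2 ⟨mem_product.2 ⟨hy, mem_compl.2 hz⟩, hf⟩, rfl⟩
    · exact ⟨(z, y), mem_filter.2 ⟨mem_product.2 ⟨hz, mem_compl.2 hy⟩, hf.symm⟩, Sym2.eq_swap⟩
    · exact absurd ((hout y hy).trans (hout z hz).symm) hyz
  refine (Set.ncard_le_ncard hsub (Finset.finite_toSet _)).trans ?_
  rw [Set.ncard_coe_finset]
  exact card_image_le

theorem dI_le_dg (G : SimpleGraph V) (x : V) (Y : Finset V) : dI G x Y ≤ dg G x := by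
  classical
  unfold dg dI
  exact card_le_card (filter_subset_filter _ (subset_univ _))

theorem dI_lt_dg (G : SimpleGraph V) {x y : V} {Y : Finset V} (h : G.Adj x y) (hy : y ∉ Y) :
    dI G x Y + 1 ≤ dg G x := by
  classical
  unfold dg dI
  apply card_lt_card
  rw [ssubset_iff_of_subset (filter_subset_filter _ (subset_univ _))]
  exact ⟨y, mem_filter.2 ⟨mem_univ _, h⟩, fun h' => hy (mem_filter.1 h').1⟩

/-- The parent function of a generalised spider. -/
theorem gspider_par {G : SimpleGraph V} {k : ℕ} {ρ u v : V} {φ p : V → V}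
    (h : GSpider G k ρ u v φ) (hρ : p ρ = ρ) (h1 : ∀ x, G.Adj ρ x → p x = ρ)
    (h2 : ∀ x, x ≠ ρ → ¬ G.Adj ρ x → Near G ρ u v x → p x = φ x)
    (h3 : ∀ x, x ≠ ρ → ¬ G.Adj ρ x → ¬ Near G ρ u v x → p x = u) :
    IsPar G ρ p ∧ ∀ x, x ≠ ρ → cut G (dn ρ p x) ≤ k := by
  classical
  refine ⟨⟨?_, ?_, hρ⟩, ?_⟩
  · intro x hx
    by_cases ha : G.Adj ρ x
    · rw [h1 x ha]; exact ha.symm
    by_cases hn : Near G ρ u v x
    · rw [h2 x hx ha hn]; exact (h.adj x hx ha hn).2.1
    · rw [h3 x hx ha hn]; exact (h.far x hx ha hn).2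
  · intro x hx
    by_cases ha : G.Adj ρ x
    · exact Or.inl (h1 x ha)
    by_cases hn : Near G ρ u v x
    · right
      rw [h2 x hx ha hn]; exact h1 _ (h.adj x hx ha hn).1
    · right
      rw [h3 x hx ha hn]; exact h1 _ (h.far x hx ha hn).1
  · intro x hx
    have hmem : ∀ y, y ∈ dn ρ p x ↔ y = x ∨ (y ≠ ρ ∧ p y = x) := by
      intro y
      simp [dn]
    have hsingle : (∀ w, w ≠ ρ → p w ≠ x) → cut G (dn ρ p x) ≤ k := by
      intro hw
      have : dn ρ p x = {x} := by
        ext y
        rw [hmem, mem_singleton]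
        constructor
        · rintro (h | ⟨h5, h6⟩)
          · exact h
          · exact absurd h6 (hw y h5)
        · exact Or.inl
      rw [this]
      unfold cut
      rw [sum_singleton]
      exact (dI_le_dg G x _).trans (h.deg x hx)
    by_cases ha : G.Adj ρ x
    · by_cases hxu : x = u
      · subst hxu
        apply h.farcut _ ha
        intro w
        rw [hmem]
        apply or_congr_right
        constructor
        · rintro ⟨h5, h6⟩
          refine ⟨h5, ?_, ?_⟩
          · intro h7
            rw [h1 w h7] at h6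
            exact hx h6.symm
          · intro h7
            by_cases h8 : G.Adj ρ w
            · rw [h1 w h8] at h6
              exact hx h6.symm
            · rw [h2 w h5 h8 h7] at h6
              exact (h.adj w h5 h8 h7).2.2.1 h6
        · rintro ⟨h5, h6, h7⟩
          exact ⟨h5, h3 w h5 h6 h7⟩
      · have hchild : ∀ w, w ≠ ρ → p w = x → ¬ G.Adj ρ w ∧ Near G ρ u v w ∧ φ w = x := by
          intro w hw hpw
          have h5 : ¬ G.Adj ρ w := by
            intro h7
            rw [h1 w h7] at hpw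
            exact hx hpw.symm
          have h6 : Near G ρ u v w := by
            by_contra h7
            rw [h3 w hw h5 h7] at hpw
            exact hxu hpw.symm
          exact ⟨h5, h6, by rw [← h2 w hw h5 h6, hpw]⟩
        by_cases hex : ∃ z, z ≠ ρ ∧ p z = x
        · obtain ⟨z, hz, hpz⟩ := hex
          obtain ⟨h5, h6, h7⟩ := hchild z hz hpz
          have hzx : G.Adj z x := h7 ▸ (h.adj z hz h5 h6).2.1
          have hD : dn ρ p x = {x, z} := by
            ext y
            rw [hmem, mem_insert, mem_singleton]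
            apply or_congr_right
            constructor
            · rintro ⟨h8, h9⟩
              obtain ⟨h10, h11, h12⟩ := hchild y h8 h9
              exact h.inj y z h8 h10 h11 hz h5 h6 (h12.trans h7.symm)
            · rintro rfl
              exact ⟨hz, hpz⟩
          rw [hD]
          unfold cut
          rw [sum_pair hzx.ne.symm]
          have h8 := dI_lt_dg G hzx.symm (Y := ({x, z} : Finset V)ᶜ) (by simp)
          have h9 := dI_lt_dg G hzx (Y := ({x, z} : Finset V)ᶜ) (by simp)
          have h10 := h.cost z hz h5 h6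
          rw [h7] at h10
          omega
        · push Not at hex
          exact hsingle hex
    · apply hsingle
      intro w hw hpw
      apply ha
      by_cases h5 : G.Adj ρ w
      · rw [h1 w h5] at hpw
        exact absurd hpw.symm hx
      by_cases h6 : Near G ρ u v w
      · rw [h2 w hw h5 h6] at hpw
        exact hpw ▸ (h.adj w hw h5 h6).1
      · rw [h3 w hw h5 h6] at hpw
        exact hpw ▸ (h.far w hw h5 h6).1

end Pool.Agent.H225R2.STC
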