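import Pool.Agent.H225R2.STC.Greedy
import Pool.Agent.H225R2.STC.PTree
import Pool.Agent.H225R2.STC.ExcCase

/-!
# Spanning tree congestion on cographs: correctness of the algorithm
-/

namespace Pool.Agent.H225R2.STC

open Finset

open scoped Classical in
/-- The adjacency matrix of a graph. -/
noncomputable def matOf {n : ℕ} (G : SimpleGraph (Fin n)) : List (List Bool) :=
  List.ofFn fun i => List.ofFn fun j => decide (G.Adj i j)

/-! ### Lists of numbers below `n` and `Fin n` -/

theorem sum_filter_range (n : ℕ) (q : ℕ → Bool) (f : ℕ → ℕ) :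
    (((List.range n).filter q).map f).sum =
      ∑ i ∈ univ.filter (fun i : Fin n => q i = true), f i := by
  rw [sum_filter, Fin.sum_univ_eq_sum_range (fun i => if q i = true then f i else 0)]
  induction n with
  | zero => simp
  | succ n ih =>
    rw [List.range_succ, List.filter_append, List.map_append, List.sum_append, ih,
      Finset.sum_range_succ]
    congr 1
    by_cases h : q n = true
    · simp [h]
    · simp [h]

theorem length_filter_range (n : ℕ) (q : ℕ → Bool) :
    ((List.range n).filter q).length = (univ.filter fun i : Fin n => q i = true).card := by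
  have h := sum_filter_range n q (fun _ => 1)
  rw [card_eq_sum_ones, ← h]
  simp

variable {n : ℕ} {G : SimpleGraph (Fin n)}

theorem matOf_length : (matOf G).length = n := by simp [matOf]

theorem vs_matOf : vs (matOf G) = List.range n := by rw [vs, matOf_length]

theorem ad_matOf (i j : Fin n) : ad (matOf G) i j = true ↔ G.Adj i j := by
  simp [ad, matOf]

theorem dgL_matOf (i : Fin n) : dgL (matOf G) i = dg G i := by
  classical
  unfold dgL dg dI
  rw [vs_matOf, length_filter_range]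
  congr 1
  ext j
  simp only [mem_filter, ad_matOf]

theorem comB_matOf (ρ u v z y : Fin n) : comB (matOf G) ρ u v z y = true ↔
    G.Adj ρ y ∧ G.Adj z y ∧ y ≠ u ∧ y ≠ v := by
  unfold comB
  simp only [Bool.and_eq_true, ad_matOf, Bool.not_eq_true', decide_eq_false_iff_not, Fin.val_inj,
    and_assoc, Ne]

theorem comN_matOf (ρ u v z : Fin n) : comN (matOf G) ρ u v z =
    (univ.filter fun y : Fin n => comB (matOf G) ρ u v z y = true).card := by
  unfold comN
  rw [vs_matOf, length_filter_range]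

theorem comN_eq_zero (ρ u v z : Fin n) : comN (matOf G) ρ u v z = 0 ↔ ¬ Near G ρ u v z := by
  rw [comN_matOf, card_eq_zero, filter_eq_empty_iff]
  unfold Near
  push Not
  constructor
  · intro h y h1 h2 h3
    by_contra h4
    exact h (mem_univ y) ((comB_matOf ρ u v z y).2 ⟨h1, h2, h3, h4⟩)
  · intro h y _ h1
    obtain ⟨h2, h3, h4, h5⟩ := (comB_matOf ρ u v z y).1 h1
    exact h5 (h y h2 h3 h4)

theorem comN_le (ρ u v z : ℕ) : comN (matOf G) ρ u v z ≤ n := by
  unfold comN
  rw [vs_matOf]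
  exact (List.length_filter_le _ _).trans (by simp)

theorem mem_zL (ρ u v z : ℕ) : z ∈ zL (matOf G) ρ u v ↔
    z < n ∧ z ≠ ρ ∧ ad (matOf G) ρ z = false ∧ comN (matOf G) ρ u v z ≠ 0 := by
  unfold zL
  rw [List.mem_flatMap, vs_matOf, matOf_length]
  simp only [List.mem_filter, List.mem_range, Bool.and_eq_true, Bool.not_eq_true',
    decide_eq_false_iff_not, decide_eq_true_iff]
  constructor
  · rintro ⟨c, hc, h1, ⟨h2, h3⟩, h4⟩
    exact ⟨h1, h2, h3, by omega⟩
  · rintro ⟨h1, h2, h3, h4⟩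
    have := comN_le (G := G) ρ u v z
    exact ⟨comN (matOf G) ρ u v z - 1, by omega, h1, ⟨h2, h3⟩, by omega⟩

theorem zL_sorted (ρ u v : ℕ) : (zL (matOf G) ρ u v).Pairwise fun z z' =>
    z ≠ z' ∧ comN (matOf G) ρ u v z ≤ comN (matOf G) ρ u v z' := by
  unfold zL
  rw [List.pairwise_flatMap]
  constructor
  · intro c _
    have h1 : (vs (matOf G)).Pairwise (fun a b => a ≠ b) := by
      rw [vs_matOf]
      exact List.nodup_range
    have h2 := h1.filter (fun z => !(decide (z = ρ)) && !(ad (matOf G) ρ z) &&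
      decide (comN (matOf G) ρ u v z = c + 1))
    refine List.Pairwise.imp_of_mem ?_ h2
    intro a b ha hb hab
    rw [List.mem_filter, Bool.and_eq_true, decide_eq_true_iff] at ha hb
    exact ⟨hab, by omega⟩
  · refine List.Pairwise.imp ?_ List.pairwise_lt_range
    intro a b hab x hx y hy
    rw [List.mem_filter, Bool.and_eq_true, decide_eq_true_iff] at hx hy
    constructor
    · rintro rfl
      omega
    · omega

/-! ### The test -/

theorem greedy_mem {α : Type} [DecidableEq α] (N L : List α) (ok : α → α → Bool) (wt : α → ℕ) :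
    ∀ q ∈ greedy N L ok wt, q.2 ∈ N := by
  unfold greedy
  suffices h : ∀ (s : List (α × α)), (∀ q ∈ s, q.2 ∈ N) →
      ∀ q ∈ L.foldl (gstep N ok wt) s, q.2 ∈ N from h [] (by simp)
  induction L with
  | nil => intro s hs; simpa using hs
  | cons z L ih =>
    intro s hs
    rw [List.foldl_cons]
    apply ih
    unfold gstep
    split
    · rename_i y hy
      intro q hq
      rw [List.mem_cons] at hq
      rcases hq with rfl | hq
      · exact (List.mem_filter.1 (List.mem_of_head? hy)).1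
      · exact hs q hq
    · exact hs

theorem parB_lt {ρ u v k : ℕ} (hρ : ρ < n) (hu : u < n) (x : ℕ) :
    parB (matOf G) ρ u v (mL (matOf G) ρ u v k) x < n := by
  unfold parB
  split
  · exact hρ
  split
  · exact hρ
  split
  · exact hu
  cases h : ((mL (matOf G) ρ u v k).filter fun q => decide (q.1 = x)).head? with
  | none => exact hρ
  | some q =>
    have h1 := (List.mem_filter.1 (List.mem_of_head? h)).1
    have h2 := greedy_mem _ _ _ _ q h1
    rw [vs_matOf, List.mem_range] at h2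
    exact h2

theorem pL_getD {ρ u v k x : ℕ} (hx : x < n) : (pL (matOf G) ρ u v k).getD x 0 =
    parB (matOf G) ρ u v (mL (matOf G) ρ u v k) x := by
  unfold pL
  rw [vs_matOf, List.getD_eq_getElem _ _ (by simpa using hx)]
  simp

/-- The parent function computed for `(ρ, u, v)`. -/
noncomputable def pF (G : SimpleGraph (Fin n)) (ρ u : Fin n) (v k : ℕ) (x : Fin n) : Fin n :=
  ⟨parB (matOf G) ρ u v (mL (matOf G) ρ u v k) x, parB_lt ρ.2 u.2 x⟩

theorem pL_getD' (ρ u : Fin n) (v k : ℕ) (x : Fin n) :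
    (pL (matOf G) ρ u v k).getD x 0 = (pF G ρ u v k x : ℕ) := pL_getD x.2

theorem cutL_eq (ρ u : Fin n) (v k : ℕ) (x : Fin n) :
    cutL (matOf G) (dnL (matOf G) ρ (pL (matOf G) ρ u v k) x) =
      cut G (dn ρ (pF G ρ u v k) x) := by
  classical
  have hmem : ∀ w : Fin n, (w : ℕ) ∈ dnL (matOf G) ρ (pL (matOf G) ρ u v k) x ↔
      w ∈ dn ρ (pF G ρ u v k) x := by
    intro w
    unfold dnL dn
    rw [vs_matOf, List.mem_filter, List.mem_range, mem_filter]
    simp only [w.2, mem_univ, true_and, Bool.or_eq_true, Bool.and_eq_true, Bool.not_eq_true',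
      decide_eq_false_iff_not, decide_eq_true_iff, pL_getD', Fin.val_inj, Ne]
  unfold cutL
  have h1 : ∀ w : Fin n, ((vs (matOf G)).filter fun y =>
      !(decide (y ∈ dnL (matOf G) ρ (pL (matOf G) ρ u v k) x)) && ad (matOf G) w y).length =
      dI G w (dn ρ (pF G ρ u v k) x)ᶜ := by
    intro w
    rw [vs_matOf, length_filter_range]
    unfold dI
    congr 1
    ext y
    simp only [mem_filter, mem_univ, true_and, Bool.and_eq_true, Bool.not_eq_true',
      decide_eq_false_iff_not, hmem, ad_matOf, mem_compl]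
  unfold cut
  conv_lhs => rw [dnL]
  rw [vs_matOf, sum_filter_range]
  have h2 : (univ.filter fun w : Fin n => (decide ((w : ℕ) = x) || (!(decide ((w : ℕ) = ρ)) &&
      decide ((pL (matOf G) ρ u v k).getD w 0 = x))) = true) = dn ρ (pF G ρ u v k) x := by
    ext w
    rw [← hmem, dnL, List.mem_filter, vs_matOf, List.mem_range, mem_filter]
    simp only [w.2, mem_univ, true_and]
  rw [h2]
  apply sum_congr rfl
  intro w _
  rw [← h1 w, vs_matOf]
  simp only [dnL, vs_matOf]

theorem test_iff (ρ u : Fin n) (v k k' : ℕ) :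
    test (matOf G) ρ (pL (matOf G) ρ u v k) k' = true ↔
      IsPar G ρ (pF G ρ u v k) ∧ ∀ x, x ≠ ρ → cut G (dn ρ (pF G ρ u v k) x) ≤ k' := by
  have hroot : pF G ρ u v k ρ = ρ := by
    apply Fin.ext
    simp [pF, parB]
  unfold test
  rw [vs_matOf, List.all_eq_true]
  have h1 : ∀ x : Fin n, (decide ((x : ℕ) = ρ) ||
    ((ad (matOf G) x ((pL (matOf G) ρ u v k).getD x 0) &&
      (decide ((pL (matOf G) ρ u v k).getD x 0 = ρ) ||
        decide ((pL (matOf G) ρ u v k).getD ((pL (matOf G) ρ u v k).getD x 0) 0 = ρ))) &&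
      decide (cutL (matOf G) (dnL (matOf G) ρ (pL (matOf G) ρ u v k) x) ≤ k'))) = true ↔
      (x ≠ ρ → G.Adj x (pF G ρ u v k x) ∧
        (pF G ρ u v k x = ρ ∨ pF G ρ u v k (pF G ρ u v k x) = ρ) ∧
        cut G (dn ρ (pF G ρ u v k) x) ≤ k') := by
    intro x
    rw [cutL_eq, pL_getD', pL_getD']
    simp only [Bool.or_eq_true, Bool.and_eq_true, decide_eq_true_iff, ad_matOf, Fin.val_inj,
      and_assoc]
    tauto
  constructor
  · intro h
    have h2 : ∀ x : Fin n, x ≠ ρ → G.Adj x (pF G ρ u v k x) ∧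
        (pF G ρ u v k x = ρ ∨ pF G ρ u v k (pF G ρ u v k x) = ρ) ∧
        cut G (dn ρ (pF G ρ u v k) x) ≤ k' := by
      intro x
      exact (h1 x).1 (h x (List.mem_range.2 x.2))
    exact ⟨⟨fun x hx => (h2 x hx).1, fun x hx => (h2 x hx).2.1, hroot⟩,
      fun x hx => (h2 x hx).2.2⟩
  · rintro ⟨h2, h3⟩ x hx
    rw [List.mem_range] at hx
    exact (h1 ⟨x, hx⟩).2 fun hne => ⟨h2.adj _ hne, h2.depth _ hne, h3 _ hne⟩

theorem matOf_eq_map (H : SimpleGraph (Fin n)) : matOf H = (List.range n).map fun i =>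
    (List.range n).map fun j =>
      (by classical exact decide (∃ (hi : i < n) (hj : j < n), H.Adj ⟨i, hi⟩ ⟨j, hj⟩)) := by
  classical
  unfold matOf
  apply List.ext_getElem
  · simp
  intro i hi hi'
  have hin : i < n := by simpa using hi
  rw [List.getElem_map, List.getElem_range, List.getElem_ofFn]
  apply List.ext_getElem
  · simp
  intro j hj hj'
  have hjn : j < n := by simpa using hj
  rw [List.getElem_map, List.getElem_range, List.getElem_ofFn, Bool.eq_iff_iff,
    decide_eq_true_iff, decide_eq_true_iff]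
  exact ⟨fun h => ⟨hin, hjn, h⟩, fun ⟨_, _, h⟩ => h⟩

theorem treeM_eq (ρ u : Fin n) (v k : ℕ) :
    treeM (matOf G) ρ (pL (matOf G) ρ u v k) = matOf (parGraph ρ (pF G ρ u v k)) := by
  classical
  rw [matOf_eq_map (parGraph ρ (pF G ρ u v k))]
  unfold treeM
  rw [vs_matOf]
  apply List.map_congr_left
  intro i hi
  rw [List.mem_range] at hi
  apply List.map_congr_left
  intro j hj
  rw [List.mem_range] at hj
  lift i to Fin n using hi
  lift j to Fin n using hj
  rw [pL_getD', pL_getD', Bool.eq_iff_iff, decide_eq_true_iff]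
  unfold parGraph
  simp only [Bool.and_eq_true, Bool.or_eq_true, Bool.not_eq_true', decide_eq_false_iff_not,
    decide_eq_true_iff, Ne, Fin.val_inj, i.2, j.2, exists_true_left]

/-! ### Completeness of the test -/

theorem test_complete (h4 : P4F G) {k : ℕ} {ρ u v : Fin n} {φ : Fin n → Fin n}
    (h : GSpider G k ρ u v φ) : test (matOf G) ρ (pL (matOf G) ρ u v k) k = true := by
  classical
  rw [test_iff]
  have hzn : ∀ z : Fin n, (z : ℕ) ∈ zL (matOf G) ρ u v ↔ z ≠ ρ ∧ ¬ G.Adj ρ z ∧ Near G ρ u v z := by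
    intro z
    rw [mem_zL]
    have h1 := comN_eq_zero (G := G) ρ u v z
    have h2 := ad_matOf (G := G) ρ z
    have h3 : comN (matOf G) ρ u v z ≠ 0 ↔ Near G ρ u v z := by rw [Ne, h1, not_not]
    have h5 : (z : ℕ) ≠ ρ ↔ z ≠ ρ := by rw [Ne, Fin.val_inj]
    rw [h3, h5, ← Bool.not_eq_true, h2]
    simp [z.2]
  have hzlt : ∀ z ∈ zL (matOf G) ρ u v, z < n := fun z hz => ((mem_zL _ _ _ _).1 hz).1
  have hok : ∀ z y : Fin n, okB (matOf G) ρ u v k z y = true ↔
      (G.Adj ρ y ∧ G.Adj z y ∧ y ≠ u ∧ y ≠ v) ∧ dg G z + dg G y ≤ k + 2 := by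
    intro z y
    unfold okB
    rw [Bool.and_eq_true, comB_matOf, decide_eq_true_iff, dgL_matOf, dgL_matOf]
  obtain ⟨ψ, g1, g2, g3⟩ := greedy_correct (vs (matOf G)) (zL (matOf G) ρ u v)
    (okB (matOf G) ρ u v k) (dgL (matOf G))
    ((zL_sorted (G := G) ρ u v).imp fun h => h.1)
    (by
      refine List.Pairwise.imp_of_mem ?_ (zL_sorted (G := G) ρ u v)
      intro z z' hz hz' hle y hy y' hy' h1 h2 h3
      rw [vs_matOf, List.mem_range] at hy hy'
      have hzl := hzlt z hz
      have hzl' := hzlt z' hz'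
      lift z to Fin n using hzl
      lift z' to Fin n using hzl'
      lift y to Fin n using hy
      lift y' to Fin n using hy'
      rw [hok] at h1 h2 ⊢
      rw [dgL_matOf, dgL_matOf] at h3
      rw [hzn] at hz hz'
      refine ⟨?_, by omega⟩
      refine ⟨h1.1.1, ?_, h1.1.2.2⟩
      by_contra hcon
      have hlt : comN (matOf G) ρ u v z' < comN (matOf G) ρ u v z := by
        rw [comN_matOf, comN_matOf]
        apply card_lt_card
        rw [ssubset_iff_of_subset]
        · refine ⟨y, mem_filter.2 ⟨mem_univ _, (comB_matOf _ _ _ _ _).2 h1.1⟩, ?_⟩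
          intro hh
          exact hcon ((comB_matOf _ _ _ _ _).1 (mem_filter.1 hh).2).2.1
        · intro w hw
          rw [mem_filter, comB_matOf] at hw ⊢
          refine ⟨hw.1, hw.2.1, ?_, hw.2.2.2⟩
          exact chainE h4 h1.1.1 hw.2.1 (fun hh => hz'.2.1 hh.symm) (fun hh => hz.2.1 hh.symm)
            hw.2.2.1 hcon h1.1.2.1
      have := hle.2
      omega)
    (fun z => if hz : z < n then (φ ⟨z, hz⟩ : ℕ) else 0)
    (by
      intro z hz
      have hzl := hzlt z hz
      simp only [hzl, dif_pos]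
      rw [vs_matOf, List.mem_range]
      exact (φ _).2)
    (by
      intro z hz
      have hzl := hzlt z hz
      lift z to Fin n using hzl
      simp only [z.2, dif_pos]
      rw [hzn] at hz
      exact (hok _ _).2 ⟨h.adj z hz.1 hz.2.1 hz.2.2, h.cost z hz.1 hz.2.1 hz.2.2⟩)
    (by
      intro z hz z' hz' heq
      have hzl := hzlt z hz
      have hzl' := hzlt z' hz'
      lift z to Fin n using hzl
      lift z' to Fin n using hzl'
      simp only [z.2, z'.2, dif_pos, Fin.val_inj] at heq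
      rw [hzn] at hz hz'
      exact congrArg _ (h.inj z z' hz.1 hz.2.1 hz.2.2 hz'.1 hz'.2.1 hz'.2.2 heq))
  -- the matching as a function on `Fin n`
  have hψlt : ∀ z ∈ zL (matOf G) ρ u v, ψ z < n := by
    intro z hz
    have := (g1 z hz).1
    rwa [vs_matOf, List.mem_range] at this
  let φ' : Fin n → Fin n := fun z =>
    if hz : (z : ℕ) ∈ zL (matOf G) ρ u v then ⟨ψ z, hψlt z hz⟩ else ρ
  have hφ' : ∀ z : Fin n, (z : ℕ) ∈ zL (matOf G) ρ u v → (φ' z : ℕ) = ψ z := by
    intro z hz
    simp only [φ', hz, dif_pos]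
  have hφok : ∀ z : Fin n, (z : ℕ) ∈ zL (matOf G) ρ u v →
      (G.Adj ρ (φ' z) ∧ G.Adj z (φ' z) ∧ φ' z ≠ u ∧ φ' z ≠ v) ∧
        dg G z + dg G (φ' z) ≤ k + 2 := by
    intro z hz
    rw [← hok, hφ' z hz]
    exact (g1 z hz).2
  have hG' : GSpider G k ρ u v φ' := by
    refine ⟨h.deg, ?_, ?_, ?_, h.far, h.farcut⟩
    · intro z h1 h2 h3
      exact (hφok z ((hzn z).2 ⟨h1, h2, h3⟩)).1
    · intro z h1 h2 h3
      exact (hφok z ((hzn z).2 ⟨h1, h2, h3⟩)).2
    · intro z z' h1 h2 h3 h5 h6 h7 heq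
      have hz := (hzn z).2 ⟨h1, h2, h3⟩
      have hz' := (hzn z').2 ⟨h5, h6, h7⟩
      have := congrArg Fin.val heq
      rw [hφ' z hz, hφ' z' hz'] at this
      exact Fin.ext (g2 _ hz _ hz' this)
  refine gspider_par hG' ?_ ?_ ?_ ?_
  · apply Fin.ext
    simp [pF, parB]
  · intro x hx
    apply Fin.ext
    have h1 : ad (matOf G) ρ x = true := (ad_matOf _ _).2 hx
    simp [pF, parB, h1]
  · intro x hx hadj hn
    apply Fin.ext
    have hz := (hzn x).2 ⟨hx, hadj, hn⟩
    rw [hφ' x hz]
    have h1 : ¬ ad (matOf G) ρ x = true := fun hh => hadj ((ad_matOf _ _).1 hh)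
    have h2 : ¬ (x : ℕ) = ρ := fun hh => hx (Fin.ext hh)
    have h3 : ¬ comN (matOf G) ρ u v x = 0 := fun hh => (comN_eq_zero _ _ _ _).1 hh hn
    simp only [pF, parB, h1, h2, h3, if_false]
    cases hh : ((mL (matOf G) ρ u v k).filter fun q => decide (q.1 = (x : ℕ))).head? with
    | none =>
      exfalso
      have hmem : ((x : ℕ), ψ x) ∈ mL (matOf G) ρ u v k := (g3 _).2 ⟨hz, rfl⟩
      have : ((x : ℕ), ψ x) ∈ (mL (matOf G) ρ u v k).filter fun q => decide (q.1 = (x : ℕ)) :=
        List.mem_filter.2 ⟨hmem, by simp⟩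
      rw [List.head?_eq_none_iff] at hh
      rw [hh] at this
      simp at this
    | some q =>
      have h5 := List.mem_filter.1 (List.mem_of_head? hh)
      have h6 := (g3 q).1 h5.1
      have h7 := decide_eq_true_iff.1 h5.2
      rw [h7] at h6
      simpa using h6.2
  · intro x hx hadj hn
    apply Fin.ext
    have h1 : ¬ ad (matOf G) ρ x = true := fun hh => hadj ((ad_matOf _ _).1 hh)
    have h2 : ¬ (x : ℕ) = ρ := fun hh => hx (Fin.ext hh)
    have h3 : comN (matOf G) ρ u v x = 0 := (comN_eq_zero _ _ _ _).2 hn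
    simp only [pF, parB, h1, h2, h3, if_false, if_true, Bool.false_eq_true]

/-! ### The algorithm -/

theorem mem_cands (k ρ u v : ℕ) : (k, ρ, u, v) ∈ cands (matOf G) ↔
    k ≤ n * n ∧ ρ < n ∧ u < n ∧ v < n := by
  unfold cands
  simp only [List.mem_flatMap, List.mem_map, vs_matOf, matOf_length, List.mem_range,
    Prod.mk.injEq]
  constructor
  · rintro ⟨a, h1, b, h2, c, h3, d, h5, rfl, rfl, rfl, rfl⟩
    exact ⟨by omega, h2, h3, h5⟩
  · rintro ⟨h1, h2, h3, h5⟩
    exact ⟨k, by omega, ρ, h2, u, h3, v, h5, rfl, rfl, rfl, rfl⟩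

theorem cands_sorted : (cands (matOf G)).Pairwise fun a b => a.1 ≤ b.1 := by
  unfold cands
  rw [List.pairwise_flatMap]
  have hfst : ∀ (k : ℕ) (x : ℕ × ℕ × ℕ × ℕ), x ∈ ((vs (matOf G)).flatMap fun ρ =>
    (vs (matOf G)).flatMap fun u => (vs (matOf G)).map fun v => (k, ρ, u, v)) → x.1 = k := by
    intro k x hx
    simp only [List.mem_flatMap, List.mem_map] at hx
    obtain ⟨ρ, _, u, _, v, _, rfl⟩ := hx
    rfl
  constructor
  · intro k _
    apply List.pairwise_of_forall_mem_list
    intro a ha b hb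
    rw [hfst k a ha, hfst k b hb]
  · refine List.Pairwise.imp ?_ List.pairwise_lt_range
    intro a b hab x hx y hy
    rw [hfst a x hx, hfst b y hy]
    exact hab.le

theorem alg_correct {n : ℕ} (G : SimpleGraph (Fin n)) (h4 : P4F G) (k : ℕ) (hk : k ≤ n * n)
    (hG : ∃ ρ u v φ, GSpider G k ρ u v φ) :
    ∃ ρ p k', k' ≤ k ∧ IsPar G ρ p ∧ (∀ x, x ≠ ρ → cut G (dn ρ p x) ≤ k') ∧
      alg (matOf G) = matOf (parGraph ρ p) := by
  obtain ⟨ρ, u, v, φ, h⟩ := hG
  have htest := test_complete h4 h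
  set F := (cands (matOf G)).filter fun c =>
      test (matOf G) c.2.1 (pL (matOf G) c.2.1 c.2.2.1 c.2.2.2 c.1) c.1 with hF
  have hmem : (k, (ρ : ℕ), (u : ℕ), (v : ℕ)) ∈ F := by
    rw [hF, List.mem_filter]
    exact ⟨(mem_cands _ _ _ _).2 ⟨hk, ρ.2, u.2, v.2⟩, htest⟩
  have hsort : F.Pairwise fun a b => a.1 ≤ b.1 := cands_sorted.filter _
  cases hFc : F with
  | nil =>
    rw [hFc] at hmem
    simp at hmem
  | cons c l =>
    have hc : c ∈ F := by rw [hFc]; exact List.mem_cons_self
    have hck : c.1 ≤ k := by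
      rw [hFc, List.mem_cons] at hmem
      rw [hFc, List.pairwise_cons] at hsort
      rcases hmem with h1 | h1
      · rw [← h1]
      · exact hsort.1 _ h1
    have halg : alg (matOf G) = treeM (matOf G) c.2.1
        (pL (matOf G) c.2.1 c.2.2.1 c.2.2.2 c.1) := by
      unfold alg
      rw [← hF, hFc]
      rfl
    obtain ⟨k', ρ', u', v'⟩ := c
    rw [hF, List.mem_filter, mem_cands] at hc
    obtain ⟨⟨h1, h2, h3, h5⟩, h6⟩ := hc
    simp only at h6 halg hck
    lift ρ' to Fin n using h2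
    lift u' to Fin n using h3
    rw [test_iff] at h6
    rw [treeM_eq] at halg
    exact ⟨ρ', pF G ρ' u' v' k', k', hck, h6.1, h6.2, halg⟩

end Pool.Agent.H225R2.STC
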