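import Pool.Agent.H225R2.STC.Defs

/-!
# Basic counting lemmas
-/

namespace Pool.Agent.H225R2.STC

open Finset

set_option linter.unusedSectionVars false

variable {V : Type} [Fintype V] [DecidableEq V] {G : SimpleGraph V}

omit [Fintype V] in
theorem dI_union {x : V} {Y Z : Finset V} (h : Disjoint Y Z) :
    dI G x (Y ∪ Z) = dI G x Y + dI G x Z := by
  classical
  unfold dI
  rw [Finset.filter_union, Finset.card_union_of_disjoint (Finset.disjoint_filter_filter h)]

omit [Fintype V] [DecidableEq V] in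
theorem dI_le_card (x : V) (Y : Finset V) : dI G x Y ≤ Y.card := by
  classical
  exact Finset.card_filter_le _ _

omit [Fintype V] [DecidableEq V] in
theorem dI_mono {x : V} {Y Z : Finset V} (h : Y ⊆ Z) : dI G x Y ≤ dI G x Z := by
  classical
  exact Finset.card_le_card (Finset.filter_subset_filter _ h)

omit [Fintype V] [DecidableEq V] in
theorem dI_full {x : V} {Y : Finset V} (h : ∀ y ∈ Y, G.Adj x y) : dI G x Y = Y.card := by
  classical
  unfold dI
  rw [Finset.filter_true_of_mem h]

omit [Fintype V] [DecidableEq V] in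
theorem dI_zero {x : V} {Y : Finset V} (h : ∀ y ∈ Y, ¬ G.Adj x y) : dI G x Y = 0 := by
  classical
  unfold dI
  rw [Finset.filter_false_of_mem h, Finset.card_empty]

omit [Fintype V] [DecidableEq V] in
theorem dI_pos {x y : V} {Y : Finset V} (hy : y ∈ Y) (h : G.Adj x y) : 1 ≤ dI G x Y := by
  classical
  unfold dI
  exact Finset.card_pos.2 ⟨y, Finset.mem_filter.2 ⟨hy, h⟩⟩

omit [Fintype V] in
theorem dI_lt {x y : V} {Y : Finset V} (hy : y ∈ Y) (h : ¬ G.Adj x y) : dI G x Y + 1 ≤ Y.card := by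
  classical
  unfold dI
  have h1 : (Y.filter fun y => G.Adj x y) ⊆ Y.erase y := by
    intro w hw
    rw [Finset.mem_filter] at hw
    refine Finset.mem_erase.2 ⟨?_, hw.1⟩
    rintro rfl
    exact h hw.2
  have h2 := Finset.card_le_card h1
  have h3 := Finset.card_erase_add_one hy
  omega

omit [Fintype V] in
theorem dI_lt' {x : V} {Y : Finset V} (hx : x ∈ Y) : dI G x Y + 1 ≤ Y.card :=
  dI_lt hx (G.loopless.irrefl x)

theorem dg_split (x : V) (S : Finset V) : dg G x = dI G x S + dI G x Sᶜ := by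
  unfold dg
  rw [← dI_union disjoint_compl_right, Finset.union_compl]

theorem dg_lt (x : V) : dg G x + 1 ≤ Fintype.card V := by
  have := dI_lt' (G := G) (Finset.mem_univ x)
  rwa [Finset.card_univ] at this

theorem dg_lt2 {x y : V} (hy : y ≠ x) (h : ¬ G.Adj x y) : dg G x + 2 ≤ Fintype.card V := by
  classical
  have h1 : (univ.filter fun w => G.Adj x w) ⊆ (univ.erase y).erase x := by
    intro w hw
    rw [Finset.mem_filter] at hw
    refine Finset.mem_erase.2 ⟨?_, Finset.mem_erase.2 ⟨?_, Finset.mem_univ _⟩⟩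
    · rintro rfl
      exact G.loopless.irrefl _ hw.2
    · rintro rfl
      exact h hw.2
  have h2 := Finset.card_le_card h1
  have h3 := Finset.card_erase_add_one (Finset.mem_univ y)
  have h4 := Finset.card_erase_add_one (s := univ.erase y) (a := x)
    (Finset.mem_erase.2 ⟨hy.symm, Finset.mem_univ _⟩)
  rw [Finset.card_univ] at h3
  unfold dg dI
  have h5 : (univ.filter fun w => G.Adj x w).card = (univ.filter fun w => G.Adj x w).card := rfl
  have : (Finset.filter (fun y => G.Adj x y) univ).card ≤ ((univ.erase y).erase x).card := by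
    convert h2
  omega

/-- three vertices: degree at most `card V - 3`. -/
theorem dg_lt3 {x y y' : V} (hy : y ≠ x) (h : ¬ G.Adj x y) (hy' : y' ≠ x) (h' : ¬ G.Adj x y')
    (hyy : y ≠ y') : dg G x + 3 ≤ Fintype.card V := by
  classical
  have h1 : (univ.filter fun w => G.Adj x w) ⊆ univ \ {x, y, y'} := by
    intro w hw
    rw [Finset.mem_filter] at hw
    simp only [mem_sdiff, mem_univ, mem_insert, mem_singleton, true_and, not_or]
    refine ⟨?_, ?_, ?_⟩
    · rintro rfl
      exact G.loopless.irrefl _ hw.2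
    · rintro rfl
      exact h hw.2
    · rintro rfl
      exact h' hw.2
  have h2 := Finset.card_le_card h1
  have h3 : ({x, y, y'} : Finset V).card = 3 := by
    rw [Finset.card_insert_of_notMem, Finset.card_insert_of_notMem, Finset.card_singleton]
    · simpa using hyy
    · simp only [mem_insert, mem_singleton, not_or]
      exact ⟨hy.symm, hy'.symm⟩
  have h4 := Finset.card_sdiff_add_card_eq_card (Finset.subset_univ ({x, y, y'} : Finset V))
  rw [Finset.card_univ] at h4
  unfold dg dI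
  have : (Finset.filter (fun y => G.Adj x y) univ).card ≤ (univ \ {x, y, y'}).card := by
    convert h2
  omega

/-- If `dg x + 2 = card V` there is exactly one non-neighbour. -/
theorem eq_of_dg {x y y' : V} (hd : Fintype.card V ≤ dg G x + 2) (hy : y ≠ x) (h : ¬ G.Adj x y)
    (hy' : y' ≠ x) (h' : ¬ G.Adj x y') : y = y' := by
  by_contra hne
  have := dg_lt3 hy h hy' h' hne
  omega

theorem cut_eq (S : Finset V) : cut G S = ∑ x ∈ S, dI G x Sᶜ := rfl

theorem cut_singleton (x : V) : cut G {x} = dg G x := by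
  rw [cut_eq, Finset.sum_singleton, dg_split x {x}, dI_zero (x := x) (Y := {x})]
  · simp
  · intro y hy
    rw [Finset.mem_singleton.1 hy]
    exact G.loopless.irrefl x

/-- the sum over two elements plus the rest -/
theorem two_le_sum {x y : V} {S : Finset V} (hx : x ∈ S) (hy : y ∈ S) (hxy : x ≠ y) (f : V → ℕ)
    (c : ℕ) (hc : ∀ w ∈ S, c ≤ f w) : f x + f y + (S.card - 2) * c ≤ ∑ w ∈ S, f w := by
  rw [← Finset.add_sum_erase S f hx, ← Finset.add_sum_erase (S.erase x) f
    (Finset.mem_erase.2 ⟨hxy.symm, hy⟩)]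
  have h1 := Finset.card_nsmul_le_sum ((S.erase x).erase y) f c (fun w hw =>
    hc w (Finset.mem_of_mem_erase (Finset.mem_of_mem_erase hw)))
  have h2 := Finset.card_erase_add_one hx
  have h3 := Finset.card_erase_add_one (s := S.erase x) (a := y)
    (Finset.mem_erase.2 ⟨hxy.symm, hy⟩)
  have h4 : S.card - 2 = ((S.erase x).erase y).card := by omega
  rw [h4]
  rw [smul_eq_mul] at h1
  linarith

/-- **Pair lemma, homogeneous case**: if at least two outside vertices are adjacent to all of `S`,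
then any two vertices of `S` satisfy the pair inequality. -/
theorem pair_hom {S C : Finset V} (hC : ∀ c ∈ C, ∀ x ∈ S, G.Adj x c) (hd : Disjoint C S)
    (hc : 2 ≤ C.card) {x y : V} (hx : x ∈ S) (hy : y ∈ S) (hxy : x ≠ y) :
    dg G x + dg G y ≤ cut G S + 2 := by
  have hsub : C ⊆ Sᶜ := fun c hcm => Finset.mem_compl.2 (Finset.disjoint_left.1 hd hcm)
  have h1 : ∀ w ∈ S, 2 ≤ dI G w Sᶜ := by
    intro w hw
    have h2 := dI_mono (G := G) (x := w) hsub
    rw [dI_full (fun c hcm => hC c hcm w hw)] at h2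
    omega
  have h3 := two_le_sum hx hy hxy (fun w => dI G w Sᶜ) 2 h1
  have h4 := dg_split (G := G) x S
  have h5 := dg_split (G := G) y S
  have h6 := dI_lt' (G := G) hx
  have h7 := dI_lt' (G := G) hy
  have h8 : 2 ≤ S.card := by
    have : ({x, y} : Finset V).card ≤ S.card := Finset.card_le_card (by
      intro w hw
      rcases Finset.mem_insert.1 hw with h | h
      · rwa [h]
      · rwa [Finset.mem_singleton.1 h])
    rwa [Finset.card_pair hxy] at this
  rw [cut_eq]
  omega

/-- arithmetic for the mixed pair lemma -/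
theorem arith_mix {N Q α β : ℕ} (hN : 1 ≤ N) (hQ : 1 ≤ Q) (hh : N + Q ≤ α + β) (ha : 3 ≤ α + N)
    (hb : 3 ≤ β + Q) : 2 * N + 2 * Q + α + β ≤ N * β + Q * α + 4 := by
  obtain ⟨p, rfl⟩ : ∃ p, N = p + 1 := ⟨N - 1, by omega⟩
  obtain ⟨q, rfl⟩ : ∃ q, Q = q + 1 := ⟨Q - 1, by omega⟩
  rcases Nat.lt_or_ge β 2 with hβ | hβ
  · have h1 : p + q + 2 ≤ α + β := by omega
    interval_cases β
    · obtain ⟨α', rfl⟩ : ∃ α', α = α' + (p + q + 2) := ⟨α - (p + q + 2), by omega⟩
      obtain ⟨q', rfl⟩ : ∃ q', q = q' + 2 := ⟨q - 2, by omega⟩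
      nlinarith [Nat.zero_le (q' * p), Nat.zero_le (q' * q'), Nat.zero_le (q' * α')]
    · obtain ⟨α', rfl⟩ : ∃ α', α = α' + (p + q + 1) := ⟨α - (p + q + 1), by omega⟩
      obtain ⟨q', rfl⟩ : ∃ q', q = q' + 1 := ⟨q - 1, by omega⟩
      nlinarith [Nat.zero_le (q' * p), Nat.zero_le (q' * q'), Nat.zero_le (q' * α')]
  · rcases Nat.lt_or_ge α 2 with hα | hα
    · have h1 : p + q + 2 ≤ α + β := by omega
      interval_cases α
      · obtain ⟨β', rfl⟩ : ∃ β', β = β' + (p + q + 2) := ⟨β - (p + q + 2), by omega⟩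
        obtain ⟨p', rfl⟩ : ∃ p', p = p' + 2 := ⟨p - 2, by omega⟩
        nlinarith [Nat.zero_le (p' * q), Nat.zero_le (p' * p'), Nat.zero_le (p' * β')]
      · obtain ⟨β', rfl⟩ : ∃ β', β = β' + (p + q + 1) := ⟨β - (p + q + 1), by omega⟩
        obtain ⟨p', rfl⟩ : ∃ p', p = p' + 1 := ⟨p - 1, by omega⟩
        nlinarith [Nat.zero_le (p' * q), Nat.zero_le (p' * p'), Nat.zero_le (p' * β')]
    · obtain ⟨α', rfl⟩ : ∃ α', α = α' + 2 := ⟨α - 2, by omega⟩
      obtain ⟨β', rfl⟩ : ∃ β', β = β' + 2 := ⟨β - 2, by omega⟩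
      nlinarith [Nat.zero_le (p * β'), Nat.zero_le (q * α')]

end Pool.Agent.H225R2.STC
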