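import Pool.Agent.H225R2.STC.Levels

/-!
# The components and the pair inequalities
-/

namespace Pool.Agent.H225R2.STC

open Finset

set_option linter.unusedSectionVars false

variable {V : Type} [Fintype V] [DecidableEq V] {G : SimpleGraph V}

open scoped Classical in
/-- A neighbour of `r` in `X` of minimal level. -/
noncomputable def ys (G : SimpleGraph V) (r : V) (X : Finset V) : V :=
  if h : (X ∩ Ns G r).Nonempty then (Finset.exists_min_image _ (lv G r) h).choose else r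

theorem ys_spec {r : V} {X : Finset V} (h : (X ∩ Ns G r).Nonempty) :
    ys G r X ∈ X ∧ ys G r X ∈ Ns G r ∧ ∀ y ∈ X, y ∈ Ns G r → lv G r (ys G r X) ≤ lv G r y := by
  have h1 := (Finset.exists_min_image (X ∩ Ns G r) (lv G r) h).choose_spec
  unfold ys
  rw [dif_pos h]
  refine ⟨(mem_inter.1 h1.1).1, (mem_inter.1 h1.1).2, fun y hy hy' => h1.2 y (mem_inter.2 ⟨hy, hy'⟩)⟩

variable {k : ℕ} {r : V} {S : V → Finset V}

theorem Parts.ne (hP : Parts G k r S) {v x : V} (hx : x ∈ S v) : x ≠ r := by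
  rintro rfl
  exact hP.root v hx

theorem Parts.ys_mem (hP : Parts G k r S) {v : V} (hv : v ≠ r) :
    ys G r (S v) ∈ S v ∧ ys G r (S v) ∈ Ns G r ∧
      ∀ y ∈ S v, y ∈ Ns G r → lv G r (ys G r (S v)) ≤ lv G r y := by
  obtain ⟨c, hc, hc'⟩ := hP.nbr v hv
  exact ys_spec ⟨c, mem_inter.2 ⟨hc, mem_Ns.2 hc'⟩⟩

/-- the vertices of a component -/
theorem Parts.cases (h4 : P4F G) (hP : Parts G k r S) {v : V} (hv : v ≠ r) {x : V}
    (hx : x ∈ S v) : (x ∈ Ns G r ∧ lv G r (ys G r (S v)) ≤ lv G r x) ∨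
      (x ∈ Zs G r ∧ G.Adj (ys G r (S v)) x) := by
  classical
  obtain ⟨hy1, hy2, hy3⟩ := hP.ys_mem hv
  set y := ys G r (S v) with hy
  rcases tri (G := G) r x with h | h | h
  · exact absurd h (hP.ne hx)
  · exact Or.inl ⟨h, hy3 x hx h⟩
  · refine Or.inr ⟨h, ?_⟩
    by_contra hyx
    let X : Finset V := (S v).filter fun x => x ∈ Zs G r ∧ ¬ G.Adj y x
    have hX1 : X.Nonempty := ⟨x, mem_filter.2 ⟨hx, h, hyx⟩⟩
    have hX2 : X ≠ S v := by
      intro he
      have : y ∈ X := by rw [he]; exact hy1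
      have h1 := (mem_filter.1 this).2.1
      exact (mem_Zs.1 h1).2 (mem_Ns.1 hy2)
    obtain ⟨a, ha, b, hb, hab⟩ := hP.conn v X (filter_subset _ _) hX1 hX2
    obtain ⟨ha1, ha2, ha3⟩ := mem_filter.1 ha
    rw [mem_sdiff] at hb
    rcases tri (G := G) r b with h' | h' | h'
    · exact hP.ne hb.1 h'
    · exact lv_sub h4 hy2 h' ha2 (hy3 b hb.1 h') ha3 hab.symm
    · have h5 : G.Adj y b := by
        by_contra h6
        exact hb.2 (mem_filter.2 ⟨hb.1, h', h6⟩)
      exact not_adj_ZZ h4 hy2 ha2 h' ha3 h5 hab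

/-- a component with a vertex of `Bs` has level zero -/
theorem Parts.level_zero (hP : Parts G k r S) {v : V} (hv : v ≠ r) :
    lv G r (ys G r (S v)) = 0 ↔ ∃ y ∈ S v, y ∈ Bs G r := by
  obtain ⟨hy1, hy2, hy3⟩ := hP.ys_mem hv
  constructor
  · intro h
    exact ⟨_, hy1, mem_Bs'.2 ⟨mem_Ns.1 hy2, h⟩⟩
  · rintro ⟨y, hy, hyB⟩
    have h1 := mem_Bs'.1 hyB
    have h2 := hy3 y hy (mem_Ns.2 h1.1)
    omega

/-- The standing assumptions of the main case. -/
structure Ctx (G : SimpleGraph V) (k : ℕ) (r : V) (S : V → Finset V) : Prop where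
  h4 : P4F G
  hP : Parts G k r S
  nouniv : ∀ v, ∃ w, w ≠ v ∧ ¬ G.Adj v w
  a3 : 3 ≤ ((Bs G r)ᶜ).card
  b3 : 3 ≤ (Bs G r).card

theorem Ctx.dg_le (C : Ctx G k r S) (v : V) : dg G v + 2 ≤ Fintype.card V := by
  obtain ⟨w, hw, hw'⟩ := C.nouniv v
  exact dg_lt2 hw hw'

theorem card_B_add : (Bs G r).card + ((Bs G r)ᶜ).card = Fintype.card V :=
  Finset.card_add_card_compl _

/-- Splitting the complement of a set of vertices along `Bs`. -/
theorem compl_split (X B : Finset V) : Xᶜ = (B \ X) ∪ (Bᶜ \ X) := by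
  ext w
  simp only [mem_compl, mem_union, mem_sdiff]
  tauto

theorem dI_compl_A (h4 : P4F G) (X : Finset V) {x : V} (hx : x ∉ Bs G r) :
    dI G x Xᶜ = (Bs G r \ X).card + dI G x ((Bs G r)ᶜ \ X) := by
  rw [compl_split X (Bs G r), dI_union, dI_full]
  · intro y hy
    exact (Bs_complete h4 (mem_sdiff.1 hy).1 hx).symm
  · rw [disjoint_left]
    intro w hw hw'
    rw [mem_sdiff] at hw hw'
    exact (mem_compl.1 hw'.1) hw.1

theorem dI_compl_B (h4 : P4F G) (X : Finset V) {x : V} (hx : x ∈ Bs G r) :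
    dI G x Xᶜ = dI G x (Bs G r \ X) + ((Bs G r)ᶜ \ X).card := by
  rw [compl_split X (Bs G r), dI_union, dI_full (Y := (Bs G r)ᶜ \ X)]
  · intro y hy
    exact Bs_complete h4 hx (mem_compl.1 (mem_sdiff.1 hy).1)
  · rw [disjoint_left]
    intro w hw hw'
    rw [mem_sdiff] at hw hw'
    exact (mem_compl.1 hw'.1) hw.1

/-- The cut of a set, split along `Bs`. -/
theorem cut_split (h4 : P4F G) (X : Finset V) :
    cut G X = (X \ Bs G r).card * (Bs G r \ X).card + (∑ x ∈ X \ Bs G r, dI G x ((Bs G r)ᶜ \ X)) +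
      ((X ∩ Bs G r).card * ((Bs G r)ᶜ \ X).card + ∑ x ∈ X ∩ Bs G r, dI G x (Bs G r \ X)) := by
  rw [cut_eq, ← Finset.sum_inter_add_sum_sdiff X (Bs G r)]
  have h1 : ∑ x ∈ X \ Bs G r, dI G x Xᶜ =
      ∑ x ∈ X \ Bs G r, ((Bs G r \ X).card + dI G x ((Bs G r)ᶜ \ X)) :=
    Finset.sum_congr rfl fun x hx => dI_compl_A h4 X (mem_sdiff.1 hx).2
  have h2 : ∑ x ∈ X ∩ Bs G r, dI G x Xᶜ =
      ∑ x ∈ X ∩ Bs G r, (dI G x (Bs G r \ X) + ((Bs G r)ᶜ \ X).card) :=
    Finset.sum_congr rfl fun x hx => dI_compl_B h4 X (mem_inter.1 hx).2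
  rw [h1, h2, Finset.sum_add_distrib, Finset.sum_add_distrib, Finset.sum_const, Finset.sum_const,
    smul_eq_mul, smul_eq_mul]
  ring

theorem card_split (X B : Finset V) : X.card = (X ∩ B).card + (X \ B).card :=
  (Finset.card_inter_add_card_sdiff X B).symm

/-- the degree of a vertex of `X` outside `Bs` -/
theorem dg_A (h4 : P4F G) (X : Finset V) {x : V} (hxX : x ∈ X) (hx : x ∉ Bs G r) :
    dg G x + 1 ≤ (Bs G r).card + (X \ Bs G r).card + dI G x ((Bs G r)ᶜ \ X) := by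
  have h1 := dg_split (G := G) x X
  have h2 := dI_compl_A h4 X hx
  have h3 : dI G x X = dI G x (X ∩ Bs G r) + dI G x (X \ Bs G r) := by
    rw [← dI_union]
    · congr 1
      ext w
      simp only [mem_union, mem_inter, mem_sdiff]
      tauto
    · rw [disjoint_left]
      intro w hw hw'
      exact (mem_sdiff.1 hw').2 (mem_inter.1 hw).2
  have h4' := dI_le_card (G := G) x (X ∩ Bs G r)
  have h5 := dI_lt' (G := G) (mem_sdiff.2 ⟨hxX, hx⟩)
  have h6 := card_split (Bs G r) X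
  rw [inter_comm] at h6
  omega

theorem dg_B (h4 : P4F G) (X : Finset V) {x : V} (hxX : x ∈ X) (hx : x ∈ Bs G r) :
    dg G x + 1 ≤ ((Bs G r)ᶜ).card + (X ∩ Bs G r).card + dI G x (Bs G r \ X) := by
  have h1 := dg_split (G := G) x X
  have h2 := dI_compl_B h4 X hx
  have h3 : dI G x X = dI G x (X ∩ Bs G r) + dI G x (X \ Bs G r) := by
    rw [← dI_union]
    · congr 1
      ext w
      simp only [mem_union, mem_inter, mem_sdiff]
      tauto
    · rw [disjoint_left]
      intro w hw hw'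
      exact (mem_sdiff.1 hw').2 (mem_inter.1 hw).2
  have h4' := dI_le_card (G := G) x (X \ Bs G r)
  have h5 := dI_lt' (G := G) (mem_inter.2 ⟨hxX, hx⟩)
  have h6 := card_split ((Bs G r)ᶜ) X
  have h7 : (Bs G r)ᶜ ∩ X = X \ Bs G r := by
    ext w
    simp only [mem_inter, mem_compl, mem_sdiff]
    tauto
  rw [h7] at h6
  omega

/-- **Pair lemma, mixed case.** -/
theorem Ctx.pair_mix (C : Ctx G k r S) {v y z : V} (hy : y ∈ S v) (hyB : y ∈ Bs G r)
    (hz : z ∈ S v) (hzB : z ∉ Bs G r) : dg G z + dg G y ≤ k + 2 := by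
  have h1 := cut_split (r := r) C.h4 (S v)
  have h2 := dg_A C.h4 (S v) hz hzB
  have h3 := dg_B C.h4 (S v) hy hyB
  have h4 : dI G z ((Bs G r)ᶜ \ S v) ≤ ∑ x ∈ S v \ Bs G r, dI G x ((Bs G r)ᶜ \ S v) :=
    Finset.single_le_sum (f := fun x => dI G x ((Bs G r)ᶜ \ S v)) (fun _ _ => Nat.zero_le _)
      (mem_sdiff.2 ⟨hz, hzB⟩)
  have h5 : dI G y (Bs G r \ S v) ≤ ∑ x ∈ S v ∩ Bs G r, dI G x (Bs G r \ S v) :=
    Finset.single_le_sum (f := fun x => dI G x (Bs G r \ S v)) (fun _ _ => Nat.zero_le _)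
      (mem_inter.2 ⟨hy, hyB⟩)
  have h6 := C.hP.cut_le v
  have h7 := C.hP.half v
  have h8 := card_split (S v) (Bs G r)
  have h9 := card_split (Bs G r) (S v)
  have h10 := card_split ((Bs G r)ᶜ) (S v)
  have h11 : (Bs G r)ᶜ ∩ S v = S v \ Bs G r := by
    ext w
    simp only [mem_inter, mem_compl, mem_sdiff]
    tauto
  rw [h11] at h10
  rw [inter_comm] at h9
  have h12 := C.a3
  have h13 := C.b3
  have h14 := card_B_add (G := G) (r := r)
  have h15 : 1 ≤ (S v \ Bs G r).card := card_pos.2 ⟨z, mem_sdiff.2 ⟨hz, hzB⟩⟩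
  have h16 : 1 ≤ (S v ∩ Bs G r).card := card_pos.2 ⟨y, mem_inter.2 ⟨hy, hyB⟩⟩
  have h17 := arith_mix (N := (S v \ Bs G r).card) (Q := (S v ∩ Bs G r).card)
    (α := ((Bs G r)ᶜ \ S v).card) (β := (Bs G r \ S v).card) h15 h16 (by omega) (by omega)
    (by omega)
  omega

/-- **Pair lemma inside the complement of `Bs`.** -/
theorem Ctx.pair_A (C : Ctx G k r S) {v x y : V} (hS : ∀ w ∈ S v, w ∉ Bs G r) (hx : x ∈ S v)
    (hy : y ∈ S v) (hxy : x ≠ y) : dg G x + dg G y ≤ k + 2 := by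
  have h1 := pair_hom (G := G) (S := S v) (C := Bs G r)
    (fun c hc x hx => (Bs_complete C.h4 hc (hS x hx)).symm)
    (disjoint_left.2 fun c hc hc' => hS c hc' hc) (by have := C.b3; omega) hx hy hxy
  have := C.hP.cut_le v
  omega

theorem Ctx.pair_B (C : Ctx G k r S) {v x y : V} (hS : ∀ w ∈ S v, w ∈ Bs G r) (hx : x ∈ S v)
    (hy : y ∈ S v) (hxy : x ≠ y) : dg G x + dg G y ≤ k + 2 := by
  have h1 := pair_hom (G := G) (S := S v) (C := (Bs G r)ᶜ)
    (fun c hc x hx => Bs_complete C.h4 (hS x hx) (mem_compl.1 hc))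
    (disjoint_left.2 fun c hc hc' => (mem_compl.1 hc) (hS c hc')) (by have := C.a3; omega) hx hy hxy
  have := C.hP.cut_le v
  omega

theorem Ctx.two_le_dg (C : Ctx G k r S) (x : V) : 2 ≤ dg G x := by
  by_cases hx : x ∈ Bs G r
  · have h1 := dI_mono (G := G) (x := x) (subset_univ ((Bs G r)ᶜ))
    rw [dI_full (fun y hy => Bs_complete C.h4 hx (mem_compl.1 hy))] at h1
    have := C.a3
    unfold dg
    omega
  · have h1 := dI_mono (G := G) (x := x) (subset_univ (Bs G r))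
    rw [dI_full (fun y hy => (Bs_complete C.h4 hy hx).symm)] at h1
    have := C.b3
    unfold dg
    omega

/-- degrees of vertices outside `Bs` are at least `card Bs`. -/
theorem Ctx.dg_ge_A (C : Ctx G k r S) {x : V} (hx : x ∉ Bs G r) : (Bs G r).card ≤ dg G x := by
  have h1 := dI_mono (G := G) (x := x) (subset_univ (Bs G r))
  rw [dI_full (fun y hy => (Bs_complete C.h4 hy hx).symm)] at h1
  exact h1

theorem Ctx.dg_ge_B (C : Ctx G k r S) {x : V} (hx : x ∈ Bs G r) : ((Bs G r)ᶜ).card ≤ dg G x := by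
  have h1 := dI_mono (G := G) (x := x) (subset_univ ((Bs G r)ᶜ))
  rw [dI_full (fun y hy => Bs_complete C.h4 hx (mem_compl.1 hy))] at h1
  exact h1

/-- **Degree lemma.** -/
theorem Ctx.deg_le (C : Ctx G k r S) {v : V} (hv : v ≠ r) : dg G v ≤ k := by
  have hvS := C.hP.mem v hv
  by_cases h1 : ∀ w ∈ S v, w = v
  · have h2 : S v = {v} := by
      ext w
      simp only [mem_singleton]
      exact ⟨h1 w, fun h => by rw [h]; exact hvS⟩
    have h3 := C.hP.cut_le v
    rw [h2, cut_singleton] at h3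
    exact h3
  · push Not at h1
    obtain ⟨w, hw, hwv⟩ := h1
    by_cases hA : ∀ w ∈ S v, w ∉ Bs G r
    · have := C.pair_A hA hvS hw hwv.symm
      have := C.two_le_dg w
      omega
    · by_cases hB : ∀ w ∈ S v, w ∈ Bs G r
      · have := C.pair_B hB hvS hw hwv.symm
        have := C.two_le_dg w
        omega
      · push Not at hA hB
        obtain ⟨y, hy, hyB⟩ := hA
        obtain ⟨z, hz, hzB⟩ := hB
        by_cases hvB : v ∈ Bs G r
        · have := C.pair_mix hvS hvB hz hzB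
          have := C.two_le_dg z
          omega
        · have := C.pair_mix hy hyB hvS hvB
          have := C.two_le_dg y
          omega

/-- any neighbour of `r` and any non-neighbour of `r` in the same component satisfy the pair
inequality, if the component has no vertex in `Bs` or the neighbour is in `Bs`. -/
theorem Ctx.pair_any (C : Ctx G k r S) {v y z : V} (hy : y ∈ S v) (hz : z ∈ S v) (hyz : y ≠ z)
    (h : (∀ w ∈ S v, w ∉ Bs G r) ∨ (y ∈ Bs G r ∧ z ∉ Bs G r)) : dg G z + dg G y ≤ k + 2 := by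
  rcases h with h | ⟨h, h'⟩
  · have := C.pair_A h hy hz hyz
    omega
  · exact C.pair_mix hy h hz h'

end Pool.Agent.H225R2.STC
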