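import Pool.Agent.H225R2.STC.Third

/-!
# The main case: existence of a spider
-/

namespace Pool.Agent.H225R2.STC

open Finset

set_option linter.unusedSectionVars false

variable {V : Type} [Fintype V] [DecidableEq V] {G : SimpleGraph V}
variable {k : ℕ} {r : V} {S : V → Finset V}

open scoped Classical in
/-- non-neighbours in poor components meeting `Bs` -/
noncomputable def Zp (G : SimpleGraph V) (r : V) (S : V → Finset V) : Finset V :=
  (Zs G r).filter fun z => (∃ y ∈ S z, y ∈ Bs G r) ∧ (S z ∩ Zs G r).card ≤ (S z ∩ Bs G r).card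

open scoped Classical in
/-- single non-neighbours in deep components -/
noncomputable def Zg (G : SimpleGraph V) (r : V) (S : V → Finset V) : Finset V :=
  (Zs G r).filter fun z => (∀ y ∈ S z, y ∉ Bs G r) ∧ (S z ∩ Zs G r).card ≤ 1

theorem mem_Zp {z : V} : z ∈ Zp G r S ↔ z ∈ Zs G r ∧ (∃ y ∈ S z, y ∈ Bs G r) ∧
    (S z ∩ Zs G r).card ≤ (S z ∩ Bs G r).card := by simp [Zp]

theorem mem_Zg {z : V} : z ∈ Zg G r S ↔ z ∈ Zs G r ∧ (∀ y ∈ S z, y ∉ Bs G r) ∧
    (S z ∩ Zs G r).card ≤ 1 := by simp [Zg]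

theorem Ctx.univ_of (C : Ctx G k r S) (hG : ¬ Good G k) (T : ℕ)
    (hT : ∀ t, 1 ≤ t → t < T → (Zlt G r S t).card ≤ (Nlt G r t).card) {z : V} (hz : z ∈ Zs G r)
    (h1 : z ∉ Zp G r S) (h2 : z ∉ Zg G r S) (h3 : el G r S z < T) :
    ∀ x, x ≠ r → dg G z + dg G x ≤ k + 2 := by
  have hzr := Zs_ne hz
  have hzS := C.hP.mem z hzr
  by_cases hB : ∃ y ∈ S z, y ∈ Bs G r
  · refine C.univ0 hG hzr hzS hz hB ?_
    by_contra h
    exact h1 (mem_Zp.2 ⟨hz, hB, by omega⟩)
  · have hB' : ∀ y ∈ S z, y ∉ Bs G r := by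
      push Not at hB
      exact hB
    have h4 : 1 < (S z ∩ Zs G r).card := by
      by_contra h
      exact h2 (mem_Zg.2 ⟨hz, hB', by omega⟩)
    obtain ⟨z', hz', hne⟩ := Finset.exists_mem_ne h4 z
    rw [mem_inter] at hz'
    have hl : 1 ≤ el G r S z := by
      by_contra h
      exact hB ((C.hP.level_zero hzr).1 (by unfold el at h; omega))
    exact C.univ1 hG T hT (el G r S z) hl h3 z z z' hzr rfl hzS hz hz'.1 hz'.2 hne.symm

/-- the partial assignment on the non-universal vertices -/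
theorem Ctx.exists_base (C : Ctx G k r S) :
    ∃ θ : V → V, (∀ z ∈ Zp G r S, θ z ∈ Bs G r ∧ θ z ∈ S z) ∧
      (∀ z ∈ Zp G r S, ∀ z' ∈ Zp G r S, θ z = θ z' → z = z') := by
  obtain ⟨θ, h1, h2⟩ := C.hP.inj (Zp G r S) (Bs G r) (fun x hx => Zs_ne (mem_Zp.1 hx).1) (by
    intro x hx
    have h3 := (mem_Zp.1 hx).2.2
    refine le_trans (Finset.card_le_card ?_) h3
    intro w hw
    rw [mem_inter] at hw ⊢
    exact ⟨hw.1, (mem_Zp.1 hw.2).1⟩)
  exact ⟨θ, h1, h2⟩

theorem Ctx.ys_adj (C : Ctx G k r S) {z : V} (hz : z ∈ Zs G r) : G.Adj (ys G r (S z)) z := by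
  have hzr := Zs_ne hz
  rcases C.hP.cases C.h4 hzr (C.hP.mem z hzr) with h | h
  · exact absurd (mem_Ns.1 h.1) (mem_Zs.1 hz).2
  · exact h.2

theorem Ctx.Zg_inj (C : Ctx G k r S) {z z' : V} (hz : z ∈ Zg G r S) (hz' : z' ∈ Zg G r S)
    (h : ys G r (S z) = ys G r (S z')) : z = z' := by
  have h1 := mem_Zg.1 hz
  have h2 := mem_Zg.1 hz'
  have hzr := Zs_ne h1.1
  have hzr' := Zs_ne h2.1
  obtain ⟨h3, -, -⟩ := C.hP.ys_mem hzr
  obtain ⟨h4, -, -⟩ := C.hP.ys_mem hzr'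
  have h5 : S z = S z' := by
    rw [← C.hP.eq z _ h3, ← C.hP.eq z' _ h4, h]
  exact Finset.card_le_one.1 h1.2.2 z (mem_inter.2 ⟨C.hP.mem z hzr, h1.1⟩) z'
    (mem_inter.2 ⟨by rw [h5]; exact C.hP.mem z' hzr', h2.1⟩)

/-- **Case I.** -/
theorem Ctx.caseI (C : Ctx G k r S) (hG : ¬ Good G k)
    (hT : ∀ t, 1 ≤ t → (Zlt G r S t).card ≤ (Nlt G r t).card) : False := by
  classical
  apply hG
  obtain ⟨θ, hθ, hθi⟩ := C.exists_base
  -- the partial assignment
  let φ₀ : V → V := fun z => if z ∈ Zp G r S then θ z else ys G r (S z)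
  have hφp : ∀ z ∈ Zp G r S, φ₀ z = θ z := fun z hz => if_pos hz
  have hφg : ∀ z ∈ Zg G r S, φ₀ z = ys G r (S z) := by
    intro z hz
    refine if_neg fun h => ?_
    obtain ⟨y, hy, hyB⟩ := (mem_Zp.1 h).2.1
    exact (mem_Zg.1 hz).2.1 y hy hyB
  have hlv : ∀ z ∈ Zp G r S ∪ Zg G r S, φ₀ z ∈ Ns G r ∧ lv G r (φ₀ z) = el G r S z := by
    intro z hz
    rcases mem_union.1 hz with h | h
    · rw [hφp z h]
      have h1 := mem_Bs'.1 (hθ z h).1
      refine ⟨mem_Ns.2 h1.1, ?_⟩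
      rw [h1.2]
      exact ((C.hP.level_zero (Zs_ne (mem_Zp.1 h).1)).2 (mem_Zp.1 h).2.1).symm
    · rw [hφg z h]
      obtain ⟨h1, h2, -⟩ := C.hP.ys_mem (Zs_ne (mem_Zg.1 h).1)
      exact ⟨h2, rfl⟩
  have hinj : ∀ z ∈ Zp G r S ∪ Zg G r S, ∀ z' ∈ Zp G r S ∪ Zg G r S, φ₀ z = φ₀ z' → z = z' := by
    intro z hz z' hz' h
    rcases mem_union.1 hz with h1 | h1 <;> rcases mem_union.1 hz' with h2 | h2
    · rw [hφp z h1, hφp z' h2] at h
      exact hθi z h1 z' h2 h
    · exfalso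
      rw [hφp z h1, hφg z' h2] at h
      obtain ⟨h3, -, -⟩ := C.hP.ys_mem (Zs_ne (mem_Zg.1 h2).1)
      refine (mem_Zg.1 h2).2.1 _ h3 ?_
      rw [← h]
      exact (hθ z h1).1
    · exfalso
      rw [hφg z h1, hφp z' h2] at h
      obtain ⟨h3, -, -⟩ := C.hP.ys_mem (Zs_ne (mem_Zg.1 h1).1)
      refine (mem_Zg.1 h1).2.1 _ h3 ?_
      rw [h]
      exact (hθ z' h2).1
    · rw [hφg z h1, hφg z' h2] at h
      exact C.Zg_inj h1 h2 h
  let t : V → Finset V := fun z =>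
    if z ∈ Zp G r S ∪ Zg G r S then {φ₀ z} else Nlt G r (el G r S z + 1)
  have hHall : ∀ X : Finset V, X ⊆ Zs G r → X.card ≤ (X.biUnion t).card := by
    intro X hX
    by_cases hXu : ∀ z ∈ X, z ∈ Zp G r S ∪ Zg G r S
    · have h1 : X.image φ₀ ⊆ X.biUnion t := by
        intro y hy
        obtain ⟨z, hz, rfl⟩ := mem_image.1 hy
        refine mem_biUnion.2 ⟨z, hz, ?_⟩
        simp only [t]
        rw [if_pos (hXu z hz)]
        exact mem_singleton_self _
      have h2 := Finset.card_le_card h1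
      rwa [Finset.card_image_of_injOn (fun z hz z' hz' h =>
        hinj z (hXu z hz) z' (hXu z' hz') h)] at h2
    · push Not at hXu
      obtain ⟨z0, hz0, hz0'⟩ := hXu
      have hne : (X.filter fun z => z ∉ Zp G r S ∪ Zg G r S).Nonempty :=
        ⟨z0, mem_filter.2 ⟨hz0, hz0'⟩⟩
      obtain ⟨z1, hz1, hmax⟩ := Finset.exists_max_image _ (el G r S) hne
      rw [mem_filter] at hz1
      set m := el G r S z1 with hm
      let Xh : Finset V := X.filter fun z => m < el G r S z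
      have hXh : ∀ z ∈ Xh, z ∈ Zp G r S ∪ Zg G r S := by
        intro z hz
        by_contra h
        have h1 := hmax z (mem_filter.2 ⟨(mem_filter.1 hz).1, h⟩)
        have h2 := (mem_filter.1 hz).2
        omega
      have h1 : Nlt G r (m + 1) ∪ Xh.image φ₀ ⊆ X.biUnion t := by
        intro y hy
        rcases mem_union.1 hy with h | h
        · refine mem_biUnion.2 ⟨z1, hz1.1, ?_⟩
          simp only [t]
          rw [if_neg hz1.2]
          exact h
        · obtain ⟨z, hz, rfl⟩ := mem_image.1 h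
          refine mem_biUnion.2 ⟨z, (mem_filter.1 hz).1, ?_⟩
          simp only [t]
          rw [if_pos (hXh z hz)]
          exact mem_singleton_self _
      have h2 : Disjoint (Nlt G r (m + 1)) (Xh.image φ₀) := by
        rw [disjoint_left]
        intro y hy hy'
        obtain ⟨z, hz, rfl⟩ := mem_image.1 hy'
        have h3 := (hlv z (hXh z hz)).2
        have h4 := (mem_Nlt.1 hy).2
        have h5 := (mem_filter.1 hz).2
        omega
      have h3 := Finset.card_le_card h1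
      rw [Finset.card_union_of_disjoint h2, Finset.card_image_of_injOn (fun z hz z' hz' h =>
        hinj z (hXh z hz) z' (hXh z' hz') h)] at h3
      have h4 : X ⊆ Zlt G r S (m + 1) ∪ Xh := by
        intro z hz
        by_cases h5 : m < el G r S z
        · exact mem_union_right _ (mem_filter.2 ⟨hz, h5⟩)
        · exact mem_union_left _ (mem_Zlt.2 ⟨hX hz, by omega⟩)
      have h5 := (Finset.card_le_card h4).trans (Finset.card_union_le _ _)
      have h6 := hT (m + 1) (by omega)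
      omega
  have hHall' : ∀ s : Finset {z // z ∈ Zs G r}, s.card ≤ (s.biUnion fun z => t z.1).card := by
    intro s
    have h1 := hHall (s.image Subtype.val) (by
      intro z hz
      obtain ⟨w, -, rfl⟩ := mem_image.1 hz
      exact w.2)
    rw [Finset.card_image_of_injective _ Subtype.val_injective] at h1
    refine h1.trans (Finset.card_le_card ?_)
    intro y hy
    obtain ⟨z, hz, hyz⟩ := mem_biUnion.1 hy
    obtain ⟨w, hw, rfl⟩ := mem_image.1 hz
    exact mem_biUnion.2 ⟨w, hw, hyz⟩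
  obtain ⟨f, hf, hft⟩ := (Finset.all_card_le_biUnion_card_iff_exists_injective
    (fun z : {z // z ∈ Zs G r} => t z.1)).1 hHall'
  have hprop : ∀ z : {z // z ∈ Zs G r}, G.Adj r (f z) ∧ G.Adj z.1 (f z) ∧
      dg G z.1 + dg G (f z) ≤ k + 2 := by
    intro z
    have h1 := hft z
    have hz := z.2
    have hzr := Zs_ne hz
    obtain ⟨hy1, hy2, hy3⟩ := C.hP.ys_mem hzr
    simp only [t] at h1
    by_cases h2 : z.1 ∈ Zp G r S ∪ Zg G r S
    · rw [if_pos h2, mem_singleton] at h1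
      rcases mem_union.1 h2 with h3 | h3
      · rw [h1, hφp _ h3]
        obtain ⟨h4, h5⟩ := hθ _ h3
        exact ⟨(mem_Bs.1 h4).1, (Bs_complete C.h4 h4 (Zs_disj_Bs hz)).symm,
          C.pair_mix h5 h4 (C.hP.mem _ hzr) (Zs_disj_Bs hz)⟩
      · rw [h1, hφg _ h3]
        refine ⟨mem_Ns.1 hy2, (C.ys_adj hz).symm, ?_⟩
        exact C.pair_A (mem_Zg.1 h3).2.1 (C.hP.mem _ hzr) hy1 (C.ys_adj hz).ne.symm
    · rw [if_neg h2, mem_Nlt] at h1
      rw [mem_union, not_or] at h2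
      refine ⟨mem_Ns.1 h1.1, ?_, ?_⟩
      · exact (adj_of_le C.h4 h1.1 hy2 hz (by have := h1.2; unfold el at this; omega)
          (C.ys_adj hz)).symm
      · refine C.univ_of hG (el G r S z.1 + 1) (fun t ht _ => hT t ht) hz h2.1 h2.2
          (by omega) _ ?_
        rintro h3
        rw [h3] at h1
        exact G.loopless.irrefl _ (mem_Ns.1 h1.1)
  refine ⟨r, fun z => if h : z ∈ Zs G r then f ⟨z, h⟩ else r, ⟨?_, ?_, ?_, ?_, ?_⟩⟩
  · intro v hv
    exact C.deg_le hv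
  · intro z hz hz'
    have h := mem_Zs.2 ⟨hz, hz'⟩
    simp only [dif_pos h]
    exact (hprop ⟨z, h⟩).1
  · intro z hz hz'
    have h := mem_Zs.2 ⟨hz, hz'⟩
    simp only [dif_pos h]
    exact (hprop ⟨z, h⟩).2.1
  · intro z hz hz'
    have h := mem_Zs.2 ⟨hz, hz'⟩
    simp only [dif_pos h]
    exact (hprop ⟨z, h⟩).2.2
  · intro z z' hz hz1 hz' hz1' h2
    have h := mem_Zs.2 ⟨hz, hz1⟩
    have h' := mem_Zs.2 ⟨hz', hz1'⟩
    simp only [dif_pos h, dif_pos h'] at h2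
    exact congrArg Subtype.val (hf h2)

/-- **Case II.** -/
theorem Ctx.caseII (C : Ctx G k r S) (hG : ¬ Good G k) (T : ℕ) (hT1 : 1 ≤ T)
    (hT : ∀ t, 1 ≤ t → t < T → (Zlt G r S t).card ≤ (Nlt G r t).card)
    (hbad : (Nlt G r T).card < (Zlt G r S T).card) : False := by
  classical
  obtain ⟨θ, hθ, hθi⟩ := C.exists_base
  have huniv : ∀ z ∈ Zlt G r S T, z ∉ Zp G r S → z ∉ Zg G r S →
      ∀ x, x ≠ r → dg G z + dg G x ≤ k + 2 := fun z hz h1 h2 =>
    C.univ_of hG T hT (mem_Zlt.1 hz).1 h1 h2 (mem_Zlt.1 hz).2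
  set U : Finset V := (Zlt G r S T \ Zp G r S) \ Zg G r S with hU
  have hUmem : ∀ z ∈ U, z ∈ Zs G r ∧ z ∉ Zp G r S ∧ ∀ x, x ≠ r → dg G z + dg G x ≤ k + 2 := by
    intro z hz
    rw [hU, mem_sdiff, mem_sdiff] at hz
    exact ⟨(mem_Zlt.1 hz.1.1).1, hz.1.2, huniv z hz.1.1 hz.1.2 hz.2⟩
  -- counting
  have hBN : Bs G r ⊆ Nlt G r T := by
    intro w hw
    have := mem_Bs'.1 hw
    exact mem_Nlt.2 ⟨mem_Ns.2 this.1, by omega⟩
  have hg : (Zlt G r S T ∩ Zg G r S).card ≤ (Nlt G r T \ Bs G r).card := by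
    refine Finset.card_le_card_of_injOn (fun z => ys G r (S z)) ?_ ?_
    · intro z hz
      rw [mem_coe, mem_inter] at hz
      obtain ⟨h1, h2, -⟩ := C.hP.ys_mem (Zs_ne (mem_Zg.1 hz.2).1)
      exact mem_coe.2 (mem_sdiff.2 ⟨mem_Nlt.2 ⟨h2, (mem_Zlt.1 hz.1).2⟩,
        (mem_Zg.1 hz.2).2.1 _ h1⟩)
    · intro z hz z' hz' h
      rw [mem_coe, mem_inter] at hz hz'
      exact C.Zg_inj hz.2 hz'.2 h
  have hg2 := Finset.card_sdiff_add_card_eq_card hBN
  have hcount : Zlt G r S T ⊆ U ∪ (Zp G r S ∪ (Zlt G r S T ∩ Zg G r S)) := by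
    intro z hz
    by_cases h1 : z ∈ Zp G r S
    · exact mem_union_right _ (mem_union_left _ h1)
    · by_cases h2 : z ∈ Zg G r S
      · exact mem_union_right _ (mem_union_right _ (mem_inter.2 ⟨hz, h2⟩))
      · exact mem_union_left _ (mem_sdiff.2 ⟨mem_sdiff.2 ⟨hz, h1⟩, h2⟩)
  have hc1 := Finset.card_le_card hcount
  have hc2 := Finset.card_union_le U (Zp G r S ∪ (Zlt G r S T ∩ Zg G r S))
  have hc3 := Finset.card_union_le (Zp G r S) (Zlt G r S T ∩ Zg G r S)
  have hkey : (Bs G r).card + 1 ≤ U.card + (Zp G r S).card := by omega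
  -- the image of θ
  set B1 : Finset V := (Zp G r S).image θ with hB1
  have hB1c : B1.card = (Zp G r S).card :=
    Finset.card_image_of_injOn fun z hz z' hz' h => hθi z hz z' hz' h
  have hB1s : B1 ⊆ Bs G r := by
    intro y hy
    obtain ⟨z, hz, rfl⟩ := mem_image.1 hy
    exact (hθ z hz).1
  have hB2 := Finset.card_sdiff_add_card_eq_card hB1s
  have hle : (Bs G r \ B1).card ≤ U.card := by omega
  have hUne : U.Nonempty := by
    rw [← card_pos]
    omega
  have : Nonempty V := ⟨r⟩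
  obtain ⟨η, hη, hηi⟩ := (Bs G r \ B1).finite_toSet.exists_injOn_of_encard_le
    (t := (↑U : Set V)) (by
      rw [Set.encard_coe_eq_coe_finsetCard, Set.encard_coe_eq_coe_finsetCard]
      exact_mod_cast hle)
  have hex : ∀ y, ∃ z, y ∈ B1 → z ∈ Zp G r S ∧ θ z = y := by
    intro y
    by_cases hy : y ∈ B1
    · obtain ⟨z, hz, h⟩ := mem_image.1 hy
      exact ⟨z, fun _ => ⟨hz, h⟩⟩
    · exact ⟨r, fun h => absurd h hy⟩
  choose ι hι using hex
  let ψ : V → V := fun y => if y ∈ B1 then ι y else η y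
  have hψ : ∀ y ∈ Bs G r, ψ y ∈ Zs G r ∧ dg G y + dg G (ψ y) ≤ k + 2 := by
    intro y hy
    by_cases h : y ∈ B1
    · have h1 : ψ y = ι y := if_pos h
      obtain ⟨h2, h3⟩ := hι y h
      rw [h1]
      have h4 := (mem_Zp.1 h2).1
      refine ⟨h4, ?_⟩
      have h5 := (hθ _ h2).2
      rw [h3] at h5
      have := C.pair_mix h5 hy (C.hP.mem _ (Zs_ne h4)) (Zs_disj_Bs h4)
      omega
    · have h1 : ψ y = η y := if_neg h
      have h2 : η y ∈ U := hη (mem_coe.2 (mem_sdiff.2 ⟨hy, h⟩))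
      rw [h1]
      obtain ⟨h3, -, h4⟩ := hUmem _ h2
      refine ⟨h3, ?_⟩
      have := h4 y (by
        rintro rfl
        exact r_notMem_Bs hy)
      omega
  have hψi : ∀ y ∈ Bs G r, ∀ y' ∈ Bs G r, ψ y = ψ y' → y = y' := by
    intro y hy y' hy' h
    by_cases h1 : y ∈ B1 <;> by_cases h2 : y' ∈ B1
    · have e1 : ψ y = ι y := if_pos h1
      have e2 : ψ y' = ι y' := if_pos h2
      rw [e1, e2] at h
      rw [← (hι y h1).2, ← (hι y' h2).2, h]
    · have e1 : ψ y = ι y := if_pos h1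
      have e2 : ψ y' = η y' := if_neg h2
      rw [e1, e2] at h
      have h3 : η y' ∈ U := hη (mem_coe.2 (mem_sdiff.2 ⟨hy', h2⟩))
      rw [← h] at h3
      exact absurd (hι y h1).1 (hUmem _ h3).2.1
    · have e1 : ψ y = η y := if_neg h1
      have e2 : ψ y' = ι y' := if_pos h2
      rw [e1, e2] at h
      have h3 : η y ∈ U := hη (mem_coe.2 (mem_sdiff.2 ⟨hy, h1⟩))
      rw [h] at h3
      exact absurd (hι y' h2).1 (hUmem _ h3).2.1
    · have e1 : ψ y = η y := if_neg h1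
      have e2 : ψ y' = η y' := if_neg h2
      rw [e1, e2] at h
      exact hηi (mem_coe.2 (mem_sdiff.2 ⟨hy, h1⟩)) (mem_coe.2 (mem_sdiff.2 ⟨hy', h2⟩)) h
  -- the root
  obtain ⟨y0, hy0⟩ : (Bs G r).Nonempty := by
    rw [← card_pos]
    have := C.b3
    omega
  have hy0r : y0 ≠ r := by
    rintro rfl
    exact r_notMem_Bs hy0
  have hn : Fintype.card V ≤ k + 2 := by
    obtain ⟨z, hz⟩ := hUne
    obtain ⟨h1, -, h2⟩ := hUmem z hz
    have h3 := h2 y0 hy0r
    have h4 := C.dg_ge_A (Zs_disj_Bs h1)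
    have h5 := C.dg_ge_B hy0
    have h6 := card_B_add (G := G) (r := r)
    omega
  apply hG
  refine ⟨y0, ψ, ⟨?_, ?_, ?_, ?_, ?_⟩⟩
  · intro v _
    have := C.dg_le v
    omega
  · intro z _ hz
    exact Bs_complete C.h4 hy0 (Zs_disj_Bs (hψ z (C.nonnbr_B hy0 hz)).1)
  · intro z _ hz
    exact Bs_complete C.h4 (C.nonnbr_B hy0 hz) (Zs_disj_Bs (hψ z (C.nonnbr_B hy0 hz)).1)
  · intro z _ hz
    exact (hψ z (C.nonnbr_B hy0 hz)).2
  · intro z z' _ hz _ hz' h
    exact hψi z (C.nonnbr_B hy0 hz) z' (C.nonnbr_B hy0 hz') h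

/-- **The main case.** -/
theorem Ctx.good (C : Ctx G k r S) : Good G k := by
  classical
  by_contra hG
  by_cases h : ∀ t, 1 ≤ t → (Zlt G r S t).card ≤ (Nlt G r t).card
  · exact C.caseI hG h
  · push Not at h
    have hex : ∃ t, 1 ≤ t ∧ (Nlt G r t).card < (Zlt G r S t).card := h
    refine C.caseII hG (Nat.find hex) (Nat.find_spec hex).1 ?_ (Nat.find_spec hex).2
    intro t ht htT
    have := Nat.find_min hex htT
    by_contra h1
    exact this ⟨ht, by omega⟩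

end Pool.Agent.H225R2.STC
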