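import Mathlib

/-!
# Spanning tree congestion on cographs: definitions
-/

namespace Pool.Agent.H225R2.STC

open Finset

/-- A cograph: a graph with no induced path on four vertices. -/
def IsCograph {V : Type} (G : SimpleGraph V) : Prop := IsEmpty (SimpleGraph.pathGraph 4 ↪g G)

/-- The congestion of the edge `e` of the spanning tree `T` of `G`: the number of edges of `G` whose
two ends lie in different components of `T - e`. -/
noncomputable def cng {V : Type} (G T : SimpleGraph V) (e : Sym2 V) : ℕ :=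
  {f ∈ G.edgeSet | ∃ x y, f = s(x, y) ∧ ¬ (T.deleteEdges {e}).Reachable x y}.ncard

/-- The congestion of the spanning tree `T` of `G`: the maximum congestion of its edges (`0` when
`T` has no edges). -/
noncomputable def ec {V : Type} (G T : SimpleGraph V) : ℕ := sSup (cng G T '' T.edgeSet)

variable {V : Type} [Fintype V] [DecidableEq V]

/-- No induced path on four vertices, elementary form. -/
def P4F (G : SimpleGraph V) : Prop :=
  ∀ a b c d, G.Adj a b → G.Adj b c → G.Adj c d → ¬ G.Adj a c → ¬ G.Adj b d → ¬ G.Adj a d → False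

/-- Connectedness of `G` restricted to `H`, by cuts. -/
def ConnOn (G : SimpleGraph V) (H : Finset V) : Prop :=
  ∀ X ⊆ H, X.Nonempty → X ≠ H → ∃ x ∈ X, ∃ y ∈ H \ X, G.Adj x y

open scoped Classical in
/-- The number of neighbours of `x` in `Y`. -/
noncomputable def dI (G : SimpleGraph V) (x : V) (Y : Finset V) : ℕ := (Y.filter fun y => G.Adj x y).card

/-- The degree. -/
noncomputable def dg (G : SimpleGraph V) (x : V) : ℕ := dI G x univ

/-- The number of edges between `X` and its complement. -/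
noncomputable def cut (G : SimpleGraph V) (X : Finset V) : ℕ := ∑ x ∈ X, dI G x Xᶜ

/-- The system of components of `T - r`, for a spanning tree `T` of congestion at most `k`, where
`r` is a centroid of `T`; `S v` is the component of `v` (and `S r = ∅`). -/
structure Parts (G : SimpleGraph V) (k : ℕ) (r : V) (S : V → Finset V) : Prop where
  mem : ∀ v, v ≠ r → v ∈ S v
  root : ∀ v, r ∉ S v
  eq : ∀ v w, w ∈ S v → S w = S v
  half : ∀ v, 2 * (S v).card ≤ Fintype.card V
  cut_le : ∀ v, cut G (S v) ≤ k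
  conn : ∀ v, ConnOn G (S v)
  nbr : ∀ v, v ≠ r → ∃ c ∈ S v, G.Adj r c

/-- A spider tree with root `ρ`: the neighbours of `ρ` are its children, and the non-neighbours
`z` of `ρ` are matched with neighbours `φ z` of `ρ`; all congestions are at most `k`. -/
structure Spider (G : SimpleGraph V) (k : ℕ) (ρ : V) (φ : V → V) : Prop where
  deg : ∀ v, v ≠ ρ → dg G v ≤ k
  adj : ∀ z, z ≠ ρ → ¬ G.Adj ρ z → G.Adj ρ (φ z)
  adj' : ∀ z, z ≠ ρ → ¬ G.Adj ρ z → G.Adj z (φ z)
  cost : ∀ z, z ≠ ρ → ¬ G.Adj ρ z → dg G z + dg G (φ z) ≤ k + 2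
  inj : ∀ z z', z ≠ ρ → ¬ G.Adj ρ z → z' ≠ ρ → ¬ G.Adj ρ z' → φ z = φ z' → z = z'

/-- Some spider tree has congestion at most `k`. -/
def Good (G : SimpleGraph V) (k : ℕ) : Prop := ∃ ρ φ, Spider G k ρ φ

/-- The exceptional graphs: two nonadjacent vertices joined to all vertices of a disconnected
graph. -/
def Exc (G : SimpleGraph V) (u v : V) : Prop :=
  u ≠ v ∧ ¬ G.Adj u v ∧ (∀ w, w ≠ u → w ≠ v → G.Adj u w ∧ G.Adj v w) ∧
    ¬ ConnOn G (univ \ {u, v})

/-- `x` and the root `ρ` have a common neighbour outside `{u, v}`. -/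
def Near (G : SimpleGraph V) (ρ u v x : V) : Prop :=
  ∃ y, G.Adj ρ y ∧ G.Adj x y ∧ y ≠ u ∧ y ≠ v

/-- The generalised spider trees: the non-neighbours `z` of `ρ` having a common neighbour with `ρ`
outside `{u, v}` are matched with such common neighbours, the others are children of `u`.
(For `u = v = ρ` this is the usual spider.) -/
structure GSpider (G : SimpleGraph V) (k : ℕ) (ρ u v : V) (φ : V → V) : Prop where
  deg : ∀ x, x ≠ ρ → dg G x ≤ k
  adj : ∀ z, z ≠ ρ → ¬ G.Adj ρ z → Near G ρ u v z →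
    G.Adj ρ (φ z) ∧ G.Adj z (φ z) ∧ φ z ≠ u ∧ φ z ≠ v
  cost : ∀ z, z ≠ ρ → ¬ G.Adj ρ z → Near G ρ u v z → dg G z + dg G (φ z) ≤ k + 2
  inj : ∀ z z', z ≠ ρ → ¬ G.Adj ρ z → Near G ρ u v z → z' ≠ ρ → ¬ G.Adj ρ z' →
    Near G ρ u v z' → φ z = φ z' → z = z'
  far : ∀ z, z ≠ ρ → ¬ G.Adj ρ z → ¬ Near G ρ u v z → G.Adj ρ u ∧ G.Adj z u
  farcut : ∀ D : Finset V, G.Adj ρ u →
    (∀ x, x ∈ D ↔ x = u ∨ (x ≠ ρ ∧ ¬ G.Adj ρ x ∧ ¬ Near G ρ u v x)) → cut G D ≤ k

/-- A parent function of depth at most two with root `ρ`. -/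
structure IsPar (G : SimpleGraph V) (ρ : V) (p : V → V) : Prop where
  adj : ∀ x, x ≠ ρ → G.Adj x (p x)
  depth : ∀ x, x ≠ ρ → p x = ρ ∨ p (p x) = ρ
  root : p ρ = ρ

/-- The children of `x` under the parent function `p`, together with `x`. -/
def dn (ρ : V) (p : V → V) (x : V) : Finset V := univ.filter fun w => w = x ∨ (w ≠ ρ ∧ p w = x)

/-- The graph of a parent function. -/
def parGraph (ρ : V) (p : V → V) : SimpleGraph V where
  Adj x y := x ≠ y ∧ ((x ≠ ρ ∧ p x = y) ∨ (y ≠ ρ ∧ p y = x))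
  symm := ⟨fun _ _ h => ⟨h.1.symm, h.2.symm⟩⟩
  loopless := ⟨fun _ h => h.1 rfl⟩

end Pool.Agent.H225R2.STC
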