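import Pool.Agent.H225R2.STC.Algo

/-!
# Spanning tree congestion on cographs: the greedy matching
-/

namespace Pool.Agent.H225R2.STC

theorem gstep_spec {α : Type} [DecidableEq α] (N : List α) (ok : α → α → Bool) (wt : α → ℕ)
    (s : List (α × α)) (z y : α) (hy : y ∈ N) (hok : ok z y = true)
    (hun : ∀ q ∈ s, q.2 ≠ y) :
    ∃ y₀ ∈ N, ok z y₀ = true ∧ (∀ q ∈ s, q.2 ≠ y₀) ∧ wt y ≤ wt y₀ ∧
      gstep N ok wt s z = (z, y₀) :: s := by
  have hav : ∀ y', (ok z y' && !(s.any fun q => decide (q.2 = y'))) = true ↔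
      ok z y' = true ∧ ∀ q ∈ s, q.2 ≠ y' := by
    intro y'
    simp
  obtain ⟨y₁, hy₁, hmax⟩ := Finset.exists_max_image
    (N.toFinset.filter fun y' => ok z y' = true ∧ ∀ q ∈ s, q.2 ≠ y') wt
    ⟨y, by rw [Finset.mem_filter, List.mem_toFinset]; exact ⟨hy, hok, hun⟩⟩
  rw [Finset.mem_filter, List.mem_toFinset] at hy₁
  set F := N.filter fun y => (ok z y && !(s.any fun q => decide (q.2 = y))) &&
      N.all fun y' => !(ok z y' && !(s.any fun q => decide (q.2 = y'))) ||
        decide (wt y' ≤ wt y) with hF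
  have hmemF : ∀ x, x ∈ F ↔ x ∈ N ∧ (ok z x = true ∧ ∀ q ∈ s, q.2 ≠ x) ∧
      ∀ y' ∈ N, (ok z y' = true ∧ ∀ q ∈ s, q.2 ≠ y') → wt y' ≤ wt x := by
    intro x
    rw [hF, List.mem_filter, Bool.and_eq_true, hav, List.all_eq_true]
    refine and_congr_right fun _ => and_congr_right fun _ => ?_
    refine forall_congr' fun y' => imp_congr_right fun _ => ?_
    rw [Bool.or_eq_true, Bool.not_eq_true', ← Bool.not_eq_true, hav, decide_eq_true_iff]
    tauto
  have hy₁F : y₁ ∈ F := by
    rw [hmemF]
    refine ⟨hy₁.1, hy₁.2, ?_⟩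
    intro y' h1 h2
    exact hmax y' (by rw [Finset.mem_filter, List.mem_toFinset]; exact ⟨h1, h2⟩)
  obtain ⟨y₀, hy₀⟩ : ∃ y₀, F.head? = some y₀ := by
    cases hFc : F with
    | nil => rw [hFc] at hy₁F; simp at hy₁F
    | cons a l => exact ⟨a, rfl⟩
  have hmem : y₀ ∈ F := List.mem_of_head? hy₀
  rw [hmemF] at hmem
  refine ⟨y₀, hmem.1, hmem.2.1.1, hmem.2.1.2, hmem.2.2 y hy ⟨hok, hun⟩, ?_⟩
  unfold gstep
  rw [← hF, hy₀]

theorem greedy_aux {α : Type} [DecidableEq α] (N : List α) (ok : α → α → Bool) (wt : α → ℕ)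
    (L : List α) : ∀ (s : List (α × α)) (_ : L.Nodup)
    (_ : L.Pairwise fun z z' => ∀ y ∈ N, ∀ y' ∈ N, ok z y = true → ok z' y' = true →
      wt y ≤ wt y' → ok z' y = true)
    (φ : α → α) (_ : ∀ z ∈ L, φ z ∈ N) (_ : ∀ z ∈ L, ok z (φ z) = true)
    (_ : ∀ z ∈ L, ∀ z' ∈ L, φ z = φ z' → z = z') (_ : ∀ z ∈ L, ∀ q ∈ s, q.2 ≠ φ z),
    ∃ ψ : α → α, (∀ z ∈ L, ψ z ∈ N ∧ ok z (ψ z) = true ∧ ∀ q ∈ s, q.2 ≠ ψ z) ∧
      (∀ z ∈ L, ∀ z' ∈ L, ψ z = ψ z' → z = z') ∧
      ∀ q, q ∈ L.foldl (gstep N ok wt) s ↔ q ∈ s ∨ (q.1 ∈ L ∧ q.2 = ψ q.1) := by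
  induction L with
  | nil =>
    intro s _ _ φ _ _ _ _
    exact ⟨id, by simp, by simp, by simp⟩
  | cons z L ih =>
    intro s hnd hmono φ hN hok hinj hun
    rw [List.nodup_cons] at hnd
    rw [List.pairwise_cons] at hmono
    obtain ⟨y₀, h1, h2, h3, h4, h5⟩ := gstep_spec N ok wt s z (φ z) (hN z List.mem_cons_self)
      (hok z List.mem_cons_self) (hun z List.mem_cons_self)
    have hzne : ∀ x ∈ L, x ≠ z := by
      rintro x hx rfl
      exact hnd.1 hx
    obtain ⟨ψ, g1, g2, g3⟩ := ih ((z, y₀) :: s) hnd.2 hmono.2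
      (fun x => if φ x = y₀ then φ z else φ x)
      (by
        intro x hx
        by_cases h : φ x = y₀
        · simp only [h, if_true]; exact hN z List.mem_cons_self
        · simp only [h, if_false]; exact hN x (List.mem_cons_of_mem _ hx))
      (by
        intro x hx
        by_cases h : φ x = y₀
        · simp only [h, if_true]
          exact hmono.1 x hx (φ z) (hN z List.mem_cons_self) y₀ h1 (hok z List.mem_cons_self)
            (h ▸ hok x (List.mem_cons_of_mem _ hx)) h4
        · simp only [h, if_false]; exact hok x (List.mem_cons_of_mem _ hx))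
      (by
        intro x hx x' hx' heq
        by_cases h : φ x = y₀ <;> by_cases h' : φ x' = y₀
        · exact hinj x (List.mem_cons_of_mem _ hx) x' (List.mem_cons_of_mem _ hx')
            (h.trans h'.symm)
        · simp only [h, h', if_true, if_false] at heq
          exact absurd (hinj z List.mem_cons_self x' (List.mem_cons_of_mem _ hx') heq).symm
            (hzne x' hx')
        · simp only [h, h', if_true, if_false] at heq
          exact absurd (hinj x (List.mem_cons_of_mem _ hx) z List.mem_cons_self heq) (hzne x hx)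
        · simp only [h, h', if_false] at heq
          exact hinj x (List.mem_cons_of_mem _ hx) x' (List.mem_cons_of_mem _ hx') heq)
      (by
        intro x hx q hq
        rw [List.mem_cons] at hq
        by_cases h : φ x = y₀
        · simp only [h, if_true]
          rcases hq with rfl | hq
          · intro h'
            have : φ x = φ z := h.trans h'
            exact hzne x hx (hinj x (List.mem_cons_of_mem _ hx) z List.mem_cons_self this)
          · exact hun z List.mem_cons_self q hq
        · simp only [h, if_false]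
          rcases hq with rfl | hq
          · exact fun h' => h h'.symm
          · exact hun x (List.mem_cons_of_mem _ hx) q hq)
    refine ⟨fun x => if x = z then y₀ else ψ x, ?_, ?_, ?_⟩
    · intro x hx
      rw [List.mem_cons] at hx
      by_cases h : x = z
      · subst h
        simp only [if_true]
        exact ⟨h1, h2, h3⟩
      · simp only [h, if_false]
        obtain ⟨k1, k2, k3⟩ := g1 x (hx.resolve_left h)
        exact ⟨k1, k2, fun q hq => k3 q (List.mem_cons_of_mem _ hq)⟩
    · intro x hx x' hx' heq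
      rw [List.mem_cons] at hx hx'
      by_cases h : x = z <;> by_cases h' : x' = z
      · rw [h, h']
      · simp only [h, h', if_true, if_false] at heq
        exact absurd heq ((g1 x' (hx'.resolve_left h')).2.2 (z, y₀) List.mem_cons_self)
      · simp only [h, h', if_true, if_false] at heq
        exact absurd heq.symm ((g1 x (hx.resolve_left h)).2.2 (z, y₀) List.mem_cons_self)
      · simp only [h, h', if_false] at heq
        exact g2 x (hx.resolve_left h) x' (hx'.resolve_left h') heq
    · intro q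
      rw [List.foldl_cons, h5, g3, List.mem_cons, List.mem_cons]
      by_cases h : q.1 = z
      · have hq : q.1 ∉ L := fun hq => hzne _ hq h
        simp only [h, if_true, true_or, true_and]
        constructor
        · rintro ((rfl | h6) | h6)
          · exact Or.inr rfl
          · exact Or.inl h6
          · exact absurd h6.1 hnd.1
        · rintro (h6 | h6)
          · exact Or.inl (Or.inr h6)
          · exact Or.inl (Or.inl (Prod.ext h h6))
      · simp only [h, if_false, false_or]
        have : q ≠ (z, y₀) := by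
          rintro rfl
          exact h rfl
        tauto

theorem greedy_correct {α : Type} [DecidableEq α] (N L : List α) (ok : α → α → Bool) (wt : α → ℕ)
    (hL : L.Nodup)
    (hmono : L.Pairwise fun z z' => ∀ y ∈ N, ∀ y' ∈ N, ok z y = true → ok z' y' = true →
      wt y ≤ wt y' → ok z' y = true)
    (φ : α → α) (hφN : ∀ z ∈ L, φ z ∈ N) (hφok : ∀ z ∈ L, ok z (φ z) = true)
    (hφinj : ∀ z ∈ L, ∀ z' ∈ L, φ z = φ z' → z = z') :
    ∃ ψ : α → α, (∀ z ∈ L, ψ z ∈ N ∧ ok z (ψ z) = true) ∧
      (∀ z ∈ L, ∀ z' ∈ L, ψ z = ψ z' → z = z') ∧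
      ∀ q, q ∈ greedy N L ok wt ↔ q.1 ∈ L ∧ q.2 = ψ q.1 := by
  obtain ⟨ψ, h1, h2, h3⟩ := greedy_aux N ok wt L [] hL hmono φ hφN hφok hφinj (by simp)
  refine ⟨ψ, fun z hz => ⟨(h1 z hz).1, (h1 z hz).2.1⟩, h2, ?_⟩
  intro q
  unfold greedy
  rw [h3]
  simp

end Pool.Agent.H225R2.STC
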