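import Pool.Agent.H225R2.STC.Basic

/-!
# Levels of a cograph with respect to a root
-/

namespace Pool.Agent.H225R2.STC

open Finset

set_option linter.unusedSectionVars false

variable {V : Type} [Fintype V] [DecidableEq V] {G : SimpleGraph V}

open scoped Classical in
/-- The non-neighbours of `r`. -/
noncomputable def Zs (G : SimpleGraph V) (r : V) : Finset V := univ.filter fun z => z ≠ r ∧ ¬ G.Adj r z

open scoped Classical in
/-- The neighbours of `r`. -/
noncomputable def Ns (G : SimpleGraph V) (r : V) : Finset V := univ.filter fun y => G.Adj r y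

open scoped Classical in
/-- The neighbours of `r` adjacent to all non-neighbours of `r`. -/
noncomputable def Bs (G : SimpleGraph V) (r : V) : Finset V :=
  univ.filter fun y => G.Adj r y ∧ ∀ z, z ≠ r → ¬ G.Adj r z → G.Adj y z

open scoped Classical in
/-- The level of a neighbour `y` of `r`: the number of its non-neighbours among the
non-neighbours of `r`. -/
noncomputable def lv (G : SimpleGraph V) (r y : V) : ℕ := ((Zs G r).filter fun z => ¬ G.Adj y z).card

theorem mem_Zs {r z : V} : z ∈ Zs G r ↔ z ≠ r ∧ ¬ G.Adj r z := by simp [Zs]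
theorem mem_Ns {r z : V} : z ∈ Ns G r ↔ G.Adj r z := by simp [Ns]
theorem mem_Bs {r y : V} : y ∈ Bs G r ↔ G.Adj r y ∧ ∀ z, z ≠ r → ¬ G.Adj r z → G.Adj y z := by
  simp [Bs]

theorem mem_Bs' {r y : V} : y ∈ Bs G r ↔ G.Adj r y ∧ lv G r y = 0 := by
  classical
  rw [mem_Bs]
  refine and_congr_right fun _ => ?_
  unfold lv
  rw [Finset.card_eq_zero, Finset.filter_eq_empty_iff]
  constructor
  · intro h z hz
    rw [mem_Zs] at hz
    simpa using h z hz.1 hz.2
  · intro h z hz hz'
    simpa using h (mem_Zs.2 ⟨hz, hz'⟩)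

theorem r_notMem_Bs {r : V} : r ∉ Bs G r := fun h => G.loopless.irrefl _ (mem_Bs.1 h).1

/-- every vertex is `r`, a neighbour, or a non-neighbour of `r` -/
theorem tri (r x : V) : x = r ∨ x ∈ Ns G r ∨ x ∈ Zs G r := by
  rw [mem_Ns, mem_Zs]
  by_cases h : x = r
  · exact Or.inl h
  · by_cases h' : G.Adj r x
    · exact Or.inr (Or.inl h')
    · exact Or.inr (Or.inr ⟨h, h'⟩)

/-- **Nestedness.** -/
theorem chain (h4 : P4F G) {r y y' z z' : V} (hy : y ∈ Ns G r) (hy' : y' ∈ Ns G r)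
    (hz : z ∈ Zs G r) (hz' : z' ∈ Zs G r) (h1 : ¬ G.Adj y z) (h2 : G.Adj y' z) (h3 : G.Adj y z') :
    G.Adj y' z' := by
  rw [mem_Ns] at hy hy'
  rw [mem_Zs] at hz hz'
  by_contra h5
  by_cases hzz : G.Adj z z'
  · exact h4 r y' z z' hy' h2 hzz hz.2 h5 hz'.2
  · by_cases hyy : G.Adj y y'
    · exact h4 z y' y z' h2.symm hyy.symm h3 (fun h => h1 h.symm) h5 hzz
    · exact h4 z y' r y h2.symm hy'.symm hy (fun h => hz.2 h.symm) (fun h => hyy h.symm)
        (fun h => h1 h.symm)

/-- Lower level: fewer non-neighbours (as sets). -/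
theorem lv_sub (h4 : P4F G) {r y y' z : V} (hy : y ∈ Ns G r) (hy' : y' ∈ Ns G r)
    (hz : z ∈ Zs G r) (hl : lv G r y ≤ lv G r y') (h : ¬ G.Adj y z) : ¬ G.Adj y' z := by
  classical
  intro h'
  -- then the non-neighbours of `y'` are among those of `y`, without `z`
  have hsub : ((Zs G r).filter fun z => ¬ G.Adj y' z) ⊆ ((Zs G r).filter fun z => ¬ G.Adj y z).erase z := by
    intro w hw
    rw [Finset.mem_filter] at hw
    refine Finset.mem_erase.2 ⟨?_, Finset.mem_filter.2 ⟨hw.1, ?_⟩⟩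
    · rintro rfl
      exact hw.2 h'
    · intro hyw
      exact hw.2 (chain h4 hy hy' hz hw.1 h h' hyw)
  have h1 := Finset.card_le_card hsub
  have h2 := Finset.card_erase_add_one (s := (Zs G r).filter fun z => ¬ G.Adj y z) (a := z)
    (Finset.mem_filter.2 ⟨hz, h⟩)
  have h3 : lv G r y = ((Zs G r).filter fun z => ¬ G.Adj y z).card := rfl
  have h5 : lv G r y' = ((Zs G r).filter fun z => ¬ G.Adj y' z).card := rfl
  omega

/-- Strictly lower level: some non-neighbour of `y'` is adjacent to `y`. -/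
theorem exists_of_lv_lt {r y y' : V} (hl : lv G r y < lv G r y') :
    ∃ z ∈ Zs G r, G.Adj y z ∧ ¬ G.Adj y' z := by
  classical
  by_contra hcon
  push Not at hcon
  have hsub : ((Zs G r).filter fun z => ¬ G.Adj y' z) ⊆ (Zs G r).filter fun z => ¬ G.Adj y z := by
    intro w hw
    rw [Finset.mem_filter] at hw ⊢
    exact ⟨hw.1, fun h => hw.2 (hcon w hw.1 h)⟩
  have h1 := Finset.card_le_card hsub
  have h3 : lv G r y = ((Zs G r).filter fun z => ¬ G.Adj y z).card := rfl
  have h5 : lv G r y' = ((Zs G r).filter fun z => ¬ G.Adj y' z).card := rfl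
  omega

/-- A neighbour of strictly lower level than `y` is adjacent to all neighbours of level at
least the level of `y`. -/
theorem adj_of_lv_lt (h4 : P4F G) {r w x : V} (hw : w ∈ Ns G r) (hx : x ∈ Ns G r)
    (hl : lv G r w < lv G r x) : G.Adj w x := by
  obtain ⟨z, hz, h1, h2⟩ := exists_of_lv_lt hl
  rw [mem_Ns] at hw hx
  rw [mem_Zs] at hz
  by_contra h5
  exact h4 z w r x h1.symm hw.symm hx (fun h => hz.2 h.symm) h5 (fun h => h2 h.symm)

/-- A vertex `z` adjacent to `y` is adjacent to all neighbours of level at most the level of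
`y`. -/
theorem adj_of_le (h4 : P4F G) {r w y z : V} (hw : w ∈ Ns G r) (hy : y ∈ Ns G r)
    (hz : z ∈ Zs G r) (hl : lv G r w ≤ lv G r y) (h : G.Adj y z) : G.Adj w z := by
  by_contra h1
  exact lv_sub h4 hw hy hz hl h1 h

/-- non-neighbours of `y` are not adjacent to `z' ~ y` -/
theorem not_adj_ZZ (h4 : P4F G) {r y z z' : V} (hy : y ∈ Ns G r) (hz : z ∈ Zs G r)
    (hz' : z' ∈ Zs G r) (h1 : ¬ G.Adj y z) (h2 : G.Adj y z') : ¬ G.Adj z z' := by
  intro h3
  rw [mem_Ns] at hy
  rw [mem_Zs] at hz hz'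
  exact h4 z z' y r h3 h2.symm hy.symm (fun h => h1 h.symm) (fun h => hz'.2 h.symm)
    (fun h => hz.2 h.symm)

/-- `Bs` is complete to its complement. -/
theorem Bs_complete (h4 : P4F G) {r y x : V} (hy : y ∈ Bs G r) (hx : x ∉ Bs G r) : G.Adj y x := by
  have hy' := mem_Bs'.1 hy
  rcases tri (G := G) r x with h | h | h
  · rw [h]
    exact hy'.1.symm
  · have h1 : lv G r x ≠ 0 := fun h0 => hx (mem_Bs'.2 ⟨mem_Ns.1 h, h0⟩)
    exact adj_of_lv_lt h4 (mem_Ns.2 hy'.1) h (by omega)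
  · rw [mem_Zs] at h
    exact (mem_Bs.1 hy).2 x h.1 h.2

theorem Zs_disj_Bs {r z : V} (hz : z ∈ Zs G r) : z ∉ Bs G r := fun h =>
  (mem_Zs.1 hz).2 (mem_Bs.1 h).1

/-- nonempty: in a connected cograph with `r` not universal -/
theorem Bs_nonempty (h4 : P4F G) (hc : ConnOn G univ) {r : V} (hZ : (Zs G r).Nonempty) :
    (Bs G r).Nonempty := by
  classical
  -- every non-neighbour has a common neighbour with `r`
  have hcom : ∀ z ∈ Zs G r, ∃ y ∈ Ns G r, G.Adj y z := by
    by_contra hcon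
    push Not at hcon
    obtain ⟨z, hz, hz'⟩ := hcon
    let X : Finset V := univ.filter fun z => z ∈ Zs G r ∧ ∀ y ∈ Ns G r, ¬ G.Adj y z
    have hX1 : X.Nonempty := ⟨z, by simp only [X, mem_filter, mem_univ, true_and]; exact ⟨hz, hz'⟩⟩
    have hX2 : X ≠ univ := by
      intro h
      have : r ∈ X := by rw [h]; exact mem_univ _
      simp only [X, mem_filter, mem_univ, true_and, mem_Zs] at this
      exact this.1.1 rfl
    obtain ⟨x, hx, y, hy, hxy⟩ := hc X (subset_univ _) hX1 hX2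
    have hx' := hx
    simp only [X, mem_filter, mem_univ, true_and] at hx'
    rw [mem_sdiff] at hy
    rcases tri (G := G) r y with h | h | h
    · rw [h] at hxy
      exact (mem_Zs.1 hx'.1).2 hxy.symm
    · exact hx'.2 y h hxy.symm
    · have h1 : ¬ ∀ w ∈ Ns G r, ¬ G.Adj w y := by
        intro hall
        exact hy.2 (by simp only [X, mem_filter, mem_univ, true_and]; exact ⟨h, hall⟩)
      push Not at h1
      obtain ⟨w, hw, hwy⟩ := h1
      exact not_adj_ZZ h4 hw hx'.1 h (hx'.2 w hw) hwy hxy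
  -- the neighbour of minimal level
  have hN : (Ns G r).Nonempty := by
    obtain ⟨z, hz⟩ := hZ
    obtain ⟨y, hy, -⟩ := hcom z hz
    exact ⟨y, hy⟩
  obtain ⟨y, hy, hmin⟩ := Finset.exists_min_image (Ns G r) (lv G r) hN
  refine ⟨y, mem_Bs.2 ⟨mem_Ns.1 hy, ?_⟩⟩
  intro z hz hz'
  obtain ⟨w, hw, hwz⟩ := hcom z (mem_Zs.2 ⟨hz, hz'⟩)
  exact adj_of_le h4 hy hw (mem_Zs.2 ⟨hz, hz'⟩) (hmin w hw) hwz

end Pool.Agent.H225R2.STC
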