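import Mathlib
import Pool.Agent.H225R2.STC.Defs

/-!
# Spanning tree congestion on cographs: the components of `T - r` at a centroid `r`
-/

namespace Pool.Agent.H225R2.STC

open Finset

set_option linter.unusedSectionVars false

variable {V : Type} [Fintype V] [DecidableEq V]

theorem closed_reach {T : SimpleGraph V} {P : V → Prop}
    (hP : ∀ x y, T.Adj x y → P x → P y) {a v : V} (h : T.Reachable a v) (ha : P a) : P v := by
  obtain ⟨p⟩ := h
  induction p with
  | nil => exact ha
  | cons hadj _ ih => exact ih (hP _ _ hadj ha)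

open scoped Classical in
/-- The side of `a` in `T - ab`. -/
noncomputable def side (T : SimpleGraph V) (a b : V) : Finset V :=
  univ.filter fun v => (T.deleteEdges {s(a, b)}).Reachable a v

theorem mem_side {T : SimpleGraph V} {a b v : V} :
    v ∈ side T a b ↔ (T.deleteEdges {s(a, b)}).Reachable a v := by
  unfold side
  simp

theorem self_mem_side (T : SimpleGraph V) (a b : V) : a ∈ side T a b :=
  mem_side.2 (SimpleGraph.Reachable.refl _)

theorem side_step {T : SimpleGraph V} {a b x y : V} (hx : x ∈ side T a b) (hxy : T.Adj x y)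
    (hne : s(x, y) ≠ s(a, b)) : y ∈ side T a b := by
  rw [mem_side] at hx ⊢
  refine hx.trans (SimpleGraph.Adj.reachable ?_)
  rw [SimpleGraph.deleteEdges_adj]
  exact ⟨hxy, hne⟩

theorem side_cover {T : SimpleGraph V} (hc : T.Connected) (a b v : V) :
    v ∈ side T a b ∨ v ∈ side T b a := by
  refine closed_reach (T := T) (P := fun x => x ∈ side T a b ∨ x ∈ side T b a) ?_
    (hc.preconnected a v) (Or.inl (self_mem_side T a b))
  intro x y hxy hx
  by_cases he : s(x, y) = s(a, b)
  · rw [Sym2.eq_iff] at he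
    rcases he with ⟨-, rfl⟩ | ⟨-, rfl⟩
    · exact Or.inr (self_mem_side T _ _)
    · exact Or.inl (self_mem_side T _ _)
  · rcases hx with hx | hx
    · exact Or.inl (side_step hx hxy he)
    · refine Or.inr (side_step hx hxy ?_)
      rw [Sym2.eq_swap (a := b)]
      exact he

theorem side_disj {T : SimpleGraph V} (hA : T.IsAcyclic) {a b v : V} (hab : T.Adj a b)
    (h1 : v ∈ side T a b) (h2 : v ∈ side T b a) : False := by
  have hb := (SimpleGraph.isAcyclic_iff_forall_adj_isBridge.1 hA) hab
  rw [SimpleGraph.isBridge_iff] at hb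
  rw [mem_side] at h1 h2
  rw [Sym2.eq_swap (a := b)] at h2
  exact hb (h1.trans h2.symm)

theorem side_card {T : SimpleGraph V} (hT : T.IsTree) {a b : V} (hab : T.Adj a b) :
    (side T a b).card + (side T b a).card = Fintype.card V := by
  have hd : Disjoint (side T a b) (side T b a) := by
    rw [Finset.disjoint_left]
    intro v h1 h2
    exact side_disj hT.isAcyclic hab h1 h2
  rw [← card_union_of_disjoint hd]
  have : side T a b ∪ side T b a = univ := by
    ext v
    simp only [mem_union, mem_univ, iff_true]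
    exact side_cover hT.connected a b v
  rw [this, card_univ]

theorem side_sub {T : SimpleGraph V} (hT : T.IsTree) {c r d : V} (hcr : T.Adj c r)
    (hdc : T.Adj d c) (hdr : d ≠ r) : side T d c ⊆ side T c r := by
  intro v hv
  have hv' := hv
  rw [mem_side] at hv'
  refine (closed_reach (T := T.deleteEdges {s(d, c)})
    (P := fun x => x ∈ side T c r ∧ x ∈ side T d c) ?_ hv' ⟨?_, self_mem_side T d c⟩).1
  · rintro x y hxy ⟨h1, h2⟩
    rw [SimpleGraph.deleteEdges_adj] at hxy
    have h3 : y ∈ side T d c := side_step h2 hxy.1 hxy.2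
    refine ⟨?_, h3⟩
    by_cases he : s(x, y) = s(c, r)
    · rw [Sym2.eq_iff] at he
      rcases he with ⟨rfl, rfl⟩ | ⟨rfl, rfl⟩
      · exact (side_disj hT.isAcyclic hdc h2 (self_mem_side T _ _)).elim
      · exact self_mem_side T _ _
    · exact side_step h1 hxy.1 he
  · refine side_step (self_mem_side T c r) hdc.symm ?_
    intro he
    rw [Sym2.eq_iff] at he
    rcases he with ⟨-, h⟩ | ⟨h1, -⟩
    · exact hdr h
    · exact hcr.ne h1

theorem side_card_lt {T : SimpleGraph V} (hT : T.IsTree) {c r d : V} (hcr : T.Adj c r)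
    (hdc : T.Adj d c) (hdr : d ≠ r) : (side T d c).card < (side T c r).card := by
  apply card_lt_card
  rw [Finset.ssubset_iff_of_subset (side_sub hT hcr hdc hdr)]
  exact ⟨c, self_mem_side T c r, fun h => side_disj hT.isAcyclic hdc h (self_mem_side T c d)⟩

theorem exists_centroid {T : SimpleGraph V} (hT : T.IsTree) :
    ∃ r, ∀ c, T.Adj c r → 2 * (side T c r).card ≤ Fintype.card V := by
  classical
  by_cases hH : ∃ n, ∃ c r, T.Adj c r ∧ Fintype.card V < 2 * (side T c r).card ∧
      (side T c r).card = n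
  · obtain ⟨c, r, hcr, hheavy, hn⟩ := Nat.find_spec hH
    refine ⟨c, ?_⟩
    intro d hdc
    by_cases hdr : d = r
    · subst hdr
      have := side_card hT hcr
      omega
    · by_contra hcon
      push Not at hcon
      have h1 := Nat.find_min' hH ⟨d, c, hdc, hcon, rfl⟩
      have h2 := side_card_lt hT hcr hdc hdr
      omega
  · push Not at hH
    obtain ⟨r⟩ := hT.connected.nonempty
    refine ⟨r, ?_⟩
    intro c hcr
    by_contra hcon
    push Not at hcon
    exact hH _ c r hcr hcon rfl

theorem side_exists {T : SimpleGraph V} (hT : T.IsTree) {r v : V} (hv : v ≠ r) :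
    ∃ c, T.Adj c r ∧ v ∈ side T c r := by
  have := closed_reach (T := T) (P := fun x => x = r ∨ ∃ c, T.Adj c r ∧ x ∈ side T c r) ?_
    (hT.connected.preconnected r v) (Or.inl rfl)
  · exact this.resolve_left hv
  · rintro x y hxy (rfl | ⟨c, hcr, hx⟩)
    · exact Or.inr ⟨y, hxy.symm, self_mem_side T _ _⟩
    · by_cases he : s(x, y) = s(c, r)
      · rw [Sym2.eq_iff] at he
        rcases he with ⟨-, rfl⟩ | ⟨-, rfl⟩
        · exact Or.inl rfl
        · exact Or.inr ⟨y, hcr, self_mem_side T _ _⟩
      · exact Or.inr ⟨c, hcr, side_step hx hxy he⟩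

theorem side_unique {T : SimpleGraph V} (hT : T.IsTree) {r v c c' : V} (hc : T.Adj c r)
    (hc' : T.Adj c' r) (h : v ∈ side T c r) (h' : v ∈ side T c' r) : c' = c := by
  by_contra hne
  exact side_disj hT.isAcyclic hc h (side_sub hT hc.symm hc' hne h')

theorem root_notMem_side {T : SimpleGraph V} (hT : T.IsTree) {r c : V} (hc : T.Adj c r) :
    r ∉ side T c r := fun h => side_disj hT.isAcyclic hc h (self_mem_side T r c)

theorem cut_side_le {G T : SimpleGraph V} (c r : V) : cut G (side T c r) ≤ cng G T s(c, r) := by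
  classical
  have h1 : cut G (side T c r) =
      (((side T c r) ×ˢ (side T c r)ᶜ).filter fun q => G.Adj q.1 q.2).card := by
    unfold cut dI
    rw [card_filter, sum_product]
    apply sum_congr rfl
    intro x _
    rw [card_filter]
  rw [h1]
  have hinj : Set.InjOn (fun q : V × V => s(q.1, q.2))
      (((side T c r) ×ˢ (side T c r)ᶜ).filter fun q => G.Adj q.1 q.2 : Finset (V × V)) := by
    rintro ⟨x, y⟩ hq ⟨x', y'⟩ hq' heq
    rw [mem_coe, mem_filter, mem_product, mem_compl] at hq hq'
    simp only at hq hq' heq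
    rw [Sym2.eq_iff] at heq
    rcases heq with ⟨rfl, rfl⟩ | ⟨rfl, rfl⟩
    · rfl
    · exact absurd hq.1.1 hq'.1.2
  rw [← card_image_of_injOn hinj, ← Set.ncard_coe_finset]
  unfold cng
  apply Set.ncard_le_ncard _ (Set.toFinite _)
  intro f hf
  rw [mem_coe, mem_image] at hf
  obtain ⟨⟨x, y⟩, hq, rfl⟩ := hf
  rw [mem_filter, mem_product, mem_compl] at hq
  obtain ⟨⟨hx, hy⟩, hadj⟩ := hq
  refine ⟨?_, x, y, rfl, ?_⟩
  · rw [SimpleGraph.mem_edgeSet]
    exact hadj
  · intro hr
    apply hy
    rw [mem_side] at hx ⊢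
    exact hx.trans hr

theorem connOn_side {G T : SimpleGraph V} (hTG : T ≤ G) (c r : V) : ConnOn G (side T c r) := by
  classical
  intro X hX hne hneq
  by_contra hcon
  push Not at hcon
  obtain ⟨x0, hx0⟩ := hne
  apply hneq
  apply Subset.antisymm hX
  intro y hy
  have h0 := hX hx0
  rw [mem_side] at h0 hy
  refine closed_reach (P := fun x => x ∈ X) ?_ (h0.symm.trans hy) hx0
  intro x z hxz hx
  by_contra hz
  have hxs := hX hx
  have hzs : z ∈ side T c r := by
    rw [mem_side] at hxs ⊢
    exact hxs.trans hxz.reachable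
  rw [SimpleGraph.deleteEdges_adj] at hxz
  exact hcon x hx z (mem_sdiff.2 ⟨hzs, hz⟩) (hTG hxz.1)

/-- The components of `T - r` for a centroid `r` of a spanning tree `T` of congestion `≤ k`. -/
theorem exists_parts (G T : SimpleGraph V) (hT : T ≤ G) (hTree : T.IsTree) (k : ℕ)
    (hk : ∀ e ∈ T.edgeSet, cng G T e ≤ k) : ∃ r S, Parts G k r S := by
  classical
  obtain ⟨r, hr⟩ := exists_centroid hTree
  let S : V → Finset V := fun v =>
    if h : ∃ c, T.Adj c r ∧ v ∈ side T c r then side T h.choose r else ∅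
  have hS : ∀ v c, T.Adj c r → v ∈ side T c r → S v = side T c r := by
    intro v c hc hv
    have h : ∃ c, T.Adj c r ∧ v ∈ side T c r := ⟨c, hc, hv⟩
    have h1 : S v = side T h.choose r := dif_pos h
    rw [h1, side_unique hTree hc h.choose_spec.1 hv h.choose_spec.2]
  have hS' : ∀ v, v ≠ r → ∃ c, T.Adj c r ∧ v ∈ side T c r ∧ S v = side T c r := by
    intro v hv
    obtain ⟨c, hc, hvc⟩ := side_exists hTree hv
    exact ⟨c, hc, hvc, hS v c hc hvc⟩
  have hSr : S r = ∅ := by
    apply dif_neg
    rintro ⟨c, hc, h⟩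
    exact root_notMem_side hTree hc h
  refine ⟨r, S, ?_⟩
  constructor
  · intro v hv
    obtain ⟨c, hc, hvc, h⟩ := hS' v hv
    rw [h]
    exact hvc
  · intro v
    by_cases hv : v = r
    · rw [hv, hSr]
      exact notMem_empty _
    · obtain ⟨c, hc, hvc, h⟩ := hS' v hv
      rw [h]
      exact root_notMem_side hTree hc
  · intro v w hw
    by_cases hv : v = r
    · rw [hv, hSr] at hw
      exact absurd hw (notMem_empty _)
    · obtain ⟨c, hc, hvc, h⟩ := hS' v hv
      rw [h] at hw ⊢
      exact hS w c hc hw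
  · intro v
    by_cases hv : v = r
    · rw [hv, hSr]
      simp
    · obtain ⟨c, hc, hvc, h⟩ := hS' v hv
      rw [h]
      exact hr c hc
  · intro v
    by_cases hv : v = r
    · rw [hv, hSr]
      simp [cut]
    · obtain ⟨c, hc, hvc, h⟩ := hS' v hv
      rw [h]
      exact (cut_side_le c r).trans (hk _ ((SimpleGraph.mem_edgeSet _).2 hc))
  · intro v
    by_cases hv : v = r
    · rw [hv, hSr]
      intro X hX hne
      rw [subset_empty] at hX
      rw [hX] at hne
      exact absurd hne (by simp)
    · obtain ⟨c, hc, hvc, h⟩ := hS' v hv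
      rw [h]
      exact connOn_side hT c r
  · intro v hv
    obtain ⟨c, hc, hvc, h⟩ := hS' v hv
    rw [h]
    exact ⟨c, self_mem_side T c r, (hT hc).symm⟩

end Pool.Agent.H225R2.STC
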