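import Pool.Agent.H225R2.STC.Small
import Pool.Agent.H225R2.STC.Tree
import Pool.Agent.H225R2.STC.AlgoCorrect

/-!
# Putting everything together
-/

namespace Pool.Agent.H225R2.STC

open Finset Pool.Agent.NPC

theorem p4f_of_cograph {V : Type} {G : SimpleGraph V} (h : IsCograph G) : P4F G := by
  intro a b c d hab hbc hcd hac hbd had
  have hne : a ≠ b := hab.ne
  have hbc' : b ≠ c := hbc.ne
  have hcd' : c ≠ d := hcd.ne
  have hac' : a ≠ c := by
    rintro rfl
    exact had hcd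
  have hbd' : b ≠ d := by
    rintro rfl
    exact had hab
  have had' : a ≠ d := by
    rintro rfl
    exact hac hcd.symm
  refine h.false ⟨⟨![a, b, c, d], ?_⟩, ?_⟩
  · intro i j hij
    fin_cases i <;> fin_cases j <;> simp_all
  · intro i j
    have e1 := hab.symm
    have e2 := hbc.symm
    have e3 := hcd.symm
    have e4 : ¬ G.Adj c a := fun h => hac h.symm
    have e5 : ¬ G.Adj d b := fun h => hbd h.symm
    have e6 : ¬ G.Adj d a := fun h => had h.symm
    change G.Adj (![a, b, c, d] i) (![a, b, c, d] j) ↔ _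
    rw [SimpleGraph.pathGraph_adj]
    fin_cases i <;> fin_cases j <;> simp [*]

theorem connOn_of_connected {V : Type} [Fintype V] [DecidableEq V] {G : SimpleGraph V}
    (h : G.Connected) : ConnOn G univ := by
  intro X _ hX1 hX2
  by_contra hcon
  push Not at hcon
  obtain ⟨x, hx⟩ := hX1
  apply hX2
  ext y
  simp only [mem_univ, iff_true]
  obtain ⟨p⟩ := h.preconnected x y
  induction p with
  | nil => exact hx
  | cons hadj p ih =>
    refine ih ?_
    by_contra hn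
    exact hcon _ hx _ (mem_sdiff.2 ⟨mem_univ _, hn⟩) hadj

theorem cng_le_ec {V : Type} [Finite V] {G T : SimpleGraph V} {e : Sym2 V} (he : e ∈ T.edgeSet) :
    cng G T e ≤ ec G T :=
  le_csSup ((Set.toFinite _).bddAbove) ⟨e, he, rfl⟩

theorem ec_le {V : Type} {G T : SimpleGraph V} {k : ℕ} (h : ∀ e ∈ T.edgeSet, cng G T e ≤ k) :
    ec G T ≤ k := by
  refine csSup_le' ?_
  rintro _ ⟨e, he, rfl⟩
  exact h e he

theorem cng_le_sq {n : ℕ} (G T : SimpleGraph (Fin n)) (e : Sym2 (Fin n)) : cng G T e ≤ n * n := by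
  classical
  unfold cng
  have h1 : {f ∈ G.edgeSet | ∃ x y, f = s(x, y) ∧ ¬ (T.deleteEdges {e}).Reachable x y} ⊆
      (fun p : Fin n × Fin n => s(p.1, p.2)) '' Set.univ := by
    rintro f ⟨-, x, y, rfl, -⟩
    exact ⟨(x, y), trivial, rfl⟩
  refine (Set.ncard_le_ncard h1 (Set.toFinite _)).trans ?_
  refine (Set.ncard_image_le (Set.toFinite _)).trans ?_
  rw [Set.ncard_univ, Nat.card_eq_fintype_card, Fintype.card_prod, Fintype.card_fin]

theorem gspider_of_good {V : Type} [Fintype V] [DecidableEq V] {G : SimpleGraph V} {k : ℕ}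
    (h : Good G k) : ∃ ρ u v φ, GSpider G k ρ u v φ := by
  obtain ⟨ρ, φ, h⟩ := h
  have hnear : ∀ z, z ≠ ρ → ¬ G.Adj ρ z → Near G ρ ρ ρ z := fun z hz hz' =>
    ⟨φ z, h.adj z hz hz', h.adj' z hz hz', (h.adj z hz hz').ne.symm, (h.adj z hz hz').ne.symm⟩
  refine ⟨ρ, ρ, ρ, φ, ⟨h.deg, ?_, ?_, ?_, ?_, ?_⟩⟩
  · intro z hz hz' _
    exact ⟨h.adj z hz hz', h.adj' z hz hz', (h.adj z hz hz').ne.symm, (h.adj z hz hz').ne.symm⟩
  · intro z hz hz' _
    exact h.cost z hz hz'
  · intro z z' hz hz1 _ hz' hz1' _ heq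
    exact h.inj z z' hz hz1 hz' hz1' heq
  · intro z hz hz' hn
    exact absurd (hnear z hz hz') hn
  · intro D hD
    exact absurd hD (G.loopless.irrefl ρ)

/-- The algorithm finds an optimal spanning tree. -/
theorem alg_optimal {n : ℕ} (G : SimpleGraph (Fin n)) (hG : G.Connected) (hc : IsCograph G) :
    ∃ T : SimpleGraph (Fin n), T ≤ G ∧ T.IsTree ∧ alg (matOf G) = matOf T ∧
      ∀ T' : SimpleGraph (Fin n), T' ≤ G → T'.IsTree → ec G T ≤ ec G T' := by
  classical
  have h4 := p4f_of_cograph hc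
  have hconn := connOn_of_connected hG
  -- an optimal spanning tree
  obtain ⟨T0, hT0, hT0'⟩ := hG.exists_isTree_le
  let P : ℕ → Prop := fun k => ∃ T' : SimpleGraph (Fin n), T' ≤ G ∧ T'.IsTree ∧ ec G T' = k
  have hP : ∃ k, P k := ⟨_, T0, hT0, hT0', rfl⟩
  obtain ⟨T1, hT1, hT1', hk1⟩ := Nat.find_spec hP
  have hmin : ∀ T' : SimpleGraph (Fin n), T' ≤ G → T'.IsTree → Nat.find hP ≤ ec G T' :=
    fun T' h h' => Nat.find_min' hP ⟨T', h, h', rfl⟩
  set k := Nat.find hP with hk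
  obtain ⟨r, S, hparts⟩ := exists_parts G T1 hT1 hT1' k (fun e he => by
    rw [← hk1]
    exact cng_le_ec he)
  have hsp : ∃ ρ u v φ, GSpider G k ρ u v φ := by
    rcases struct h4 hconn hparts with h | ⟨u, v, hE, hk2⟩
    · exact gspider_of_good h
    · obtain ⟨ρ, φ, h⟩ := exc_tree h4 hE
      exact ⟨ρ, u, v, φ, h k hk2⟩
  have hkn : k ≤ n * n := by
    rw [← hk1]
    exact ec_le fun e _ => cng_le_sq G T1 e
  obtain ⟨ρ, p, k', hk', hpar, hcut, halg⟩ := alg_correct G h4 k hkn hsp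
  refine ⟨parGraph ρ p, parGraph_le hpar, parGraph_isTree hpar, halg, ?_⟩
  intro T' hT' hT''
  refine (ec_le (cng_parGraph_le hpar k' hcut)).trans (hk'.trans (hmin T' hT' hT''))

end Pool.Agent.H225R2.STC
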