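import Pool.Agent.H225R2.STC.Comps

/-!
# Components with many non-neighbours of the root
-/

namespace Pool.Agent.H225R2.STC

open Finset

set_option linter.unusedSectionVars false

variable {V : Type} [Fintype V] [DecidableEq V] {G : SimpleGraph V}
variable {k : ℕ} {r : V} {S : V → Finset V}

/-- arithmetic of the rich case, weak form -/
theorem arith_rich {N Q α β : ℕ} (hQ : 1 ≤ Q) (hN : Q + 1 ≤ N) (hh : N + Q ≤ α + β) (ha : 1 ≤ α)
    (hb : 3 ≤ β + Q) : 2 * N + 2 * Q + 2 * β + α ≤ N * β + Q * α + 6 ∧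
      (2 ≤ Q → 2 * N + 2 * Q + 2 * β + α ≤ N * β + Q * α + 5) := by
  obtain ⟨q, rfl⟩ : ∃ q, Q = q + 1 := ⟨Q - 1, by omega⟩
  obtain ⟨s, rfl⟩ : ∃ s, N = q + 2 + s := ⟨N - (q + 2), by omega⟩
  rcases Nat.eq_zero_or_pos q with rfl | hq
  · refine ⟨?_, by omega⟩
    obtain ⟨β', rfl⟩ : ∃ β', β = β' + 2 := ⟨β - 2, by omega⟩
    nlinarith [Nat.zero_le (s * β')]
  · obtain ⟨q', rfl⟩ : ∃ q', q = q' + 1 := ⟨q - 1, by omega⟩
    obtain ⟨α', rfl⟩ : ∃ α', α = α' + 1 := ⟨α - 1, by omega⟩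
    have key : 2 * (q' + 1 + 2 + s) + 2 * (q' + 1 + 1) + 2 * β + (α' + 1) ≤
        (q' + 1 + 2 + s) * β + (q' + 1 + 1) * (α' + 1) + 5 := by
      have h1 : (q' + 1 + 2 + s) * β + (q' + 1 + 1) * (α' + 1) =
          3 * β + (q' + s) * β + (2 * (α' + 1) + q' * (α' + 1)) := by ring
      rw [h1]
      rcases Nat.lt_or_ge β 2 with hβ | hβ
      · interval_cases β
        · nlinarith [Nat.zero_le (q' * α'), Nat.zero_le (q' * q')]
        · nlinarith [Nat.zero_le (q' * α'), Nat.zero_le (q' * q')]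
      · obtain ⟨β', rfl⟩ : ∃ β', β = β' + 2 := ⟨β - 2, by omega⟩
        nlinarith [Nat.zero_le (q' * α'), Nat.zero_le (q' * β'), Nat.zero_le (s * β')]
    exact ⟨by omega, fun _ => key⟩

/-- **Rich components meeting `Bs`.** -/
theorem Ctx.rich0 (C : Ctx G k r S) {v z y' : V} (hz : z ∈ S v) (hzB : z ∉ Bs G r)
    (hB : ∃ y ∈ S v, y ∈ Bs G r) (hrich : (S v ∩ Bs G r).card < (S v \ Bs G r).card) :
    dg G z + dg G y' ≤ k + 2 ∨ (Fintype.card V ≤ dg G y' + 2 ∧ (S v ∩ Bs G r).card ≤ 1 ∧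
      ∑ x ∈ S v ∩ Bs G r, dI G x (Bs G r \ S v) = 0) := by
  obtain ⟨y, hy, hyB⟩ := hB
  have h1 := cut_split (r := r) C.h4 (S v)
  have h2 := dg_A C.h4 (S v) hz hzB
  have h4 : dI G z ((Bs G r)ᶜ \ S v) ≤ ∑ x ∈ S v \ Bs G r, dI G x ((Bs G r)ᶜ \ S v) :=
    Finset.single_le_sum (f := fun x => dI G x ((Bs G r)ᶜ \ S v)) (fun _ _ => Nat.zero_le _)
      (mem_sdiff.2 ⟨hz, hzB⟩)
  have h6 := C.hP.cut_le v
  have h7 := C.hP.half v
  have h8 := card_split (S v) (Bs G r)
  have h9 := card_split (Bs G r) (S v)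
  have h10 := card_split ((Bs G r)ᶜ) (S v)
  have h11 : (Bs G r)ᶜ ∩ S v = S v \ Bs G r := by
    ext w
    simp only [mem_inter, mem_compl, mem_sdiff]
    tauto
  rw [h11] at h10
  rw [inter_comm] at h9
  have h13 := C.b3
  have h14 := card_B_add (G := G) (r := r)
  have h16 : 1 ≤ (S v ∩ Bs G r).card := card_pos.2 ⟨y, mem_inter.2 ⟨hy, hyB⟩⟩
  have h18 : 1 ≤ ((Bs G r)ᶜ \ S v).card :=
    card_pos.2 ⟨r, mem_sdiff.2 ⟨mem_compl.2 r_notMem_Bs, C.hP.root v⟩⟩
  obtain ⟨h17, h19⟩ := arith_rich (N := (S v \ Bs G r).card) (Q := (S v ∩ Bs G r).card)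
    (α := ((Bs G r)ᶜ \ S v).card) (β := (Bs G r \ S v).card) h16 (by omega) (by omega)
    h18 (by omega)
  have h20 := C.dg_le y'
  by_cases h21 : dg G z + dg G y' ≤ k + 2
  · exact Or.inl h21
  · right
    refine ⟨by omega, ?_, by omega⟩
    by_contra h22
    have h23 := h19 (by omega)
    omega

/-- the module at the level of `y`: `W` is the set of neighbours of `r` of smaller level -/
noncomputable def Wl (G : SimpleGraph V) (r y : V) : Finset V :=
  (Ns G r).filter fun w => lv G r w < lv G r y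

open scoped Classical in
/-- the non-neighbours of `y` among the non-neighbours of `r` -/
noncomputable def Zl (G : SimpleGraph V) (r y : V) : Finset V :=
  (Zs G r).filter fun z => ¬ G.Adj y z

theorem card_Zl (r y : V) : (Zl G r y).card = lv G r y := rfl

theorem mem_Wl {r y w : V} : w ∈ Wl G r y ↔ w ∈ Ns G r ∧ lv G r w < lv G r y := by simp [Wl]

theorem mem_Zl {r y z : V} : z ∈ Zl G r y ↔ z ∈ Zs G r ∧ ¬ G.Adj y z := by simp [Zl]

/-- three distinct elements in a sum -/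
theorem three_le_sum {x y z : V} {S : Finset V} (hx : x ∈ S) (hy : y ∈ S) (hz : z ∈ S)
    (hxy : x ≠ y) (hxz : x ≠ z) (hyz : y ≠ z) (f : V → ℕ) : f x + f y + f z ≤ ∑ w ∈ S, f w := by
  rw [← Finset.add_sum_erase S f hx, ← Finset.add_sum_erase (S.erase x) f
    (Finset.mem_erase.2 ⟨hxy.symm, hy⟩)]
  have h1 := Finset.single_le_sum (f := f) (s := (S.erase x).erase y) (fun _ _ => Nat.zero_le _)
    (Finset.mem_erase.2 ⟨hyz.symm, Finset.mem_erase.2 ⟨hxz.symm, hz⟩⟩)
  omega

theorem arith_deep {s w t : ℕ} (hs : 3 ≤ s) (hw : 3 ≤ w) (ht : t ≤ w) :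
    2 * s + 2 * w + t ≤ s * w + 6 ∧ (t < w → 2 * s + 2 * w + t ≤ s * w + 5) := by
  obtain ⟨s', rfl⟩ : ∃ s', s = s' + 3 := ⟨s - 3, by omega⟩
  obtain ⟨w', rfl⟩ : ∃ w', w = w' + 3 := ⟨w - 3, by omega⟩
  have h1 : (s' + 3) * (w' + 3) = s' * w' + 3 * s' + 3 * w' + 9 := by ring
  rw [h1]
  have h2 := Nat.zero_le (s' * w')
  constructor
  · omega
  · intro h
    omega

/-- **Deep components with two non-neighbours of the root.** -/
theorem Ctx.rich1 (C : Ctx G k r S) {v z z' y' : V} (hv : v ≠ r) (hz : z ∈ S v) (hzZ : z ∈ Zs G r)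
    (hz' : z' ∈ S v) (hzZ' : z' ∈ Zs G r) (hzz : z ≠ z')
    (hl : 1 ≤ lv G r (ys G r (S v)))
    (hw : lv G r (ys G r (S v)) ≤ (Wl G r (ys G r (S v))).card) :
    dg G z + dg G y' ≤ k + 2 ∨ (Fintype.card V ≤ dg G y' + 2 ∧
      lv G r (ys G r (S v)) = (Wl G r (ys G r (S v))).card) := by
  obtain ⟨hy1, hy2, hy3⟩ := C.hP.ys_mem hv
  set y := ys G r (S v) with hy
  have hcases : ∀ x ∈ S v, (x ∈ Ns G r ∧ lv G r y ≤ lv G r x) ∨ (x ∈ Zs G r ∧ G.Adj y x) :=
    fun x hx => C.hP.cases C.h4 hv hx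
  -- the module
  set M : Finset V := (univ \ Wl G r y) \ Zl G r y with hM
  have hMmem : ∀ x, x ∈ M ↔ x = r ∨ (x ∈ Ns G r ∧ lv G r y ≤ lv G r x) ∨
      (x ∈ Zs G r ∧ G.Adj y x) := by
    intro x
    simp only [hM, mem_sdiff, mem_univ, true_and, mem_Wl, mem_Zl]
    constructor
    · rintro ⟨h1, h2⟩
      rcases tri (G := G) r x with h | h | h
      · exact Or.inl h
      · exact Or.inr (Or.inl ⟨h, by
          by_contra h3
          exact h1 ⟨h, by omega⟩⟩)
      · exact Or.inr (Or.inr ⟨h, by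
          by_contra h3
          exact h2 ⟨h, h3⟩⟩)
    · rintro (h | h | h)
      · rw [h]
        exact ⟨fun h' => G.loopless.irrefl _ (mem_Ns.1 h'.1), fun h' => (mem_Zs.1 h'.1).1 rfl⟩
      · exact ⟨fun h' => absurd h'.2 (by omega), fun h' => (mem_Zs.1 h'.1).2 (mem_Ns.1 h.1)⟩
      · exact ⟨fun h' => (mem_Zs.1 h.1).2 (mem_Ns.1 h'.1), fun h' => h'.2 h.2⟩
  have hSM : S v ⊆ M := fun x hx => (hMmem x).2 (Or.inr (hcases x hx))
  -- adjacency between W and M
  have hWM : ∀ w ∈ Wl G r y, ∀ x ∈ M, G.Adj x w := by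
    intro w hw' x hx
    rw [mem_Wl] at hw'
    rcases (hMmem x).1 hx with h | h | h
    · rw [h]
      exact mem_Ns.1 hw'.1
    · exact (adj_of_lv_lt C.h4 hw'.1 h.1 (by omega)).symm
    · exact (adj_of_le C.h4 hw'.1 hy2 h.1 (by omega) h.2).symm
  have hdW : Disjoint (Wl G r y) (M \ S v) := by
    rw [disjoint_left]
    intro w h1 h2
    have := (mem_sdiff.1 (mem_sdiff.1 (mem_sdiff.1 h2).1).1).2
    exact this h1
  have hWS : ∀ x ∈ S v, (Wl G r y).card + dI G x (M \ S v) ≤ dI G x (S v)ᶜ := by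
    intro x hx
    have h1 : Wl G r y ∪ (M \ S v) ⊆ (S v)ᶜ := by
      intro w hw'
      rw [mem_compl]
      rcases mem_union.1 hw' with h | h
      · intro h2
        have := (mem_sdiff.1 (mem_sdiff.1 (hSM h2)).1).2
        exact this h
      · exact (mem_sdiff.1 h).2
    have h2 := dI_mono (G := G) (x := x) h1
    rw [dI_union hdW, dI_full (fun w hw' => hWM w hw' x (hSM hx))] at h2
    exact h2
  -- the degree of z
  have hdz : dg G z + 1 ≤ (S v).card + (Wl G r y).card + dI G z (M \ S v) := by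
    have h1 := dg_split (G := G) z (S v)
    have h2 := dI_lt' (G := G) hz
    have h3 : (S v)ᶜ ⊆ (Wl G r y ∪ (M \ S v)) ∪ Zl G r y := by
      intro w hw'
      rw [mem_compl] at hw'
      by_cases h4 : w ∈ Wl G r y
      · exact mem_union_left _ (mem_union_left _ h4)
      · by_cases h5 : w ∈ Zl G r y
        · exact mem_union_right _ h5
        · exact mem_union_left _ (mem_union_right _ (mem_sdiff.2
            ⟨mem_sdiff.2 ⟨mem_sdiff.2 ⟨mem_univ _, h4⟩, h5⟩, hw'⟩))
    have h4 := dI_mono (G := G) (x := z) h3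
    have hyz : G.Adj y z := by
      rcases hcases z hz with h | h
      · exact absurd (mem_Ns.1 h.1) (mem_Zs.1 hzZ).2
      · exact h.2
    have h5 : dI G z (Zl G r y) = 0 := by
      refine dI_zero fun w hw' h6 => ?_
      rw [mem_Zl] at hw'
      exact not_adj_ZZ C.h4 hy2 hw'.1 hzZ hw'.2 hyz h6.symm
    have h6 : Disjoint (Wl G r y ∪ (M \ S v)) (Zl G r y) := by
      rw [disjoint_left]
      intro w h7 h8
      rcases mem_union.1 h7 with h | h
      · exact (mem_Zs.1 (mem_Zl.1 h8).1).2 (mem_Ns.1 (mem_Wl.1 h).1)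
      · exact (mem_sdiff.1 (mem_sdiff.1 h).1).2 h8
    rw [dI_union h6, dI_union hdW, h5] at h4
    have h7 := dI_le_card (G := G) z (Wl G r y)
    omega
  -- y and z' see all of M minus S
  have hyz' : G.Adj y z' := by
    rcases hcases z' hz' with h | h
    · exact absurd (mem_Ns.1 h.1) (mem_Zs.1 hzZ').2
    · exact h.2
  have hsee : (M \ S v).card ≤ dI G y (M \ S v) + dI G z' (M \ S v) := by
    classical
    unfold dI
    have h1 : M \ S v ⊆ ((M \ S v).filter fun w => G.Adj y w) ∪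
        ((M \ S v).filter fun w => G.Adj z' w) := by
      intro w hw'
      have hwM := (mem_sdiff.1 hw').1
      rw [mem_union, mem_filter, mem_filter]
      rcases (hMmem w).1 hwM with h | h | h
      · left
        refine ⟨hw', ?_⟩
        rw [h]
        exact (mem_Ns.1 hy2).symm
      · by_cases h2 : lv G r y < lv G r w
        · left
          exact ⟨hw', adj_of_lv_lt C.h4 hy2 h.1 h2⟩
        · right
          exact ⟨hw', (adj_of_le C.h4 h.1 hy2 hzZ' (by omega) hyz').symm⟩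
      · left
        exact ⟨hw', h.2⟩
    have h2 := Finset.card_le_card h1
    have h3 := Finset.card_union_le ((M \ S v).filter fun w => G.Adj y w)
      ((M \ S v).filter fun w => G.Adj z' w)
    omega
  -- the cut
  have hyz0 : y ≠ z := fun h => (mem_Zs.1 hzZ).2 (by rw [← h]; exact mem_Ns.1 hy2)
  have hyz0' : y ≠ z' := fun h => (mem_Zs.1 hzZ').2 (by rw [← h]; exact mem_Ns.1 hy2)
  have hcut : (S v).card * (Wl G r y).card + (dI G z (M \ S v) + (M \ S v).card) ≤ cut G (S v) := by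
    rw [cut_eq]
    have h1 : ∑ x ∈ S v, ((Wl G r y).card + dI G x (M \ S v)) ≤ ∑ x ∈ S v, dI G x (S v)ᶜ :=
      Finset.sum_le_sum hWS
    rw [Finset.sum_add_distrib, Finset.sum_const, smul_eq_mul] at h1
    have h2 := three_le_sum hz hz' hy1 hzz hyz0.symm hyz0'.symm (fun x => dI G x (M \ S v))
    omega
  have hcutk := C.hP.cut_le v
  have hcM : M.card + (Wl G r y).card + (Zl G r y).card = Fintype.card V := by
    have h1 : Zl G r y ⊆ univ \ Wl G r y := by
      intro w hw'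
      refine mem_sdiff.2 ⟨mem_univ _, fun h => ?_⟩
      exact (mem_Zs.1 (mem_Zl.1 hw').1).2 (mem_Ns.1 (mem_Wl.1 h).1)
    have h2 := Finset.card_sdiff_add_card_eq_card h1
    have h3 := Finset.card_sdiff_add_card_eq_card (subset_univ (Wl G r y))
    rw [card_univ] at h3
    rw [← hM] at h2
    omega
  have hcMS : (M \ S v).card + (S v).card = M.card := Finset.card_sdiff_add_card_eq_card hSM
  have hs3 : 3 ≤ (S v).card := by
    have h1 : ({z, z', y} : Finset V) ⊆ S v := by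
      intro w hw'
      simp only [mem_insert, mem_singleton] at hw'
      rcases hw' with h | h | h <;> rw [h] <;> assumption
    have h2 := Finset.card_le_card h1
    rwa [Finset.card_insert_of_notMem (by
      simp only [mem_insert, mem_singleton, not_or]; exact ⟨hzz, hyz0.symm⟩),
      Finset.card_insert_of_notMem (by simpa using hyz0'.symm), Finset.card_singleton] at h2
  have hw3 : 3 ≤ (Wl G r y).card := by
    have h1 : Bs G r ⊆ Wl G r y := by
      intro w hw'
      have h2 := mem_Bs'.1 hw'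
      exact mem_Wl.2 ⟨mem_Ns.2 h2.1, by omega⟩
    have := Finset.card_le_card h1
    have := C.b3
    omega
  have hZt := card_Zl (G := G) r y
  obtain ⟨h30, h31⟩ := arith_deep hs3 hw3 hw
  have h20 := C.dg_le y'
  by_cases h21 : dg G z + dg G y' ≤ k + 2
  · exact Or.inl h21
  · right
    constructor
    · omega
    · by_contra h22
      have := h31 (by omega)
      omega

end Pool.Agent.H225R2.STC
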