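import Pool.Agent.H225R2.STC.Count
import Pool.Agent.H225R2.STC.ExcCase

/-!
# The remaining cases and the structure theorem
-/

namespace Pool.Agent.H225R2.STC

open Finset

set_option linter.unusedSectionVars false

variable {V : Type} [Fintype V] [DecidableEq V] {G : SimpleGraph V}
variable {k : ℕ} {r : V} {S : V → Finset V}

/-- **Universal vertex**: degrees. -/
theorem star_deg (hP : Parts G k r S) {ρ : V} (hρ : ∀ w, w ≠ ρ → G.Adj ρ w) {v : V} (hv : v ≠ ρ) :
    dg G v ≤ k := by
  classical
  by_cases hvr : v = r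
  · -- the component of ρ
    subst hvr
    have hρr : ρ ≠ v := hv.symm
    have hρS := hP.mem ρ hρr
    have hk := hP.cut_le ρ
    have hvS := hP.root ρ
    rw [cut_eq] at hk
    have h1 := dg_split (G := G) v (S ρ)
    have h2 := dI_lt' (G := G) (mem_compl.2 hvS)
    have h3 : dI G ρ (S ρ)ᶜ = ((S ρ)ᶜ).card := dI_full (fun w hw => hρ w (by
      rintro rfl
      exact (mem_compl.1 hw) hρS))
    -- every neighbour of v in S ρ contributes one
    have h4 : ∑ x ∈ S ρ, (if x = ρ then (((S ρ)ᶜ).card - 1) else 0) +
        ∑ x ∈ S ρ, (if G.Adj v x then 1 else 0) ≤ ∑ x ∈ S ρ, dI G x (S ρ)ᶜ := by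
      rw [← Finset.sum_add_distrib]
      refine Finset.sum_le_sum fun x hx => ?_
      by_cases hx' : x = ρ
      · subst hx'
        rw [if_pos rfl, if_pos (hρ v hv).symm, h3]
        omega
      · rw [if_neg hx']
        by_cases h5 : G.Adj v x
        · rw [if_pos h5]
          have := dI_pos (G := G) (mem_compl.2 hvS) h5.symm
          omega
        · rw [if_neg h5]
          omega
    rw [Finset.sum_ite_eq' (S ρ) ρ, if_pos hρS] at h4
    have h6 : ∑ x ∈ S ρ, (if G.Adj v x then 1 else 0) = dI G v (S ρ) := by
      unfold dI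
      rw [Finset.card_filter]
    rw [h6] at h4
    omega
  · have hvS := hP.mem v hvr
    have hk := hP.cut_le v
    rw [cut_eq] at hk
    have h1 := dg_split (G := G) v (S v)
    have h2 := dI_lt' (G := G) hvS
    by_cases hρS : ρ ∈ S v
    · have h3 : dI G ρ (S v)ᶜ = ((S v)ᶜ).card := dI_full (fun w hw => hρ w (by
        rintro rfl
        exact (mem_compl.1 hw) hρS))
      have h4 := two_le_sum hvS hρS hv (fun x => dI G x (S v)ᶜ) 0 (fun _ _ => Nat.zero_le _)
      have h5 := hP.half v
      have h6 := Finset.card_add_card_compl (S v)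
      omega
    · have h3 : ∀ x ∈ S v, 1 ≤ dI G x (S v)ᶜ := by
        intro x hx
        refine dI_pos (mem_compl.2 hρS) (hρ x ?_).symm
        rintro rfl
        exact hρS hx
      rw [← Finset.add_sum_erase (S v) (fun x => dI G x (S v)ᶜ) hvS] at hk
      have h4 := Finset.card_nsmul_le_sum ((S v).erase v) (fun x => dI G x (S v)ᶜ) 1
        (fun x hx => h3 x (mem_of_mem_erase hx))
      have h5 := Finset.card_erase_add_one hvS
      rw [smul_eq_mul] at h4
      omega

theorem good_of_univ (hP : Parts G k r S) {ρ : V} (hρ : ∀ w, w ≠ ρ → G.Adj ρ w) : Good G k :=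
  ⟨ρ, fun _ => ρ, ⟨fun _ hv => star_deg hP hρ hv, fun z hz hz' => absurd (hρ z hz) hz',
    fun z hz hz' => absurd (hρ z hz) hz', fun z hz hz' => absurd (hρ z hz) hz',
    fun z _ hz hz' _ _ _ => absurd (hρ z hz) hz'⟩⟩

theorem sum_dI_comm (X Y : Finset V) : ∑ x ∈ X, dI G x Y = ∑ y ∈ Y, dI G y X := by
  classical
  unfold dI
  simp only [Finset.card_filter]
  rw [Finset.sum_comm]
  refine Finset.sum_congr rfl fun y _ => Finset.sum_congr rfl fun x _ => ?_
  simp only [G.adj_comm]

/-- **Edge connectivity** of a connected cograph. -/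
theorem edge_conn (h4 : P4F G) {H X : Finset V} (hH : ConnOn G H) (hX : X ⊆ H) (h1 : X.Nonempty)
    (h2 : X ≠ H) : ∃ x ∈ H, dI G x H ≤ ∑ w ∈ X, dI G w (H \ X) := by
  classical
  have aux : ∀ Y : Finset V, Y ⊆ H → Y.Nonempty → (∀ x ∈ Y, 1 ≤ dI G x (H \ Y)) →
      ∃ x ∈ H, dI G x H ≤ ∑ w ∈ Y, dI G w (H \ Y) := by
    intro Y hY hYn hall
    obtain ⟨x, hx⟩ := hYn
    refine ⟨x, hY hx, ?_⟩
    have e1 : dI G x H = dI G x Y + dI G x (H \ Y) := by
      rw [← dI_union disjoint_sdiff, Finset.union_sdiff_of_subset hY]
    have e2 := dI_lt' (G := G) hx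
    rw [← Finset.add_sum_erase Y (fun x => dI G x (H \ Y)) hx]
    have e3 := Finset.card_nsmul_le_sum (Y.erase x) (fun x => dI G x (H \ Y)) 1
      (fun x hx => hall x (mem_of_mem_erase hx))
    have e4 := Finset.card_erase_add_one hx
    rw [smul_eq_mul] at e3
    omega
  by_cases hA : ∀ x ∈ X, 1 ≤ dI G x (H \ X)
  · exact aux X hX h1 hA
  · by_cases hB : ∀ x ∈ H \ X, 1 ≤ dI G x X
    · have e1 : H \ (H \ X) = X := by
        rw [Finset.sdiff_sdiff_eq_self hX]
      have hne : (H \ X).Nonempty := by
        rw [Finset.sdiff_nonempty]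
        intro h
        exact h2 (Finset.Subset.antisymm hX h)
      obtain ⟨x, hx, hx'⟩ := aux (H \ X) sdiff_subset hne (by rwa [e1])
      refine ⟨x, hx, ?_⟩
      rw [e1, sum_dI_comm] at hx'
      exact hx'
    · exfalso
      push Not at hA hB
      obtain ⟨x, hx, hx0⟩ := hA
      obtain ⟨x', hx', hx0'⟩ := hB
      have hno : ∀ w ∈ H \ X, ¬ G.Adj x w := by
        intro w hw h
        have := dI_pos hw h
        omega
      have hno' : ∀ w ∈ X, ¬ G.Adj x' w := by
        intro w hw h
        have := dI_pos hw h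
        omega
      let D : Finset V := H.filter fun d => d = x ∨ G.Adj x d ∨ ∃ w ∈ H, G.Adj x w ∧ G.Adj w d
      have hD1 : D.Nonempty := ⟨x, mem_filter.2 ⟨hX hx, Or.inl rfl⟩⟩
      have hD2 : D ≠ H := by
        intro h
        have : x' ∈ D := by rw [h]; exact (mem_sdiff.1 hx').1
        rcases (mem_filter.1 this).2 with h3 | h3 | ⟨w, hw, h3, h5⟩
        · rw [h3] at hx'
          exact (mem_sdiff.1 hx').2 hx
        · exact hno x' hx' h3
        · by_cases hwX : w ∈ X
          · exact hno' w hwX h5.symm
          · exact hno w (mem_sdiff.2 ⟨hw, hwX⟩) h3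
      obtain ⟨d, hd, e, he, hde⟩ := hH D (filter_subset _ _) hD1 hD2
      obtain ⟨heH, heD⟩ := mem_sdiff.1 he
      have he1 : e ≠ x := fun h => heD (mem_filter.2 ⟨heH, Or.inl h⟩)
      have he2 : ¬ G.Adj x e := fun h => heD (mem_filter.2 ⟨heH, Or.inr (Or.inl h)⟩)
      have he3 : ∀ w ∈ H, G.Adj x w → ¬ G.Adj w e := fun w hw h h' =>
        heD (mem_filter.2 ⟨heH, Or.inr (Or.inr ⟨w, hw, h, h'⟩)⟩)
      obtain ⟨hdH, hd'⟩ := mem_filter.1 hd
      by_cases hxd : G.Adj x d
      · exact he3 d hdH hxd hde
      · rcases hd' with h | h | ⟨w, hw, h3, h5⟩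
        · rw [h] at hde
          exact he2 hde
        · exact hxd h
        · exact h4 x w d e h3 h5 hde hxd (he3 w hw h3) he2

/-- the complement of `Bs` is disconnected -/
theorem not_connOn (h4 : P4F G) (hZ : (Zs G r).Nonempty) : ¬ ConnOn G (Bs G r)ᶜ := by
  classical
  intro hconn
  have hr : r ∈ (Bs G r)ᶜ := mem_compl.2 r_notMem_Bs
  by_cases hN : ∀ y ∈ Ns G r, y ∈ Bs G r
  · obtain ⟨x, hx, y, hy, hxy⟩ := hconn (Zs G r) (fun z hz => mem_compl.2 (Zs_disj_Bs hz)) hZ (by
      intro h
      have : r ∈ Zs G r := by rw [h]; exact hr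
      exact (mem_Zs.1 this).1 rfl)
    obtain ⟨hy1, hy2⟩ := mem_sdiff.1 hy
    rcases tri (G := G) r y with h | h | h
    · rw [h] at hxy
      exact (mem_Zs.1 hx).2 hxy.symm
    · exact (mem_compl.1 hy1) (hN y h)
    · exact hy2 h
  · push Not at hN
    obtain ⟨y0, hy0, hy0B⟩ := hN
    obtain ⟨y1, hy1, hmin⟩ := Finset.exists_min_image (Ns G r \ Bs G r) (lv G r)
      ⟨y0, mem_sdiff.2 ⟨hy0, hy0B⟩⟩
    obtain ⟨hy1N, hy1B⟩ := mem_sdiff.1 hy1
    have hlv : lv G r y1 ≠ 0 := fun h => hy1B (mem_Bs'.2 ⟨mem_Ns.1 hy1N, h⟩)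
    have hX1 : (Zl G r y1).Nonempty := by
      rw [← card_pos, card_Zl]
      omega
    obtain ⟨x, hx, y, hy, hxy⟩ := hconn (Zl G r y1) (fun z hz => mem_compl.2
      (Zs_disj_Bs (mem_Zl.1 hz).1)) hX1 (by
      intro h
      have : r ∈ Zl G r y1 := by rw [h]; exact hr
      exact (mem_Zs.1 (mem_Zl.1 this).1).1 rfl)
    obtain ⟨hyc, hyX⟩ := mem_sdiff.1 hy
    obtain ⟨hxZ, hxy1⟩ := mem_Zl.1 hx
    rcases tri (G := G) r y with h | h | h
    · rw [h] at hxy
      exact (mem_Zs.1 hxZ).2 hxy.symm
    · exact lv_sub h4 hy1N h hxZ (hmin y (mem_sdiff.2 ⟨h, mem_compl.1 hyc⟩)) hxy1 hxy.symm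
    · have h5 : G.Adj y1 y := by
        by_contra h6
        exact hyX (mem_Zl.2 ⟨h, h6⟩)
      exact not_adj_ZZ h4 hy1N hxZ h hxy1 h5 hxy

/-- **The structure theorem.** -/
theorem struct (h4 : P4F G) (hc : ConnOn G univ) (hP : Parts G k r S) :
    Good G k ∨ ∃ u v, Exc G u v ∧ Fintype.card V ≤ k + 2 := by
  classical
  by_cases hu : ∃ ρ, ∀ w, w ≠ ρ → G.Adj ρ w
  · obtain ⟨ρ, hρ⟩ := hu
    exact Or.inl (good_of_univ hP hρ)
  · push Not at hu
    have hZ : (Zs G r).Nonempty := by
      obtain ⟨w, hw, hw'⟩ := hu r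
      exact ⟨w, mem_Zs.2 ⟨hw, hw'⟩⟩
    have hB := Bs_nonempty h4 hc hZ
    have hb1 : 1 ≤ (Bs G r).card := card_pos.2 hB
    have hdg : ∀ v, dg G v + 2 ≤ Fintype.card V := by
      intro v
      obtain ⟨w, hw, hw'⟩ := hu v
      exact dg_lt2 hw hw'
    by_cases hb2 : (Bs G r).card ≤ 2
    · -- one or two vertices
      obtain ⟨y, hy⟩ := hB
      obtain ⟨y', hy', hyy'⟩ := hu y
      have hy'B : y' ∈ Bs G r := by
        by_contra h
        exact hyy' (Bs_complete h4 hy h)
      have hBs : Bs G r = {y, y'} := by
        refine (Finset.eq_of_subset_of_card_le ?_ ?_).symm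
        · intro w hw
          rcases mem_insert.1 hw with h | h
          · rwa [h]
          · rwa [mem_singleton.1 h]
        · rw [Finset.card_pair hy'.symm]
          exact hb2
      have hE : Exc G y y' := by
        refine ⟨hy'.symm, hyy', ?_, ?_⟩
        · intro w hw hw'
          have hwB : w ∉ Bs G r := by
            rw [hBs]
            simp only [mem_insert, mem_singleton, not_or]
            exact ⟨hw, hw'⟩
          exact ⟨Bs_complete h4 hy hwB, Bs_complete h4 hy'B hwB⟩
        · have := not_connOn h4 hZ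
          rw [hBs] at this
          rwa [Finset.compl_eq_univ_sdiff] at this
      exact Or.inr ⟨y, y', hE, exc_lower hE hP⟩
    · by_cases ha : 3 ≤ ((Bs G r)ᶜ).card
      · exact Or.inl (Ctx.good ⟨h4, hP, hu, ha, by omega⟩)
      · -- exactly one non-neighbour
        obtain ⟨z0, hz0⟩ := hZ
        have hrB : r ∈ (Bs G r)ᶜ := mem_compl.2 r_notMem_Bs
        have hz0B : z0 ∈ (Bs G r)ᶜ := mem_compl.2 (Zs_disj_Bs hz0)
        have hz0r := Zs_ne hz0
        have hBc : (Bs G r)ᶜ = {r, z0} := by
          refine (Finset.eq_of_subset_of_card_le ?_ ?_).symm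
          · intro w hw
            rcases mem_insert.1 hw with h | h
            · rwa [h]
            · rwa [mem_singleton.1 h]
          · rw [Finset.card_pair hz0r.symm]
            omega
        have hmemB : ∀ w, w ≠ r → w ≠ z0 → w ∈ Bs G r := by
          intro w hw hw'
          by_contra h
          have : w ∈ (Bs G r)ᶜ := mem_compl.2 h
          rw [hBc] at this
          simp only [mem_insert, mem_singleton] at this
          tauto
        by_cases hE : ConnOn G (univ \ {r, z0})
        · left
          have hH : univ \ {r, z0} = Bs G r := by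
            rw [← Finset.compl_eq_univ_sdiff, ← hBc, compl_compl]
          rw [hH] at hE
          have hz0S := hP.mem z0 hz0r
          have hrS := hP.root z0
          obtain ⟨c, hcS, hcr⟩ := hP.nbr z0 hz0r
          have hcB : c ∈ Bs G r := by
            refine hmemB c hcr.ne.symm ?_
            rintro rfl
            exact (mem_Zs.1 hz0).2 hcr
          have hnB := card_B_add (G := G) (r := r)
          have hBc2 : ((Bs G r)ᶜ).card = 2 := by
            rw [hBc, Finset.card_pair hz0r.symm]
          have hX1 : (S z0 ∩ Bs G r).Nonempty := ⟨c, mem_inter.2 ⟨hcS, hcB⟩⟩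
          have hSB : S z0 \ Bs G r = {z0} := by
            ext w
            simp only [mem_sdiff, mem_singleton]
            constructor
            · rintro ⟨h1, h2⟩
              by_contra h3
              refine h2 (hmemB w ?_ h3)
              rintro rfl
              exact hrS h1
            · rintro rfl
              exact ⟨hz0S, Zs_disj_Bs hz0⟩
          have hhalf := hP.half z0
          have hsp := card_split (S z0) (Bs G r)
          rw [hSB, Finset.card_singleton] at hsp
          have hX2 : S z0 ∩ Bs G r ≠ Bs G r := by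
            intro h
            have := congrArg Finset.card h
            omega
          obtain ⟨x, hx, hxd⟩ := edge_conn h4 hE inter_subset_right hX1 hX2
          -- the cut
          have hcut := cut_split (r := r) h4 (S z0)
          have hk := hP.cut_le z0
          have hcS : (Bs G r)ᶜ \ S z0 = {r} := by
            rw [hBc]
            ext w
            simp only [mem_sdiff, mem_insert, mem_singleton]
            constructor
            · rintro ⟨h1 | h1, h2⟩
              · exact h1
              · rw [h1] at h2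
                exact absurd hz0S h2
            · rintro rfl
              exact ⟨Or.inl rfl, hrS⟩
          have hBS : Bs G r \ (S z0 ∩ Bs G r) = Bs G r \ S z0 := by
            ext w
            simp only [mem_sdiff, mem_inter, not_and]
            tauto
          rw [hBS] at hxd
          rw [hSB, hcS, Finset.card_singleton, Finset.card_singleton] at hcut
          have hBsplit := card_split (Bs G r) (S z0)
          rw [inter_comm] at hBsplit
          have hdx : dg G x ≤ dI G x (Bs G r) + 2 := by
            have h1 := dg_split (G := G) x (Bs G r)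
            have h2 := dI_le_card (G := G) x ((Bs G r)ᶜ)
            omega
          have hdz : dg G z0 ≤ (Bs G r).card := by
            have h1 := dg_split (G := G) z0 (Bs G r)
            have h2 := dI_le_card (G := G) z0 (Bs G r)
            have h3 : dI G z0 ((Bs G r)ᶜ) = 0 := by
              refine dI_zero fun w hw h => ?_
              rw [hBc] at hw
              simp only [mem_insert, mem_singleton] at hw
              rcases hw with hw | hw
              · rw [hw] at h
                exact (mem_Zs.1 hz0).2 h.symm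
              · rw [hw] at h
                exact G.loopless.irrefl _ h
            omega
          have hxr : G.Adj r x := (mem_Bs.1 hx).1
          have hxz : G.Adj z0 x := (Bs_complete h4 hx (Zs_disj_Bs hz0)).symm
          have huniq : ∀ z, z ≠ r → ¬ G.Adj r z → z = z0 := by
            intro z hz hz'
            by_contra h
            exact hz' (mem_Bs.1 (hmemB z hz h)).1
          refine ⟨r, fun _ => x, ⟨?_, ?_, ?_, ?_, ?_⟩⟩
          · intro v _
            have := hdg v
            omega
          · intro z hz hz'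
            exact hxr
          · intro z hz hz'
            rw [huniq z hz hz']
            exact hxz
          · intro z hz hz'
            rw [huniq z hz hz']
            omega
          · intro z z' hz hz1 hz' hz1' _
            rw [huniq z hz hz1, huniq z' hz' hz1']
        · right
          have hEx : Exc G r z0 := by
            refine ⟨hz0r.symm, (mem_Zs.1 hz0).2, ?_, hE⟩
            intro w hw hw'
            have hwB := hmemB w hw hw'
            exact ⟨(mem_Bs.1 hwB).1, (Bs_complete h4 hwB (Zs_disj_Bs hz0)).symm⟩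
          exact ⟨r, z0, hEx, exc_lower hEx hP⟩

end Pool.Agent.H225R2.STC
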