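import Pool.Agent.H225R2.STC.Rich

/-!
# The deficient cases and the universal vertices
-/

namespace Pool.Agent.H225R2.STC

open Finset

set_option linter.unusedSectionVars false

variable {V : Type} [Fintype V] [DecidableEq V] {G : SimpleGraph V}
variable {k : ℕ} {r : V} {S : V → Finset V}

/-- A root with a single non-neighbour. -/
theorem Ctx.single (C : Ctx G k r S) {y' u x : V} (hy' : y' ≠ r)
    (hd : Fintype.card V ≤ dg G y' + 2) (hu : u ≠ y') (hyu : ¬ G.Adj y' u) (hux : G.Adj u x)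
    (hc : dg G u + dg G x ≤ k + 2) : Good G k := by
  have hk := C.deg_le hy'
  have huniq : ∀ z, z ≠ y' → ¬ G.Adj y' z → z = u := fun z hz hz' => eq_of_dg hd hz hz' hu hyu
  refine ⟨y', fun _ => x, ⟨?_, ?_, ?_, ?_, ?_⟩⟩
  · intro v _
    have := C.dg_le v
    omega
  · intro z hz hz'
    by_contra h
    have hxy : x ≠ y' := by
      rintro rfl
      exact hyu hux.symm
    have := huniq x hxy h
    rw [this] at hux
    exact G.loopless.irrefl _ hux
  · intro z hz hz'
    rw [huniq z hz hz']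
    exact hux
  · intro z hz hz'
    rw [huniq z hz hz']
    exact hc
  · intro z z' hz hz1 hz' hz1' _
    rw [huniq z hz hz1, huniq z' hz' hz1']

theorem Ctx.third_A (C : Ctx G k r S) {y' : V} (hy' : y' ≠ r) (hB : y' ∉ Bs G r)
    (hd : Fintype.card V ≤ dg G y' + 2) : Good G k := by
  obtain ⟨u, hu, hyu⟩ := C.nouniv y'
  by_cases hur : u = r
  · subst hur
    have hZ : y' ∈ Zs G u := mem_Zs.2 ⟨hy', fun h => hyu h.symm⟩
    obtain ⟨h1, h2, h3⟩ := C.hP.ys_mem hy'
    have h5 : y' ∈ S y' := C.hP.mem _ hy'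
    have hne : ys G u (S y') ≠ y' := by
      intro h
      rw [h] at h2
      exact (mem_Zs.1 hZ).2 (mem_Ns.1 h2)
    have h4 : dg G y' + dg G (ys G u (S y')) ≤ k + 2 := by
      refine C.pair_any h1 h5 hne ?_
      by_cases h6 : ∃ y ∈ S y', y ∈ Bs G u
      · right
        exact ⟨mem_Bs'.2 ⟨mem_Ns.1 h2, (C.hP.level_zero hy').2 h6⟩, hB⟩
      · left
        push Not at h6
        exact h6
    have h7 := C.dg_le u
    exact C.single hy' hd hu hyu (mem_Ns.1 h2) (by omega)
  · have hry : G.Adj r y' := by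
      by_contra h
      have := eq_of_dg hd hu hyu (y' := r) (fun h' => hy' h'.symm) (fun h' => h h'.symm)
      exact hur this
    have huZ : u ∈ Zs G r := by
      rcases tri (G := G) r u with h | h | h
      · exact absurd h hur
      · exfalso
        refine hB (mem_Bs.2 ⟨hry, fun z hz hz' => ?_⟩)
        by_contra h8
        have hzy : z ≠ y' := by
          rintro rfl
          exact hz' hry
        have := eq_of_dg hd hu hyu hzy h8
        rw [this] at h
        exact hz' (mem_Ns.1 h)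
      · exact h
    obtain ⟨h1, h2, h3⟩ := C.hP.ys_mem hur
    have h5 : u ∈ S u := C.hP.mem _ hur
    have hadj : G.Adj (ys G r (S u)) u := by
      rcases C.hP.cases C.h4 hur h5 with h | h
      · exact absurd (mem_Ns.1 h.1) (mem_Zs.1 huZ).2
      · exact h.2
    have h4 : dg G u + dg G (ys G r (S u)) ≤ k + 2 := by
      refine C.pair_any h1 h5 hadj.ne ?_
      by_cases h6 : ∃ y ∈ S u, y ∈ Bs G r
      · right
        exact ⟨mem_Bs'.2 ⟨mem_Ns.1 h2, (C.hP.level_zero hur).2 h6⟩, Zs_disj_Bs huZ⟩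
      · left
        push Not at h6
        exact h6
    exact C.single hy' hd hu hyu hadj.symm h4

/-- the non-neighbour of a vertex of `Bs` is in `Bs` -/
theorem Ctx.nonnbr_B (C : Ctx G k r S) {y' u : V} (hB : y' ∈ Bs G r) (hyu : ¬ G.Adj y' u) :
    u ∈ Bs G r := by
  by_contra h
  exact hyu (Bs_complete C.h4 hB h)

theorem Ctx.third_B (C : Ctx G k r S) {y' u : V} (hB : y' ∈ Bs G r)
    (hd : Fintype.card V ≤ dg G y' + 2) (hu : u ≠ y') (hyu : ¬ G.Adj y' u) (hS : S u ≠ {u}) :
    Good G k := by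
  have huB := C.nonnbr_B hB hyu
  have hur : u ≠ r := by
    rintro rfl
    exact r_notMem_Bs huB
  have hyr : y' ≠ r := by
    rintro rfl
    exact r_notMem_Bs hB
  have huS := C.hP.mem u hur
  by_cases h : ∀ x ∈ S u, x ∈ Bs G r
  · have hX1 : ((S u).erase u).Nonempty := by
      by_contra h1
      rw [Finset.not_nonempty_iff_eq_empty] at h1
      apply hS
      ext w
      rw [mem_singleton]
      constructor
      · intro hw
        by_contra hwu
        have : w ∈ (S u).erase u := mem_erase.2 ⟨hwu, hw⟩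
        rw [h1] at this
        exact notMem_empty _ this
      · intro hw
        rw [hw]
        exact huS
    have hX2 : (S u).erase u ≠ S u := by
      intro h1
      have : u ∈ (S u).erase u := by rw [h1]; exact huS
      exact (mem_erase.1 this).1 rfl
    obtain ⟨x, hx, w, hw, hxw⟩ := C.hP.conn u _ (erase_subset _ _) hX1 hX2
    have hwu : w = u := by
      by_contra hwu
      exact (mem_sdiff.1 hw).2 (mem_erase.2 ⟨hwu, (mem_sdiff.1 hw).1⟩)
    rw [hwu] at hxw
    exact C.single hyr hd hu hyu hxw.symm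
      (C.pair_B h huS (mem_of_mem_erase hx) (mem_erase.1 hx).1.symm)
  · push Not at h
    obtain ⟨x, hx, hxB⟩ := h
    have := C.pair_mix huS huB hx hxB
    exact C.single hyr hd hu hyu (Bs_complete C.h4 huB hxB) (by omega)

theorem Ctx.third_C (C : Ctx G k r S) {y' u z : V} (hB : y' ∈ Bs G r)
    (hd : Fintype.card V ≤ dg G y' + 2) (hu : u ≠ y') (hyu : ¬ G.Adj y' u) (hz : z ∈ Zs G r)
    (huniv : ∀ x, x ≠ r → dg G z + dg G x ≤ k + 2) : Good G k := by
  have huB := C.nonnbr_B hB hyu
  have hur : u ≠ r := by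
    rintro rfl
    exact r_notMem_Bs huB
  have hyr : y' ≠ r := by
    rintro rfl
    exact r_notMem_Bs hB
  have := huniv u hur
  exact C.single hyr hd hu hyu (Bs_complete C.h4 huB (Zs_disj_Bs hz)) (by omega)

/-- Rich components meeting `Bs` have universal non-neighbours. -/
theorem Ctx.univ0 (C : Ctx G k r S) (hG : ¬ Good G k) {v z : V} (hv : v ≠ r) (hz : z ∈ S v)
    (hzZ : z ∈ Zs G r) (hB : ∃ y ∈ S v, y ∈ Bs G r)
    (hrich : (S v ∩ Bs G r).card < (S v ∩ Zs G r).card) :
    ∀ x, x ≠ r → dg G z + dg G x ≤ k + 2 := by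
  intro y' hy'
  have h1 : (S v ∩ Zs G r).card ≤ (S v \ Bs G r).card := by
    refine Finset.card_le_card fun w hw => ?_
    rw [mem_inter] at hw
    exact mem_sdiff.2 ⟨hw.1, Zs_disj_Bs hw.2⟩
  rcases C.rich0 (y' := y') hz (Zs_disj_Bs hzZ) hB (by omega) with h | ⟨hd, hQ, hE⟩
  · exact h
  · exfalso
    have hyB : y' ∈ Bs G r := by
      by_contra h
      exact hG (C.third_A hy' h hd)
    obtain ⟨u, hu, hyu⟩ := C.nouniv y'
    have huB := C.nonnbr_B hyB hyu
    have hur : u ≠ r := by
      rintro rfl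
      exact r_notMem_Bs huB
    have hSu : S u = {u} := by
      by_contra h
      exact hG (C.third_B hyB hd hu hyu h)
    have huv : u ∉ S v := by
      intro h
      have h2 := C.hP.eq v u h
      rw [hSu] at h2
      rw [← h2, mem_singleton] at hz
      rw [hz] at hzZ
      exact Zs_disj_Bs hzZ huB
    obtain ⟨y, hyS, hyB'⟩ := hB
    have huniq : ∀ w ∈ S v, w ∈ Bs G r → w = y := by
      intro w hw hwB
      exact Finset.card_le_one.1 hQ w (mem_inter.2 ⟨hw, hwB⟩) y (mem_inter.2 ⟨hyS, hyB'⟩)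
    have hyu' : y ≠ u := by
      rintro rfl
      exact huv hyS
    -- a neighbour of `y` in `Bs \ S v`
    have hex : ∃ w ∈ Bs G r \ S v, G.Adj y w := by
      by_cases hyy : y' = y
      · subst hyy
        -- a third vertex of Bs
        have h3 : 1 ≤ (((Bs G r).erase y').erase u).card := by
          have h4 := Finset.card_erase_add_one hyB
          have h5 := Finset.card_erase_add_one (s := (Bs G r).erase y') (a := u)
            (mem_erase.2 ⟨hu, huB⟩)
          have := C.b3
          omega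
        obtain ⟨x, hx⟩ := card_pos.1 h3
        obtain ⟨hxu, hx'⟩ := mem_erase.1 hx
        obtain ⟨hxy, hxB⟩ := mem_erase.1 hx'
        refine ⟨x, mem_sdiff.2 ⟨hxB, fun h => hxy (huniq x h hxB)⟩, ?_⟩
        by_contra h
        exact hxu (eq_of_dg hd hxy h hu hyu)
      · refine ⟨y', mem_sdiff.2 ⟨hyB, fun h => hyy (huniq y' h hyB)⟩, ?_⟩
        by_contra h
        exact hyu' (eq_of_dg hd (fun h' => hyy h'.symm) (fun h' => h h'.symm) hu hyu)
    obtain ⟨w, hw, hyw⟩ := hex
    have h6 := dI_pos hw hyw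
    have h7 := Finset.single_le_sum (f := fun x => dI G x (Bs G r \ S v))
      (fun _ _ => Nat.zero_le _) (mem_inter.2 ⟨hyS, hyB'⟩)
    omega

/-- injections along components -/
theorem Parts.inj (hP : Parts G k r S) (P Q : Finset V) (hPr : ∀ x ∈ P, x ≠ r)
    (h : ∀ x ∈ P, (S x ∩ P).card ≤ (S x ∩ Q).card) :
    ∃ θ : V → V, (∀ x ∈ P, θ x ∈ Q ∧ θ x ∈ S x) ∧ ∀ x ∈ P, ∀ y ∈ P, θ x = θ y → x = y := by
  classical
  have hex : ∀ X : Finset V, ∃ f : V → V, (X ∩ P).card ≤ (X ∩ Q).card →
      (∀ a ∈ X ∩ P, f a ∈ X ∩ Q) ∧ ∀ a ∈ X ∩ P, ∀ b ∈ X ∩ P, f a = f b → a = b := by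
    intro X
    by_cases hX : (X ∩ P).card ≤ (X ∩ Q).card
    · have : Nonempty V := ⟨r⟩
      obtain ⟨f, hf, hinj⟩ := (X ∩ P).finite_toSet.exists_injOn_of_encard_le
        (t := (↑(X ∩ Q) : Set V)) (by
          rw [Set.encard_coe_eq_coe_finsetCard, Set.encard_coe_eq_coe_finsetCard]
          exact_mod_cast hX)
      refine ⟨f, fun _ => ⟨fun a ha => ?_, fun a ha b hb hab => hinj ha hb hab⟩⟩
      exact hf (Finset.mem_coe.2 ha)
    · exact ⟨id, fun h => absurd h hX⟩
  choose F hF using hex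
  refine ⟨fun x => F (S x) x, ?_, ?_⟩
  · intro x hx
    have h1 := (hF (S x) (h x hx)).1 x (mem_inter.2 ⟨hP.mem x (hPr x hx), hx⟩)
    rw [mem_inter] at h1
    exact ⟨h1.2, h1.1⟩
  · intro x hx y hy hxy
    have h1 := (hF (S x) (h x hx)).1 x (mem_inter.2 ⟨hP.mem x (hPr x hx), hx⟩)
    have h2 := (hF (S y) (h y hy)).1 y (mem_inter.2 ⟨hP.mem y (hPr y hy), hy⟩)
    rw [mem_inter] at h1 h2
    have h3 : S x = S y := by
      rw [← hP.eq x _ h1.1, ← hP.eq y _ h2.1]
      exact congrArg S hxy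
    have hxx : x ∈ S x ∩ P := mem_inter.2 ⟨hP.mem x (hPr x hx), hx⟩
    have hyy : y ∈ S x ∩ P := by
      rw [h3]
      exact mem_inter.2 ⟨hP.mem y (hPr y hy), hy⟩
    have h4 : F (S x) x = F (S x) y := by
      have : F (S x) x = F (S y) y := hxy
      rw [this, h3]
    exact (hF (S x) (h x hx)).2 x hxx y hyy h4

/-- the level of the component of `x` -/
noncomputable def el (G : SimpleGraph V) (r : V) (S : V → Finset V) (x : V) : ℕ :=
  lv G r (ys G r (S x))

/-- the non-neighbours of `r` in components of level `< t` -/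
noncomputable def Zlt (G : SimpleGraph V) (r : V) (S : V → Finset V) (t : ℕ) : Finset V :=
  (Zs G r).filter fun z => el G r S z < t

/-- the neighbours of `r` of level `< t` -/
noncomputable def Nlt (G : SimpleGraph V) (r : V) (t : ℕ) : Finset V :=
  (Ns G r).filter fun y => lv G r y < t

theorem mem_Zlt {t : ℕ} {z : V} : z ∈ Zlt G r S t ↔ z ∈ Zs G r ∧ el G r S z < t := by simp [Zlt]
theorem mem_Nlt {t : ℕ} {z : V} : z ∈ Nlt G r t ↔ z ∈ Ns G r ∧ lv G r z < t := by simp [Nlt]

theorem Zs_ne {z : V} (hz : z ∈ Zs G r) : z ≠ r := (mem_Zs.1 hz).1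

/-- **Deep components with two non-neighbours have universal non-neighbours.** -/
theorem Ctx.univ1 (C : Ctx G k r S) (hG : ¬ Good G k) (T : ℕ)
    (hT : ∀ t, 1 ≤ t → t < T → (Zlt G r S t).card ≤ (Nlt G r t).card) :
    ∀ t, 1 ≤ t → t < T → ∀ v z z' : V, v ≠ r → el G r S v = t → z ∈ S v → z ∈ Zs G r → z' ∈ S v →
      z' ∈ Zs G r → z ≠ z' → ∀ x, x ≠ r → dg G z + dg G x ≤ k + 2 := by
  intro t
  induction t using Nat.strong_induction_on with
  | _ t ih =>
  intro ht1 htT v z z' hv hvt hz hzZ hz' hzZ' hzz y' hy'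
  have hT' := hT t ht1 htT
  obtain ⟨hy1, hy2, hy3⟩ := C.hP.ys_mem hv
  have hvt' : lv G r (ys G r (S v)) = t := hvt
  have hW : Wl G r (ys G r (S v)) = Nlt G r t := by
    ext w
    rw [mem_Wl, mem_Nlt, hvt']
  have hZsub : Zl G r (ys G r (S v)) ⊆ Zlt G r S t := by
    intro w hw
    rw [mem_Zl] at hw
    rw [mem_Zlt]
    refine ⟨hw.1, ?_⟩
    by_contra hcon
    have hwr := Zs_ne hw.1
    obtain ⟨h1, h2, h3⟩ := C.hP.ys_mem hwr
    have hadj : G.Adj (ys G r (S w)) w := by
      rcases C.hP.cases C.h4 hwr (C.hP.mem w hwr) with h | h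
      · exact absurd (mem_Ns.1 h.1) (mem_Zs.1 hw.1).2
      · exact h.2
    have hle : lv G r (ys G r (S v)) ≤ lv G r (ys G r (S w)) := by
      rw [hvt']
      unfold el at hcon
      omega
    exact hw.2 (adj_of_le C.h4 hy2 h2 hw.1 hle hadj)
  have hcard := Finset.card_le_card hZsub
  rw [card_Zl, hvt'] at hcard
  rcases C.rich1 (y' := y') hv hz hzZ hz' hzZ' hzz (by omega) (by rw [hW, hvt']; omega) with
    h | ⟨hd, heq⟩
  · exact h
  · exfalso
    rw [hW, hvt'] at heq
    have hyB : y' ∈ Bs G r := by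
      by_contra h
      exact hG (C.third_A hy' h hd)
    obtain ⟨u, hu, hyu⟩ := C.nouniv y'
    have huB := C.nonnbr_B hyB hyu
    have hur : u ≠ r := by
      rintro rfl
      exact r_notMem_Bs huB
    have hSu : S u = {u} := by
      by_contra h
      exact hG (C.third_B hyB hd hu hyu h)
    have huN : u ∈ Nlt G r t := by
      have := mem_Bs'.1 huB
      exact mem_Nlt.2 ⟨mem_Ns.2 this.1, by omega⟩
    -- some component of smaller level has many non-neighbours
    have hex : ∃ x ∈ Zlt G r S t, (S x ∩ Nlt G r t).card < (S x ∩ Zlt G r S t).card := by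
      by_contra hcon
      push Not at hcon
      obtain ⟨θ, hθ1, hθ2⟩ := C.hP.inj (Zlt G r S t) (Nlt G r t)
        (fun x hx => Zs_ne (mem_Zlt.1 hx).1) hcon
      have h1 : (Zlt G r S t).card ≤ ((Nlt G r t).erase u).card := by
        refine Finset.card_le_card_of_injOn θ ?_ ?_
        · intro x hx
          have h2 := hθ1 x hx
          refine mem_coe.2 (mem_erase.2 ⟨?_, h2.1⟩)
          intro h3
          have h4 := C.hP.eq x _ h2.2
          rw [h3, hSu] at h4
          have h5 := C.hP.mem x (Zs_ne (mem_Zlt.1 hx).1)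
          rw [← h4, mem_singleton] at h5
          exact Zs_disj_Bs (mem_Zlt.1 hx).1 (by rw [h5]; exact huB)
        · intro x hx y hy hxy
          exact hθ2 x hx y hy hxy
      have h2 := Finset.card_erase_add_one huN
      omega
    obtain ⟨x, hx, hxc⟩ := hex
    have hxZ := (mem_Zlt.1 hx).1
    have hxr := Zs_ne hxZ
    have hxt : el G r S x < t := (mem_Zlt.1 hx).2
    have hxS := C.hP.mem x hxr
    have huniv : ∀ w, w ≠ r → dg G x + dg G w ≤ k + 2 := by
      by_cases hB : ∃ y ∈ S x, y ∈ Bs G r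
      · refine C.univ0 hG hxr hxS hxZ hB ?_
        have h1 : (S x ∩ Bs G r).card ≤ (S x ∩ Nlt G r t).card := by
          refine Finset.card_le_card fun w hw => ?_
          rw [mem_inter] at hw ⊢
          have := mem_Bs'.1 hw.2
          exact ⟨hw.1, mem_Nlt.2 ⟨mem_Ns.2 this.1, by omega⟩⟩
        have h2 : (S x ∩ Zlt G r S t).card ≤ (S x ∩ Zs G r).card := by
          refine Finset.card_le_card fun w hw => ?_
          rw [mem_inter] at hw ⊢
          exact ⟨hw.1, (mem_Zlt.1 hw.2).1⟩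
        omega
      · have hl : 1 ≤ el G r S x := by
          by_contra h
          exact hB ((C.hP.level_zero hxr).1 (by unfold el at h; omega))
        -- another non-neighbour in the component
        have h1 : 1 ≤ (S x ∩ Nlt G r t).card := by
          obtain ⟨h2, h3, -⟩ := C.hP.ys_mem hxr
          exact card_pos.2 ⟨_, mem_inter.2 ⟨h2, mem_Nlt.2 ⟨h3, hxt⟩⟩⟩
        obtain ⟨x', hx', hxx'⟩ := Finset.exists_mem_ne (s := S x ∩ Zlt G r S t) (by omega) x
        rw [mem_inter] at hx'
        exact ih (el G r S x) hxt hl (by omega) x x x' hxr rfl hxS hxZ hx'.1 (mem_Zlt.1 hx'.2).1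
          hxx'.symm
    exact hG (C.third_C hyB hd hu hyu hxZ huniv)

end Pool.Agent.H225R2.STC
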